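import Pool.Agent.T6.H46.RC.Full

/-!
# Convex cocompact subgroups and their conjugates
-/

set_option autoImplicit false

open Metric Set Filter Topology
open Pool.Agent.TH60.FP Pool.Agent.TH60.FP.Strip Pool.Agent.Y34.HB Pool.Agent.Y34.EL
open Pool.Agent.T6.H46.RR

namespace Pool.Agent.T6.H46.RC

variable {X : Type} [MetricSpace X] {G : Type} [Group G] [MulAction G X]

/-- `K` preserves the closed convex set `B` and acts cocompactly on it -/
structure CC (K : Subgroup G) (B : Set X) : Prop where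
  ne : B.Nonempty
  closed : IsClosed B
  conv : ∀ p ∈ B, ∀ q ∈ B, ∀ m, dist p m + dist m q = dist p q → m ∈ B
  inv : ∀ g ∈ K, ∀ x ∈ B, g • x ∈ B
  cc : ∃ C : Set X, IsCompact C ∧ ∀ x ∈ B, ∃ g ∈ K, g • x ∈ C

/-- the intersection of `K` and `h K h⁻¹`, as a subgroup of `K` -/
def IK (K : Subgroup G) (h : G) : Subgroup K where
  carrier := {a | h⁻¹ * (a : G) * h ∈ K}
  one_mem' := by simp
  mul_mem' := by
    intro a b ha hb
    have h1 : h⁻¹ * ((a * b : K) : G) * h = (h⁻¹ * a * h) * (h⁻¹ * b * h) := by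
      rw [Subgroup.coe_mul]; group
    show h⁻¹ * ((a * b : K) : G) * h ∈ K
    rw [h1]; exact K.mul_mem ha hb
  inv_mem' := by
    intro a ha
    have h1 : h⁻¹ * ((a⁻¹ : K) : G) * h = (h⁻¹ * a * h)⁻¹ := by
      rw [Subgroup.coe_inv]; group
    show h⁻¹ * ((a⁻¹ : K) : G) * h ∈ K
    rw [h1]; exact K.inv_mem ha

lemma mem_IK {K : Subgroup G} {h : G} {a : K} : a ∈ IK K h ↔ h⁻¹ * (a : G) * h ∈ K := Iff.rfl

/-- the distance from the translate `h B` -/
noncomputable def ph (B : Set X) (h : G) (x : X) : ℝ := infDist (h⁻¹ • x) B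

lemma ph_lip [IsIsometricSMul G X] (B : Set X) (h : G) (x y : X) :
    |ph B h x - ph B h y| ≤ dist x y := by
  unfold ph
  have h1 := infDist_le_infDist_add_dist (s := B) (x := h⁻¹ • x) (y := h⁻¹ • y)
  have h2 := infDist_le_infDist_add_dist (s := B) (x := h⁻¹ • y) (y := h⁻¹ • x)
  rw [dist_smul] at h1 h2
  rw [dist_comm y x] at h2
  rw [abs_le]
  constructor <;> linarith

lemma infDist_inv [IsIsometricSMul G X] {K : Subgroup G} {B : Set X} (hB : CC K B) {g : G}
    (hg : g ∈ K) (x : X) : infDist (g • x) B = infDist x B := by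
  have key : ∀ g ∈ K, ∀ x : X, infDist (g • x) B ≤ infDist x B := by
    intro g hg x
    rw [le_infDist hB.ne]
    intro y hy
    rw [← dist_smul g]
    exact infDist_le_dist_of_mem (hB.inv g hg y hy)
  refine le_antisymm (key g hg x) ?_
  have h1 := key g⁻¹ (K.inv_mem hg) (g • x)
  rwa [inv_smul_smul] at h1

lemma ph_inv [IsIsometricSMul G X] {K : Subgroup G} {B : Set X} (hB : CC K B) {h g : G}
    (hg : h⁻¹ * g * h ∈ K) (x : X) : ph B h (g • x) = ph B h x := by
  unfold ph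
  rw [← infDist_inv hB hg (h⁻¹ • x), smul_smul, smul_smul]
  congr 2; group

lemma ph_convex [ProperSpace X] [IsIsometricSMul G X] (hX : CN X) {K : Subgroup G} {B : Set X}
    (hB : CC K B) (h : G) (x y m : X) (hm : dist x m + dist m y = dist x y) :
    dist x y * ph B h m ≤ dist m y * ph B h x + dist x m * ph B h y := by
  rcases eq_or_lt_of_le (dist_nonneg (x := x) (y := y)) with h0 | h0
  · rw [← h0, zero_mul]
    exact add_nonneg (mul_nonneg dist_nonneg infDist_nonneg)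
      (mul_nonneg dist_nonneg infDist_nonneg)
  obtain ⟨x', hx', hx⟩ := hB.closed.exists_infDist_eq_dist hB.ne (h⁻¹ • x)
  obtain ⟨y', hy', hy⟩ := hB.closed.exists_infDist_eq_dist hB.ne (h⁻¹ • y)
  set l : ℝ := dist x m / dist x y with hl
  have hl0 : 0 ≤ l := by positivity
  have hl1 : l ≤ 1 := by
    rw [hl, div_le_one h0]
    have := dist_nonneg (x := m) (y := y)
    linarith
  have hlx : l * dist x y = dist x m := by rw [hl, div_mul_cancel₀ _ h0.ne']
  obtain ⟨w, hw⟩ := ex_on hX (o := x') (p := y') (t := l * dist x' y') (by positivity)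
    (by nlinarith [dist_nonneg (x := x') (y := y')])
  have hmon : On (h⁻¹ • x) (h⁻¹ • y) (l * dist (h⁻¹ • x) (h⁻¹ • y)) (h⁻¹ • m) := by
    rw [on_smul_iff, dist_smul, hlx]
    exact ⟨rfl, by linarith⟩
  have h1 := (t_cmp X hX).2 (h⁻¹ • x) (h⁻¹ • y) x' y' l (h⁻¹ • m) w hmon hw hl0 hl1
  have hwB : w ∈ B := hB.conv x' hx' y' hy' w (by rw [hw.1, hw.2]; ring)
  have h2 : ph B h m ≤ (1 - l) * ph B h x + l * ph B h y := by
    unfold ph
    rw [hx, hy]
    exact (infDist_le_dist_of_mem hwB).trans h1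
  have h3 := mul_le_mul_of_nonneg_left h2 h0.le
  have h4 : dist x y * ((1 - l) * ph B h x + l * ph B h y) =
      (dist x y - l * dist x y) * ph B h x + (l * dist x y) * ph B h y := by ring
  rw [h4, hlx] at h3
  have h5 : dist x y - dist x m = dist m y := by linarith
  rwa [h5] at h3

lemma cc_near {K : Subgroup G} {B : Set X} (hG : Geo X G) (hB : CC K B) {o : X} (ho : o ∈ B) :
    ∃ D : ℝ, 0 ≤ D ∧ ∀ x ∈ B, ∃ g ∈ K, dist x (g • o) ≤ D := by
  have := hG.isom
  obtain ⟨C, hC, hcov⟩ := hB.cc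
  obtain ⟨D, hD⟩ := hC.isBounded.subset_closedBall o
  refine ⟨|D|, abs_nonneg _, fun x hx => ?_⟩
  obtain ⟨g, hg, hgx⟩ := hcov x hx
  refine ⟨g⁻¹, K.inv_mem hg, ?_⟩
  rw [← dist_smul g, smul_inv_smul]
  exact (mem_closedBall.1 (hD hgx)).trans (le_abs_self D)

/-- the points of `B` near `h B` are near the orbit of `K ∩ h K h⁻¹` -/
lemma coarse {K : Subgroup G} {B : Set X} (hG : Geo X G) (hB : CC K B) {o : X} (ho : o ∈ B)
    (h : G) (r : ℝ) : ∃ R₁ : ℝ, ∀ x ∈ B, ph B h x ≤ r →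
      ∃ a : K, a ∈ IK K h ∧ dist x ((a : G) • o) ≤ R₁ := by
  classical
  have := hG.isom
  have := hG.proper
  obtain ⟨D, hD0, hD⟩ := cc_near hG hB ho
  have hF := finite_short hG o (r + 2 * D + 1)
  -- representatives
  let Rp : G → Prop := fun f => ∃ g g' : G, g ∈ K ∧ g' ∈ K ∧ g⁻¹ * h * g' = f
  have hrep : ∀ f : G, ∃ g : G, Rp f → g ∈ K ∧ ∃ g' ∈ K, g⁻¹ * h * g' = f := by
    intro f
    by_cases hf : Rp f
    · obtain ⟨g, g', h1, h2, h3⟩ := hf
      exact ⟨g, fun _ => ⟨h1, g', h2, h3⟩⟩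
    · exact ⟨1, fun h => absurd h hf⟩
  choose rep hrep using hrep
  obtain ⟨M, hM⟩ : ∃ M : ℝ, ∀ f ∈ {s : G | dist o (s • o) ≤ r + 2 * D + 1},
      dist (rep f • o) o ≤ M := by
    obtain ⟨M, hM⟩ := (hF.image (fun f => dist (rep f • o) o)).bddAbove
    exact ⟨M, fun f hf => hM ⟨f, hf, rfl⟩⟩
  refine ⟨D + M, fun x hx hxr => ?_⟩
  obtain ⟨g, hg, hgx⟩ := hD x hx
  obtain ⟨z, hz, hz'⟩ := hB.closed.exists_infDist_eq_dist hB.ne (h⁻¹ • x)
  obtain ⟨g', hg', hgz⟩ := hD z hz
  have h1 : dist (g • o) (h • g' • o) ≤ r + 2 * D + 1 := by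
    have e1 : dist (h⁻¹ • x) z ≤ r := by rw [← hz']; exact hxr
    rw [← dist_smul h, smul_inv_smul] at e1
    have e2 := dist_triangle4 (g • o) x (h • z) (h • g' • o)
    rw [dist_comm (g • o) x, dist_smul h z] at e2
    linarith
  set f : G := g⁻¹ * h * g' with hf
  have hfm : dist o (f • o) ≤ r + 2 * D + 1 := by
    rw [← dist_smul g, hf]
    have : g • (g⁻¹ * h * g') • o = h • g' • o := by
      rw [smul_smul, smul_smul]; congr 1; group
    rw [this]; exact h1
  obtain ⟨h2, g'', hg'', h3⟩ := hrep f ⟨g, g', hg, hg', rfl⟩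
  have ha : g * (rep f)⁻¹ ∈ K := K.mul_mem hg (K.inv_mem h2)
  refine ⟨⟨g * (rep f)⁻¹, ha⟩, ?_, ?_⟩
  · rw [mem_IK]
    show h⁻¹ * (g * (rep f)⁻¹) * h ∈ K
    have e : h⁻¹ * (g * (rep f)⁻¹) * h = g' * g''⁻¹ := by
      have e1 : (rep f)⁻¹ * h * g'' = g⁻¹ * h * g' := by rw [h3, hf]
      have e2 : (rep f)⁻¹ = g⁻¹ * h * g' * g''⁻¹ * h⁻¹ := by rw [← e1]; group
      rw [e2]; group
    rw [e]
    exact K.mul_mem hg' (K.inv_mem hg'')
  · show dist x ((g * (rep f)⁻¹) • o) ≤ D + M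
    have h4 := hM f hfm
    have h5 := dist_triangle x (g • o) ((g * (rep f)⁻¹) • o)
    have h6 : dist (g • o) ((g * (rep f)⁻¹) • o) = dist (rep f • o) o := by
      rw [mul_smul, dist_smul, ← dist_smul (rep f) o, smul_inv_smul]
    rw [h6] at h5
    linarith

/-- the action on the convex set -/
@[reducible] def bact {K : Subgroup G} {B : Set X} (hB : CC K B) : MulAction K B where
  smul g x := ⟨(g : G) • (x : X), hB.inv g g.2 x x.2⟩
  one_smul x := Subtype.ext (one_smul G (x : X))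
  mul_smul g h x := Subtype.ext (mul_smul (g : G) (h : G) (x : X))

lemma bact_coe {K : Subgroup G} {B : Set X} (hB : CC K B) (g : K) (x : B) :
    ((bact hB).smul g x : X) = (g : G) • (x : X) := rfl

lemma cn_sub (hX : CN X) {K : Subgroup G} {B : Set X} (hB : CC K B) : CN B := by
  intro p q
  obtain ⟨m, hm⟩ := hX p q
  have h1 := hm p
  have h2 := hm q
  rw [dist_self] at h1 h2
  rw [dist_comm (q : X) p] at h2
  have h3 : dist (p : X) m ≤ dist (p : X) q / 2 := by
    refine (pow_le_pow_iff_left₀ dist_nonneg (by positivity) two_ne_zero).1 ?_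
    linarith
  have h4 : dist m (q : X) ≤ dist (p : X) q / 2 := by
    rw [dist_comm]
    refine (pow_le_pow_iff_left₀ dist_nonneg (by positivity) two_ne_zero).1 ?_
    linarith
  have h5 := dist_triangle (p : X) m q
  refine ⟨⟨m, hB.conv p p.2 q q.2 m (by linarith)⟩, fun x => hm x⟩

lemma geo_sub (hG : Geo X G) {K : Subgroup G} {B : Set X} (hB : CC K B) :
    @Geo B _ K _ (bact hB) := by
  have := hG.proper
  have := hG.isom
  have := hG.disc
  letI := bact hB
  refine ⟨?_, ?_, ?_, ?_, cn_sub hG.cn hB⟩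
  · exact ProperSpace.of_isClosed hB.closed
  · refine ⟨fun g x y => ?_⟩
    show edist ((g : G) • (x : X)) ((g : G) • (y : X)) = edist x y
    rw [edist_smul_left]; rfl
  · refine ⟨fun {C L} hC hL => ?_⟩
    have h1 := ProperlyDiscontinuousSMul.finite_disjoint_inter_image (Γ := G)
      (hC.image continuous_subtype_val) (hL.image continuous_subtype_val)
    refine Set.Finite.of_injOn (f := fun g : K => (g : G)) ?_ (Subtype.val_injective.injOn) h1
    intro g hg
    obtain ⟨_, ⟨x, hx, rfl⟩, hxL⟩ := hg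
    exact ⟨(g : G) • (x : X), ⟨x, ⟨x, hx, rfl⟩, rfl⟩, ⟨_, hxL, rfl⟩⟩
  · obtain ⟨C, hC, hcov⟩ := hB.cc
    refine ⟨(Subtype.val : B → X) ⁻¹' C,
      hB.closed.isClosedEmbedding_subtypeVal.isCompact_preimage hC, fun x => ?_⟩
    obtain ⟨g, hg, hgx⟩ := hcov x x.2
    exact ⟨⟨g, hg⟩, hgx⟩

lemma qc_IK (hG : Geo X G) {K : Subgroup G} {B : Set X} (hB : CC K B) (h : G) (o : B) :
    letI := bact hB
    QCat (IK K h) o := by
  have := hG.proper
  have := hG.isom
  letI := bact hB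
  obtain ⟨R₁, hR₁⟩ := coarse hG hB o.2 h (ph B h (o : X))
  refine ⟨R₁, fun s hs z hz => ?_⟩
  have h1 := ph_convex hG.cn hB h (o : X) ((s : G) • (o : X)) z hz
  rw [ph_inv hB (mem_IK.1 hs)] at h1
  have h2 : ph B h (z : X) ≤ ph B h (o : X) := by
    have e : dist (z : X) ((s : G) • (o : X)) * ph B h (o : X) + dist (o : X) z * ph B h (o : X) =
        dist (o : X) ((s : G) • (o : X)) * ph B h (o : X) := by
      rw [← add_mul]; congr 1
      have : dist (o : X) z + dist (z : X) ((s : G) • (o : X)) =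
        dist (o : X) ((s : G) • (o : X)) := hz
      linarith
    rw [e] at h1
    rcases eq_or_lt_of_le (dist_nonneg (x := (o : X)) (y := (s : G) • (o : X))) with h0 | h0
    · have h3 : dist (o : X) z = 0 := by
        have e1 := dist_nonneg (x := (o : X)) (y := z)
        have e2 := dist_nonneg (x := (z : X)) (y := (s : G) • (o : X))
        have : dist (o : X) z + dist (z : X) ((s : G) • (o : X)) =
          dist (o : X) ((s : G) • (o : X)) := hz
        linarith
      rw [dist_eq_zero.1 h3]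
    · exact le_of_mul_le_mul_left h1 h0
  obtain ⟨a, ha, ha'⟩ := hR₁ z z.2 h2
  exact ⟨a, ha, ha'⟩

end Pool.Agent.T6.H46.RC
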