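import Pool.Agent.T6.H46.RC.Pass
import Pool.Agent.T6.H46.RR.Fin

/-!
# Quasi-convex subgroups and rank one isometries
-/

set_option autoImplicit false

open Metric Set Filter Topology
open Pool.Agent.TH60.FP Pool.Agent.TH60.FP.Strip Pool.Agent.Y34.HB Pool.Agent.Y34.EL
open Pool.Agent.T6.H46.RR

namespace Pool.Agent.T6.H46.RC

variable {X : Type} [MetricSpace X] {K : Type} [Group K] [MulAction K X]

/-- the orbit of `o` under `A` is quasi-convex -/
def QCat (A : Subgroup K) (o : X) : Prop :=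
  ∃ R₁ : ℝ, ∀ s ∈ A, ∀ z : X, dist o z + dist z (s • o) = dist o (s • o) →
    ∃ a ∈ A, dist z (a • o) ≤ R₁

lemma QCat.change [IsIsometricSMul K X] (hX : CN X) [ProperSpace X] {A : Subgroup K} {o : X}
    (h : QCat A o) (o' : X) : QCat A o' := by
  obtain ⟨R₁, hR⟩ := h
  refine ⟨dist o o' + R₁ + dist o o' + |R₁|, fun s hs z hz => ?_⟩
  have habs := abs_nonneg R₁
  rcases eq_or_lt_of_le (dist_nonneg (x := o') (y := s • o')) with h0 | h0
  · have h1 : dist o' z = 0 := by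
      have h2 := dist_nonneg (x := o') (y := z)
      have h3 := dist_nonneg (x := z) (y := s • o')
      linarith
    refine ⟨1, A.one_mem, ?_⟩
    rw [one_smul, dist_comm, h1]
    have := dist_nonneg (x := o) (y := o')
    have := neg_le_abs R₁
    linarith
  · set l : ℝ := dist o' z / dist o' (s • o') with hl
    have hl0 : 0 ≤ l := by positivity
    have hl1 : l ≤ 1 := by
      rw [hl, div_le_one h0]
      have := dist_nonneg (x := z) (y := s • o')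
      linarith
    have hlz : l * dist o' (s • o') = dist o' z := by rw [hl, div_mul_cancel₀ _ h0.ne']
    have hz' : On o' (s • o') (l * dist o' (s • o')) z := by
      rw [hlz]; exact ⟨rfl, by linarith⟩
    obtain ⟨w, hw⟩ := ex_on hX (o := o) (p := s • o) (t := l * dist o (s • o)) (by positivity)
      (by nlinarith [dist_nonneg (x := o) (y := s • o)])
    have h1 := (t_cmp X hX).2 o (s • o) o' (s • o') l w z hw hz' hl0 hl1
    rw [dist_smul] at h1
    have h2 : (1 - l) * dist o o' + l * dist o o' = dist o o' := by ring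
    rw [h2] at h1
    obtain ⟨a, ha, ha'⟩ := hR s hs w (by rw [hw.1, hw.2]; ring)
    refine ⟨a, ha, ?_⟩
    have h3 := dist_triangle z w (a • o')
    have h4 := dist_triangle w (a • o) (a • o')
    rw [dist_smul] at h4
    rw [dist_comm z w] at h3
    linarith

lemma pj_self {c : ℝ → X} (s : ℝ) : Pj c (c s) s := by
  intro t
  rw [dist_self]; exact dist_nonneg

lemma pj_smul [IsIsometricSMul K X] {k : K} {τ : ℝ} {c : ℝ → X} (hk : Axis k τ c) {x : X}
    {t : ℝ} (i : ℤ) (h : Pj c (k ^ i • x) t) : Pj c x (t - i * τ) := by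
  intro u
  have h1 := h (u + i * τ)
  rw [← axis_zpow hk i u, dist_smul] at h1
  have h2 : k ^ i • c (t - i * τ) = c t := by
    rw [axis_zpow hk]; congr 1; ring
  rw [← h2, dist_smul] at h1
  exact h1

lemma qc_bound_pos (hG : Geo X K) {k : K} {τ R D : ℝ} {c : ℝ → X} (hk : Axis k τ c)
    (hP : Pass c τ R D) {A : Subgroup K} (hA : QCat A (c 0)) (hno : ∀ l : ℕ, 0 < l → k ^ l ∉ A) :
    ∃ S : ℝ, ∀ s ∈ A, ∀ t, Pj c (s • c 0) t → t ≤ S := by
  classical
  have := hG.isom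
  obtain ⟨hc, hτ, hR, hD, hpass⟩ := hP
  obtain ⟨R₁, hR₁⟩ := hA
  have hF := finite_short hG (c 0) (R + R₁)
  set N₀ : ℕ := hF.toFinset.card with hN₀
  obtain ⟨i₀, hi₀⟩ : ∃ i₀ : ℕ, D ≤ i₀ * τ := by
    refine ⟨⌈D / τ⌉₊, ?_⟩
    have := Nat.le_ceil (D / τ)
    rwa [div_le_iff₀ hτ] at this
  refine ⟨(i₀ + N₀ : ℕ) * τ + D, fun s hs t ht => ?_⟩
  by_contra hcon
  push Not at hcon
  have hex : ∀ j : ℕ, j ≤ N₀ → ∃ a ∈ A, a⁻¹ * k ^ (i₀ + j) ∈ hF.toFinset := by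
    intro j hj
    have h1 : (((i₀ + j : ℕ) : ℤ) : ℝ) * τ ≤ ((i₀ + N₀ : ℕ) : ℝ) * τ := by
      refine mul_le_mul_of_nonneg_right ?_ hτ.le
      push_cast
      have : (j : ℝ) ≤ N₀ := by exact_mod_cast hj
      linarith
    have h2 : (i₀ : ℝ) * τ ≤ (((i₀ + j : ℕ) : ℤ) : ℝ) * τ := by
      refine mul_le_mul_of_nonneg_right ?_ hτ.le
      push_cast
      have : (0 : ℝ) ≤ j := Nat.cast_nonneg j
      linarith
    obtain ⟨m, hm1, hm2⟩ := hpass (c 0) (s • c 0) 0 t ((i₀ + j : ℕ) : ℤ) (pj_self 0) ht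
      (by linarith) (by linarith)
    obtain ⟨a, ha, ha'⟩ := hR₁ s hs m hm1
    refine ⟨a, ha, ?_⟩
    rw [Set.Finite.mem_toFinset]
    show dist (c 0) ((a⁻¹ * k ^ (i₀ + j)) • c 0) ≤ R + R₁
    have h3 := axis_zpow hk ((i₀ + j : ℕ) : ℤ) 0
    rw [zpow_natCast, zero_add] at h3
    rw [mul_smul, h3, ← dist_smul a, smul_inv_smul]
    have h4 := dist_triangle (a • c 0) m (c ((((i₀ + j : ℕ) : ℤ) : ℝ) * τ))
    rw [dist_comm (a • c 0) m, dist_comm m (c _)] at h4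
    linarith
  choose! a ha ha' using hex
  obtain ⟨j, hj, j', hj', hne, heq⟩ := Finset.exists_ne_map_eq_of_card_lt_of_maps_to
    (s := Finset.range (N₀ + 1)) (t := hF.toFinset) (f := fun j => (a j)⁻¹ * k ^ (i₀ + j))
    (by rw [Finset.card_range]; omega)
    (by intro j hj; exact ha' j (by simpa [Nat.lt_succ_iff] using hj))
  rw [Finset.mem_range, Nat.lt_succ_iff] at hj hj'
  have key : ∀ j j' : ℕ, j ≤ N₀ → j' ≤ N₀ → j < j' →
      (a j)⁻¹ * k ^ (i₀ + j) = (a j')⁻¹ * k ^ (i₀ + j') → False := by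
    intro j j' h1 h2 h3 h4
    refine hno (j' - j) (by omega) ?_
    have h5 : a j' * (a j)⁻¹ = k ^ (j' - j) := by
      have e1 : k ^ (i₀ + j') = k ^ (j' - j) * k ^ (i₀ + j) := by
        rw [← pow_add]; congr 1; omega
      rw [e1, ← mul_assoc, mul_left_inj] at h4
      rw [h4, mul_inv_cancel_left]
    rw [← h5]
    exact A.mul_mem (ha j' h2) (A.inv_mem (ha j h1))
  rcases lt_or_gt_of_ne hne with hlt | hlt
  · exact key j j' hj hj' hlt heq
  · exact key j' j hj' hj hlt heq.symm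

lemma axis_neg [IsIsometricSMul K X] {k : K} {τ : ℝ} {c : ℝ → X} (hk : Axis k τ c) :
    Axis k⁻¹ τ (fun t => c (-t)) := by
  refine ⟨neg_iso hk.1, fun t => ?_⟩
  show k⁻¹ • c (-t) = c (-(t + τ))
  rw [inv_smul_eq_iff, hk.2]
  congr 1; ring

lemma qc_bound (hG : Geo X K) {k : K} {τ R D : ℝ} {c : ℝ → X} (hk : Axis k τ c)
    (hP : Pass c τ R D) {A : Subgroup K} (hA : QCat A (c 0)) (hno : ∀ l : ℕ, 0 < l → k ^ l ∉ A) :
    ∃ S : ℝ, 0 ≤ S ∧ ∀ s ∈ A, ∀ t, Pj c (s • c 0) t → |t| ≤ S := by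
  have := hG.isom
  obtain ⟨S₁, h1⟩ := qc_bound_pos hG hk hP hA hno
  obtain ⟨S₂, h2⟩ := qc_bound_pos hG (axis_neg hk) hP.neg (A := A)
    (by show QCat A (c (-0)); rw [neg_zero]; exact hA)
    (by
      intro l hl h
      rw [inv_pow] at h
      exact hno l hl (A.inv_mem_iff.1 h))
  refine ⟨max (max S₁ S₂) 0, le_max_right _ _, fun s hs t ht => abs_le.2 ⟨?_, ?_⟩⟩
  · have h3 := h2 s hs (-t) (by
      have := ht.neg
      show Pj (fun t => c (-t)) (s • c (-0)) (-t)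
      rw [neg_zero]; exact this)
    have h4 := (le_max_right S₁ S₂).trans (le_max_left _ (0 : ℝ))
    linarith
  · exact (h1 s hs t ht).trans ((le_max_left _ _).trans (le_max_left _ _))

lemma qc_zpowers [IsIsometricSMul K X] (hX : CN X) [ProperSpace X] {k : K} {τ : ℝ} {c : ℝ → X}
    (hτ : 0 < τ) (hk : Axis k τ c) : QCat (Subgroup.zpowers k) (c 0) := by
  refine ⟨τ, fun s hs z hz => ?_⟩
  obtain ⟨i, rfl⟩ := Subgroup.mem_zpowers_iff.1 hs
  have h1 := axis_zpow hk i 0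
  rw [zero_add] at h1
  rw [h1] at hz
  have hon : On (c 0) (c (i * τ)) (dist (c 0) z) z := ⟨rfl, by linarith⟩
  have hle : dist (c 0) z ≤ |i * τ| := by
    have h2 : dist (c 0) (c (i * τ)) = |i * τ| := by
      rw [hk.1.dist_eq, Real.dist_eq, zero_sub, abs_neg]
    have := dist_nonneg (x := z) (y := c (i * τ))
    linarith
  obtain ⟨u, hu⟩ : ∃ u, z = c u := by
    rcases le_total 0 ((i : ℝ) * τ) with h | h
    · rw [abs_of_nonneg h] at hle
      have := on_uniq hX hon (on_line_right hk.1 dist_nonneg (u := 0) (v := i * τ) (by linarith))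
      exact ⟨_, this⟩
    · rw [abs_of_nonpos h] at hle
      have := on_uniq hX hon (on_line_left hk.1 dist_nonneg (u := 0) (v := i * τ) (by linarith))
      exact ⟨_, this⟩
  refine ⟨k ^ ⌊u / τ⌋, Subgroup.mem_zpowers_iff.2 ⟨_, rfl⟩, ?_⟩
  rw [axis_zpow hk, zero_add, hu, hk.1.dist_eq, Real.dist_eq]
  have h3 := Int.floor_le (u / τ)
  have h4 := Int.lt_floor_add_one (u / τ)
  rw [le_div_iff₀ hτ] at h3
  rw [div_lt_iff₀ hτ] at h4
  rw [abs_le]
  constructor <;> nlinarith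

/-- the last step -/
lemma dyn_aux (hG : Geo X K) {k : K} {τ R D : ℝ} {c : ℝ → X} (hk : Axis k τ c)
    (hP : Pass c τ R D) {A₁ A₂ : Subgroup K} (hA₁ : QCat A₁ (c 0))
    (hno : ∀ l : ℕ, 0 < l → k ^ l ∉ A₁) (g₁ : K) (o : X) (S₃ : ℝ)
    (h₃ : ∀ s ∈ A₂, ∀ t, Pj c (g₁ • s • o) t → -S₃ ≤ t) :
    ∃ g : K, {s : K | s ∈ A₁ ∧ g⁻¹ * s * g ∈ A₂}.Finite := by
  have := hG.isom
  have := hG.proper
  obtain ⟨S₁, hS0, hS₁⟩ := qc_bound hG hk hP hA₁ hno
  obtain ⟨hc, hτ, hR, hD, hpass⟩ := hP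
  obtain ⟨i₁, hi₁⟩ : ∃ i₁ : ℕ, S₁ + D ≤ i₁ * τ := by
    refine ⟨⌈(S₁ + D) / τ⌉₊, ?_⟩
    have := Nat.le_ceil ((S₁ + D) / τ)
    rwa [div_le_iff₀ hτ] at this
  obtain ⟨a, ha⟩ : ∃ a : ℕ, i₁ * τ + D + S₃ ≤ a * τ := by
    refine ⟨⌈(i₁ * τ + D + S₃) / τ⌉₊, ?_⟩
    have := Nat.le_ceil ((i₁ * τ + D + S₃) / τ)
    rwa [div_le_iff₀ hτ] at this
  set g : K := k ^ (a : ℤ) * g₁ with hg
  refine ⟨g, (finite_short hG (c 0) (i₁ * τ + R + dist (c 0) (g • o))).subset ?_⟩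
  rintro s ⟨hs1, hs2⟩
  show dist (c 0) (s • c 0) ≤ _
  obtain ⟨t₁, ht₁⟩ := exists_pj hc (s • c 0)
  obtain ⟨t₂, ht₂⟩ := exists_pj hc (s • g • o)
  have h1 := (abs_le.1 (hS₁ s hs1 t₁ ht₁)).2
  have h2 : a * τ - S₃ ≤ t₂ := by
    have e : s • g • o = k ^ (a : ℤ) • g₁ • (g⁻¹ * s * g) • o := by
      rw [smul_smul, smul_smul, smul_smul, hg]
      congr 1; group
    rw [e] at ht₂
    have h3 := h₃ _ hs2 _ (pj_smul hk _ ht₂)
    push_cast at h3
    linarith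
  obtain ⟨m, hm1, hm2⟩ := hpass (s • c 0) (s • g • o) t₁ t₂ (i₁ : ℤ) ht₁ ht₂
    (by push_cast; linarith) (by push_cast; linarith)
  rw [dist_smul] at hm1
  have h4 := dist_triangle (c 0) (c (((i₁ : ℤ) : ℝ) * τ)) (s • c 0)
  have h5 := dist_triangle (c (((i₁ : ℤ) : ℝ) * τ)) m (s • c 0)
  have h6 : dist (c 0) (c (((i₁ : ℤ) : ℝ) * τ)) = i₁ * τ := by
    rw [hc.dist_eq, Real.dist_eq, zero_sub, abs_neg]
    push_cast
    exact abs_of_nonneg (by positivity)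
  have h7 := dist_nonneg (x := m) (y := s • g • o)
  rw [dist_comm m (s • c 0)] at h5
  linarith

lemma axis_pow_ne [IsIsometricSMul K X] {k : K} {τ : ℝ} {c : ℝ → X} (hτ : 0 < τ) (hk : Axis k τ c) {i : ℤ}
    (hi : i ≠ 0) : k ^ i ≠ 1 := by
  intro h
  have h1 := axis_zpow hk i 0
  rw [h, one_smul, zero_add] at h1
  have h2 := hk.1.injective h1
  rcases mul_eq_zero.1 h2.symm with h3 | h3
  · exact hi (by exact_mod_cast h3)
  · exact hτ.ne' h3

/-- two quasi-convex subgroups which both miss the powers of some rank one isometries have a finite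
intersection after a conjugation -/
theorem dyn (hG : Geo X K) {k k' : K} {τ R D τ' R' D' : ℝ} {c c' : ℝ → X} (hk : Axis k τ c)
    (hP : Pass c τ R D) (hk' : Axis k' τ' c') (hP' : Pass c' τ' R' D') {A₁ A₂ : Subgroup K}
    (hA₁ : ∀ o : X, QCat A₁ o) (hA₂ : ∀ o : X, QCat A₂ o) (hno : ∀ l : ℕ, 0 < l → k ^ l ∉ A₂)
    (hno' : ∀ l : ℕ, 0 < l → k' ^ l ∉ A₁) :
    ∃ g : K, {s : K | s ∈ A₁ ∧ g⁻¹ * s * g ∈ A₂}.Finite := by
  have := hG.isom
  have := hG.proper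
  by_cases hrel : ∃ l : ℕ, 0 < l ∧ k' ^ l ∈ Subgroup.zpowers k
  · -- commensurable
    obtain ⟨l, hl, hl'⟩ := hrel
    obtain ⟨m, hm⟩ := Subgroup.mem_zpowers_iff.1 hl'
    have hno2 : ∀ l : ℕ, 0 < l → k' ^ l ∉ A₂ := by
      intro l' hl' h
      have h1 : k ^ (m * l') ∈ A₂ := by
        have e : k ^ (m * l') = (k' ^ l') ^ l := by
          rw [zpow_mul, hm, zpow_natCast, ← pow_mul, ← pow_mul, mul_comm]
        rw [e]; exact A₂.pow_mem h l
      have hm0 : m ≠ 0 := by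
        rintro rfl
        rw [zpow_zero] at hm
        have := axis_pow_ne hP'.2.1 hk' (i := (l : ℤ)) (by exact_mod_cast hl.ne')
        rw [zpow_natCast] at this
        exact this hm.symm
      obtain ⟨n, hn | hn⟩ := m.eq_nat_or_neg
      · refine hno (n * l') (Nat.mul_pos (Nat.pos_of_ne_zero ?_) hl') ?_
        · rintro rfl; exact hm0 (by simpa using hn)
        · rw [hn] at h1
          exact_mod_cast h1
      · refine hno (n * l') (Nat.mul_pos (Nat.pos_of_ne_zero ?_) hl') ?_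
        · rintro rfl; exact hm0 (by simpa using hn)
        · rw [hn, neg_mul, zpow_neg] at h1
          exact_mod_cast A₂.inv_mem_iff.1 h1
    obtain ⟨S, hS0, hS⟩ := qc_bound hG hk' hP' (hA₂ _) hno2
    refine dyn_aux hG hk' hP' (hA₁ _) hno' 1 (c' 0) S fun s hs t ht => ?_
    rw [one_smul] at ht
    exact (abs_le.1 (hS s hs t ht)).1
  · push Not at hrel
    -- independent
    obtain ⟨S, hS0, hS⟩ := qc_bound hG hk' hP' (A := Subgroup.zpowers k)
      ((qc_zpowers hG.cn hP.2.1 hk).change hG.cn _) hrel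
    obtain ⟨S₂, hS20, hS₂⟩ := qc_bound hG hk hP (hA₂ _) hno
    obtain ⟨hc, hτ, hR, hD, hpass⟩ := hP
    have hP'' := hP'
    obtain ⟨hc', hτ', hR', hD', hpass'⟩ := hP'
    obtain ⟨j₁, hj₁⟩ : ∃ j₁ : ℕ, S + D' ≤ j₁ * τ' := by
      refine ⟨⌈(S + D') / τ'⌉₊, ?_⟩
      have := Nat.le_ceil ((S + D') / τ')
      rwa [div_le_iff₀ hτ'] at this
    set w : X := c' (((-(j₁ : ℤ) : ℤ) : ℝ) * τ') with hw
    obtain ⟨i, hi⟩ : ∃ i : ℕ, dist (c 0) w + dist (c 0) (c' 0) + R + R' + D + 1 ≤ i * τ := by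
      refine ⟨⌈(dist (c 0) w + dist (c 0) (c' 0) + R + R' + D + 1) / τ⌉₊, ?_⟩
      have := Nat.le_ceil ((dist (c 0) w + dist (c 0) (c' 0) + R + R' + D + 1) / τ)
      rwa [div_le_iff₀ hτ] at this
    obtain ⟨b, hb⟩ : ∃ b : ℕ, i * τ + D + S₂ ≤ b * τ := by
      refine ⟨⌈(i * τ + D + S₂) / τ⌉₊, ?_⟩
      have := Nat.le_ceil ((i * τ + D + S₂) / τ)
      rwa [div_le_iff₀ hτ] at this
    refine dyn_aux hG hk' hP'' (hA₁ _) hno' (k ^ (b : ℤ)) (c 0) (j₁ * τ' + D')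
      fun s hs t' ht' => ?_
    by_contra hcon
    push Not at hcon
    set z : X := k ^ (b : ℤ) • s • c 0 with hz
    obtain ⟨t, ht⟩ := exists_pj hc z
    have h1 := (abs_le.1 (hS₂ s hs _ (pj_smul hk _ ht))).1
    push_cast at h1
    have hd0 := dist_nonneg (x := c 0) (y := w)
    have hd1 := dist_nonneg (x := c 0) (y := c' 0)
    obtain ⟨m, hm1, hm2⟩ := hpass (c 0) z 0 t (i : ℤ) (pj_self 0) ht
      (by push_cast; linarith) (by push_cast; linarith)
    obtain ⟨t₃, ht₃⟩ := exists_pj hc' (k ^ (i : ℤ) • c' 0)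
    have h2 := (abs_le.1 (hS (k ^ (i : ℤ)) (Subgroup.mem_zpowers_iff.2 ⟨_, rfl⟩) t₃ ht₃)).1
    obtain ⟨m', hm1', hm2'⟩ := hpass' z (k ^ (i : ℤ) • c' 0) t' t₃ (-(j₁ : ℤ)) ht' ht₃
      (by push_cast; linarith) (by push_cast; linarith)
    rw [← hw] at hm2'
    have hci : c (((i : ℤ) : ℝ) * τ) = k ^ (i : ℤ) • c 0 := by rw [axis_zpow hk, zero_add]
    set q : X := c (((i : ℤ) : ℝ) * τ) with hq
    have hoq : dist (c 0) q = i * τ := by
      rw [hq, hc.dist_eq, Real.dist_eq, zero_sub, abs_neg]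
      push_cast
      exact abs_of_nonneg (by positivity)
    have e1 := dist_triangle (c 0) m q
    have e2 := dist_triangle q m z
    have e3 := dist_triangle (c 0) w z
    have e4 := dist_triangle z m' w
    have e5 := dist_triangle w m' (k ^ (i : ℤ) • c' 0)
    have e6 := dist_triangle z q (k ^ (i : ℤ) • c' 0)
    have e7 := dist_triangle (c 0) w q
    have e8 := dist_triangle w (k ^ (i : ℤ) • c' 0) q
    have e9 : dist q (k ^ (i : ℤ) • c' 0) = dist (c 0) (c' 0) := by rw [hci, dist_smul]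
    rw [dist_comm m q] at e1
    rw [dist_comm m' w, dist_comm z w] at e4
    rw [dist_comm (k ^ (i : ℤ) • c' 0) q, e9] at e8
    rw [e9, dist_comm z q] at e6
    linarith

end Pool.Agent.T6.H46.RC
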