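import Pool.Agent.T6.H46.RC.Par4

/-!
# The final theorem on edge stabilisers
-/

set_option autoImplicit false

open Metric Set Filter Topology
open Pool.Agent.TH60.FP Pool.Agent.TH60.FP.Strip Pool.Agent.Y34.HB Pool.Agent.Y34.EL
open Pool.Agent.T6.H46.RR Pool.Agent.T6.H67.TA

namespace Pool.Agent.T6.H46.RC

variable {X : Type} [MetricSpace X] {G : Type} [Group G] [MulAction G X]

/-- an invariant subset of `B` has more than one point if some element has an axis in `B` -/
lemma nontrivial_of_axis [IsIsometricSMul G X] {K : Subgroup G} {B B₀ : Set X} (hB : CC K B)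
    (h₀ : CC K B₀) (hsub : B₀ ⊆ B) (k : K) {τ : ℝ} (hτ : 0 < τ) {c : ℝ → B}
    (hk : @Axis B _ K _ (bact hB) k τ c) : Nontrivial B₀ := by
  letI := bact hB
  rw [Set.nontrivial_coe_sort]
  by_contra hcon
  rw [Set.not_nontrivial_iff] at hcon
  obtain ⟨x, hx⟩ := h₀.ne
  let x' : B := ⟨x, hsub hx⟩
  have hkx : k • x' = x' := Subtype.ext (hcon (h₀.inv k k.2 x hx) hx)
  have hpow : ∀ n : ℕ, dist x' (c (n * τ)) = dist x' (c 0) := by
    intro n
    induction n with
    | zero => simp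
    | succ n ih =>
      have h1 := hk.2 (n * τ)
      have e : ((n + 1 : ℕ) : ℝ) * τ = n * τ + τ := by push_cast; ring
      rw [e, ← h1, ← ih]
      have h2 : dist (k • x') (k • c (n * τ)) = dist x' (c (n * τ)) := by
        show dist ((k : G) • (x' : X)) ((k : G) • (c (n * τ) : X)) = _
        rw [dist_smul]; rfl
      rw [← h2, hkx]
  obtain ⟨n, hn⟩ := exists_nat_gt (2 * dist x' (c 0) / τ)
  rw [div_lt_iff₀ hτ] at hn
  have h1 := hpow n
  have h2 := hk.1.dist_eq 0 (n * τ)
  rw [Real.dist_eq, zero_sub, abs_neg, abs_of_nonneg (by positivity)] at h2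
  have h3 := dist_triangle_left (c 0) (c (n * τ)) x'
  linarith

variable {V : Type} {T : SimpleGraph V} (hT : T.IsTree) [MulAction G V]
  (hact : ∀ (g : G) (u v : V), T.Adj u v → T.Adj (g • u) (g • v))

omit [MulAction G X] in
include hT hact in
lemma coh_pow {a b : V} (hab : T.Adj a b) {p q : G} (hp : Fac T a b p) (hq : Fac T b a q)
    (n : ℕ) : Coh T a b ((p * q) ^ (n + 1)) := by
  have h1 : ∀ n : ℕ, Fac T a b ((p * q) ^ n * p) := by
    intro n
    induction n with
    | zero => rw [pow_zero, one_mul]; exact hp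
    | succ n ih =>
      have := coh_mul_fac hT hact hab (fac_mul hT hact hab hp hq) ih
      rwa [← mul_assoc, ← pow_succ'] at this
  have h2 := fac_mul hT hact hab (h1 n) hq
  rwa [mul_assoc, ← pow_succ] at h2

include hT hact in
/-- the edge stabiliser is not cocompact -/
lemma not_cocompact (hG : Geo X G) {K : Subgroup G} {B : Set X} (hB : CC K B) {a b : V}
    (hab : T.Adj a b) (hK : ∀ s : G, s ∈ K ↔ s • a = a ∧ s • b = b) {p q : G}
    (hp : Fac T a b p) (hq : Fac T b a q) : ¬ ∀ x, x ∈ B := by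
  intro hall
  have := hG.isom
  obtain ⟨o, ho⟩ := hB.ne
  obtain ⟨D, hD0, hD⟩ := cc_near hG hB ho
  have hF := finite_short hG o D
  have h1 : ∀ n : ℕ, ∃ g ∈ K, dist o ((g⁻¹ * (p * q) ^ n) • o) ≤ D := by
    intro n
    obtain ⟨g, hg, hgd⟩ := hD ((p * q) ^ n • o) (hall _)
    refine ⟨g, hg, ?_⟩
    rw [mul_smul, ← dist_smul g, smul_inv_smul, dist_comm]
    exact hgd
  choose g hg hgd using h1
  have hninj : ¬ Function.Injective (fun n : ℕ => (g n)⁻¹ * (p * q) ^ n) := by
    intro hinj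
    have : (univ : Set ℕ).Finite :=
      Set.Finite.of_injOn (f := fun n : ℕ => (g n)⁻¹ * (p * q) ^ n) (fun n _ => hgd n)
        (hinj.injOn) hF
    exact Set.infinite_univ this
  rw [Function.Injective] at hninj
  push Not at hninj
  have key : ∀ m n : ℕ, m < n → (g m)⁻¹ * (p * q) ^ m = (g n)⁻¹ * (p * q) ^ n → False := by
    intro m n hmn he
    have e1 : (p * q) ^ (n - m) ∈ K := by
      have e2 : (p * q) ^ n = (p * q) ^ (n - m) * (p * q) ^ m := by
        rw [← pow_add]; congr 1; omega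
      rw [e2] at he
      have e3 : (p * q) ^ (n - m) = g n * (g m)⁻¹ := by
        have : (g m)⁻¹ = (g n)⁻¹ * (p * q) ^ (n - m) := by
          have := congrArg (· * ((p * q) ^ m)⁻¹) he
          simpa [mul_assoc] using this
        rw [this]; group
      rw [e3]
      exact K.mul_mem (hg n) (K.inv_mem (hg m))
    obtain ⟨j, hj⟩ : ∃ j, n - m = j + 1 := ⟨n - m - 1, by omega⟩
    rw [hj] at e1
    have h2 := coh_pow hT hact hab hp hq j
    obtain ⟨h3, h4⟩ := (hK _).1 e1
    unfold Coh at h2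
    rw [h3, h4, D_comm b a] at h2
    omega
  obtain ⟨m, n, he, hne⟩ := hninj
  rcases lt_or_gt_of_ne hne with h | h
  · exact key m n h he
  · exact key n m h he.symm

include hT hact in
/-- **Main theorem** -/
theorem main (hG : Geo X G) (hGC : GC X) {K : Subgroup G} {B : Set X} (hB : CC K B) (k : K)
    {τ : ℝ} (hτ : 0 < τ) {c : ℝ → B} (hk : @Axis B _ K _ (bact hB) k τ c) (hHP : HP c = ∅)
    {a b : V} (hab : T.Adj a b) (hK : ∀ s : G, s ∈ K ↔ s • a = a ∧ s • b = b) {p q : G}
    (hp : Fac T a b p) (hq : Fac T b a q) : (∃ g : G, RankOne X g) ∨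
      ∃ B₀ : Set X, B₀ ⊆ B ∧ CC K B₀ ∧ Nontrivial B₀ ∧
      ∃ (Z : Type) (_ : MetricSpace Z) (_ : Nontrivial Z) (e : X ≃ Z × B₀),
      ∀ x x' : X, dist x x' ^ 2 = dist (e x).1 (e x').1 ^ 2 + dist (e x).2 (e x').2 ^ 2 := by
  have := hG.isom
  rcases rank_one_or hT hact hG hB k hτ hk hHP hab hK hp hq with h | h
  · exact Or.inl h
  · right
    obtain ⟨B₀, hsub, h₀, h1 | h1⟩ := split_of_bd hG hGC hB h
    · exact absurd h1 (not_cocompact hT hact hG h₀ hab hK hp hq)
    · exact ⟨B₀, hsub, h₀, nontrivial_of_axis hB h₀ hsub k hτ hk, h1⟩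

end Pool.Agent.T6.H46.RC
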