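import Pool.Agent.T6.H46.RC.Dyn
import Pool.Agent.R632.CZ.Axes

/-!
# Convex functions which are constant on the axes of rank one isometries are bounded
-/

set_option autoImplicit false

open Metric Set Filter Topology
open Pool.Agent.TH60.FP Pool.Agent.TH60.FP.Strip Pool.Agent.Y34.HB Pool.Agent.Y34.EL
open Pool.Agent.T6.H46.RR

namespace Pool.Agent.T6.H46.RC

variable {X : Type} [MetricSpace X] {K : Type} [Group K] [MulAction K X]

/-- the inequality of nearest points on a line -/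
lemma pj_sq (hX : CN X) [ProperSpace X] {c : ℝ → X} (hc : Isometry c) {x : X} {s : ℝ}
    (hs : Pj c x s) (u : ℝ) : dist x (c s) ^ 2 + (u - s) ^ 2 ≤ dist x (c u) ^ 2 := by
  set L : ℝ := dist (c s) (c u) with hL
  have hL2 : L ^ 2 = (u - s) ^ 2 := by
    rw [hL, hc.dist_eq, Real.dist_eq, sq_abs]; ring
  have hL0 : 0 ≤ L := dist_nonneg
  rw [← hL2]
  rcases eq_or_lt_of_le hL0 with h0 | h0
  · rw [← h0]
    have h1 := hs u
    have h2 : dist x (c s) ^ 2 ≤ dist x (c u) ^ 2 := pow_le_pow_left₀ dist_nonneg h1 2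
    linarith
  · have key : ∀ t : ℝ, 0 < t → t ≤ L → dist x (c s) ^ 2 + (L - t) * L ≤ dist x (c u) ^ 2 := by
      intro t ht0 ht1
      obtain ⟨y, hy⟩ := ex_on hX (o := c s) (p := c u) ht0.le ht1
      have h1 := (t_stew X hX).2.2 (c s) (c u) t y hy x
      obtain ⟨v, hv⟩ : ∃ v, y = c v := by
        rcases le_total s u with h | h
        · have h3 : t ≤ u - s := by
            rw [hL, hc.dist_eq, Real.dist_eq, abs_of_nonpos (by linarith)] at ht1; linarith
          exact ⟨_, on_uniq hX hy (on_line_right hc ht0.le h3)⟩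
        · have h3 : t ≤ s - u := by
            rw [hL, hc.dist_eq, Real.dist_eq, abs_of_nonneg (by linarith)] at ht1; linarith
          exact ⟨_, on_uniq hX hy (on_line_left hc ht0.le h3)⟩
      have h2 := hs v
      rw [← hv] at h2
      have h3 : dist x (c s) ^ 2 ≤ dist x y ^ 2 := pow_le_pow_left₀ dist_nonneg h2 2
      rw [← hL] at h1
      have h4 : L * dist x (c s) ^ 2 ≤ L * dist x y ^ 2 := mul_le_mul_of_nonneg_left h3 hL0
      have h5 : t * (dist x (c s) ^ 2 + (L - t) * L) ≤ t * dist x (c u) ^ 2 := by nlinarith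
      exact le_of_mul_le_mul_left h5 ht0
    by_contra hcon
    push Not at hcon
    set ε : ℝ := dist x (c s) ^ 2 + L ^ 2 - dist x (c u) ^ 2 with hε
    have hε0 : 0 < ε := by linarith
    set t : ℝ := min L (ε / (2 * L)) with ht
    have ht0 : 0 < t := lt_min h0 (by positivity)
    have h1 := key t ht0 (min_le_left _ _)
    have h2 : t * L ≤ ε / 2 := by
      have h3 : t ≤ ε / (2 * L) := min_le_right _ _
      have h4 := mul_le_mul_of_nonneg_right h3 hL0
      have h5 : ε / (2 * L) * L = ε / 2 := by field_simp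
      linarith
    nlinarith

/-- the projection to a line does not increase distances -/
lemma pj_lip (hX : CN X) [ProperSpace X] {c : ℝ → X} (hc : Isometry c) {x y : X} {s t : ℝ}
    (hs : Pj c x s) (ht : Pj c y t) : |s - t| ≤ dist x y := by
  have h1 := pj_sq hX hc hs t
  have h2 := pj_sq hX hc ht s
  have h3 := four hX x y (c t) (c s)
  rw [hc.dist_eq t s, Real.dist_eq, sq_abs, dist_comm (c s) x] at h3
  have h4 : (s - t) ^ 2 ≤ dist x y ^ 2 := by nlinarith
  rw [← sq_abs (s - t)] at h4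
  exact (sq_le_sq₀ (abs_nonneg _) dist_nonneg).1 h4

lemma qc_bound' (hG : Geo X K) {k : K} {τ R D : ℝ} {c : ℝ → X} (hk : Axis k τ c)
    (hP : Pass c τ R D) {A : Subgroup K} (hA : ∀ o : X, QCat A o) (hno : ∀ l : ℕ, 0 < l → k ^ l ∉ A)
    (o : X) : ∃ S : ℝ, 0 ≤ S ∧ ∀ s ∈ A, ∀ t, Pj c (s • o) t → |t| ≤ S := by
  have := hG.isom
  have := hG.proper
  obtain ⟨S, hS0, hS⟩ := qc_bound hG hk hP (hA _) hno
  refine ⟨S + dist (c 0) o, by positivity, fun s hs t ht => ?_⟩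
  obtain ⟨t', ht'⟩ := exists_pj hP.1 (s • c 0)
  have h1 := hS s hs t' ht'
  have h2 := pj_lip hG.cn hP.1 ht ht'
  rw [dist_smul, dist_comm] at h2
  have h3 := abs_sub_abs_le_abs_sub t t'
  linarith

lemma pj_iso (s : K) [IsIsometricSMul K X] {c : ℝ → X} {x : X} {t : ℝ} :
    Pj (fun u => s • c u) x t ↔ Pj c (s⁻¹ • x) t := by
  unfold Pj
  have : ∀ u, dist x (s • c u) = dist (s⁻¹ • x) (c u) := by
    intro u
    rw [← dist_smul s (s⁻¹ • x), smul_inv_smul]
  simp only [this]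

lemma Pass.smul [IsIsometricSMul K X] {c : ℝ → X} {τ R D : ℝ} (h : Pass c τ R D) (s : K) :
    Pass (fun u => s • c u) τ R D := by
  obtain ⟨h1, h2, h3, h4, h5⟩ := h
  refine ⟨(isometry_smul X s).comp h1, h2, h3, h4, fun x y a b i hx hy ha hb => ?_⟩
  rw [pj_iso] at hx hy
  obtain ⟨m, h6, h7⟩ := h5 _ _ a b i hx hy ha hb
  refine ⟨s • m, ?_, ?_⟩
  · rw [← dist_smul s (s⁻¹ • x), ← dist_smul s m, ← dist_smul s (s⁻¹ • x), smul_inv_smul,
      smul_inv_smul] at h6
    exact h6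
  · show dist (s • c (i * τ)) (s • m) ≤ R
    rw [dist_smul]; exact h7

lemma axis_conj [IsIsometricSMul K X] {k : K} {τ : ℝ} {c : ℝ → X} (hk : Axis k τ c) (s : K) :
    Axis (s * k * s⁻¹) τ (fun u => s • c u) := by
  refine ⟨(isometry_smul X s).comp hk.1, fun t => ?_⟩
  show (s * k * s⁻¹) • s • c t = s • c (t + τ)
  rw [← hk.2, smul_smul, smul_smul]
  congr 1; group

/-- independent axes -/
lemma indep_bound (hG : Geo X K) {k k₂ : K} {τ R D : ℝ} {c c₂ : ℝ → X} (hk : Axis k τ c)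
    (hP : Pass c τ R D) (hk₂ : Axis k₂ τ c₂) (hP₂ : Pass c₂ τ R D)
    (hno : ∀ l : ℕ, 0 < l → k ^ l ∉ Subgroup.zpowers k₂)
    (hno₂ : ∀ l : ℕ, 0 < l → k₂ ^ l ∉ Subgroup.zpowers k) (φ : X → ℝ)
    (hL : ∀ x y, |φ x - φ y| ≤ dist x y)
    (hC : ∀ x y m, dist x m + dist m y = dist x y → dist x y * φ m ≤ dist m y * φ x +
      dist x m * φ y) {r₁ r₂ : ℝ} (h1 : ∀ t, φ (c t) = r₁) (h2 : ∀ t, φ (c₂ t) = r₂) :
    r₂ ≤ r₁ + 3 * R := by
  have := hG.isom
  have := hG.proper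
  have hX := hG.cn
  obtain ⟨S, hS0, hS⟩ := qc_bound' hG hk hP (A := Subgroup.zpowers k₂)
    (fun o => (qc_zpowers hX hP.2.1 hk₂).change hX o) hno (c₂ 0)
  obtain ⟨S', hS0', hS'⟩ := qc_bound' hG hk₂ hP₂ (A := Subgroup.zpowers k)
    (fun o => (qc_zpowers hX hP.2.1 hk).change hX o) hno₂ (c 0)
  obtain ⟨hc, hτ, hR, hD, hpass⟩ := hP
  obtain ⟨hc₂, -, -, -, hpass₂⟩ := hP₂
  obtain ⟨i₁, hi₁⟩ : ∃ i : ℕ, S + S' + D ≤ i * τ := by
    refine ⟨⌈(S + S' + D) / τ⌉₊, ?_⟩
    have := Nat.le_ceil ((S + S' + D) / τ)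
    rwa [div_le_iff₀ hτ] at this
  set w : X := c (((-(i₁ : ℤ) : ℤ) : ℝ) * τ) with hw
  set w₂ : X := c₂ (((i₁ : ℤ) : ℝ) * τ) with hw₂
  obtain ⟨n, hn⟩ : ∃ n : ℕ, i₁ * τ + D + 3 * (dist w w₂ + 2 * R) + dist (c 0) w +
      dist (c₂ 0) w₂ + dist (c₂ 0) w + R + 1 ≤ n * τ := by
    refine ⟨⌈(i₁ * τ + D + 3 * (dist w w₂ + 2 * R) + dist (c 0) w +
      dist (c₂ 0) w₂ + dist (c₂ 0) w + R + 1) / τ⌉₊, ?_⟩
    have := Nat.le_ceil ((i₁ * τ + D + 3 * (dist w w₂ + 2 * R) + dist (c 0) w +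
      dist (c₂ 0) w₂ + dist (c₂ 0) w + R + 1) / τ)
    rwa [div_le_iff₀ hτ] at this
  set x : X := c (((-(n : ℤ) : ℤ) : ℝ) * τ) with hx
  set y : X := c₂ (((n : ℤ) : ℝ) * τ) with hy
  have hxk : x = k ^ (-(n : ℤ)) • c 0 := by rw [axis_zpow hk, zero_add]
  have hyk : y = k₂ ^ (n : ℤ) • c₂ 0 := by rw [axis_zpow hk₂, zero_add]
  obtain ⟨t, ht⟩ := exists_pj hc y
  obtain ⟨t', ht'⟩ := exists_pj hc₂ x
  have b1 : |t| ≤ S := by
    rw [hyk] at ht
    exact hS _ (Subgroup.mem_zpowers_iff.2 ⟨_, rfl⟩) t ht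
  have b2 : |t'| ≤ S' := by
    rw [hxk] at ht'
    exact hS' _ (Subgroup.mem_zpowers_iff.2 ⟨_, rfl⟩) t' ht'
  rw [abs_le] at b1 b2
  have d0 := dist_nonneg (x := w) (y := w₂)
  have d1 := dist_nonneg (x := c 0) (y := w)
  have d2 := dist_nonneg (x := c₂ 0) (y := w₂)
  have d3 := dist_nonneg (x := c₂ 0) (y := w)
  obtain ⟨m₁, hm₁, hm₁'⟩ := hpass x y (((-(n : ℤ) : ℤ) : ℝ) * τ) t (-(i₁ : ℤ)) (pj_self _) ht
    (by push_cast; linarith) (by push_cast; linarith)
  obtain ⟨m₂, hm₂, hm₂'⟩ := hpass₂ x y t' (((n : ℤ) : ℝ) * τ) (i₁ : ℤ) ht' (pj_self _)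
    (by push_cast; linarith) (by push_cast; linarith)
  rw [← hw] at hm₁'
  rw [← hw₂] at hm₂'
  -- the values
  have v1 : φ m₁ ≤ r₁ + R := by
    have := hL m₁ w
    rw [abs_le, dist_comm] at this
    have h3 := h1 (((-(i₁ : ℤ) : ℤ) : ℝ) * τ)
    rw [← hw] at h3
    linarith
  have v2 : r₂ - R ≤ φ m₂ := by
    have := hL m₂ w₂
    rw [abs_le, dist_comm] at this
    have h3 := h2 (((i₁ : ℤ) : ℝ) * τ)
    rw [← hw₂] at h3
    linarith
  have v3 : φ x = r₁ := h1 _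
  have v4 : φ y = r₂ := h2 _
  have hW : dist m₁ m₂ ≤ dist w w₂ + 2 * R := by
    have e1 := dist_triangle m₁ w m₂
    have e2 := dist_triangle w w₂ m₂
    rw [dist_comm m₁ w] at e1
    linarith
  have o1 : On x y (dist x m₁) m₁ := ⟨rfl, by linarith⟩
  have o2 : On x y (dist x m₂) m₂ := ⟨rfl, by linarith⟩
  set W := dist m₁ m₂ with hWd
  have hW0 : 0 ≤ W := dist_nonneg
  rcases le_total (dist x m₁) (dist x m₂) with hle | hle
  · -- the order `x, m₁, m₂, y`
    have h3 := on_dist hX dist_nonneg hle o1 o2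
    have h4 := hC m₁ y m₂ (by linarith)
    have hLy : 3 * W + 1 ≤ dist m₁ y := by
      have e1 := dist_triangle (c₂ 0) w y
      have e2 := dist_triangle w m₁ y
      have e3 : dist (c₂ 0) y = n * τ := by
        rw [hy, hc₂.dist_eq, Real.dist_eq, zero_sub, abs_neg]
        push_cast
        exact abs_of_nonneg (by positivity)
      have e4 : (0 : ℝ) ≤ i₁ * τ := by positivity
      linarith
    set L := dist m₁ y with hLd
    have h5 : dist m₂ y = L - W := by linarith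
    rw [h5, v4] at h4
    have h6 : L * (r₂ - R) ≤ L * φ m₂ := mul_le_mul_of_nonneg_left v2 (by linarith)
    have h7 : (L - W) * φ m₁ ≤ (L - W) * (r₁ + R) := mul_le_mul_of_nonneg_left v1 (by linarith)
    have h8 : (L - W) * r₂ ≤ (L - W) * (r₁ + R) + L * R := by
      have : dist m₁ m₂ = W := rfl
      nlinarith
    have h9 : L * R ≤ (L - W) * (2 * R) := by nlinarith
    have h10 : (L - W) * r₂ ≤ (L - W) * (r₁ + 3 * R) := by nlinarith
    exact le_of_mul_le_mul_left h10 (by linarith)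
  · -- the order `x, m₂, m₁, y`
    have h3 := on_dist hX dist_nonneg hle o2 o1
    rw [dist_comm m₂ m₁] at h3
    have h4 := hC x m₁ m₂ (by rw [dist_comm m₂ m₁]; linarith)
    have hLy : 3 * W + 1 ≤ dist x m₁ := by
      have e1 := dist_triangle (c 0) w x
      have e2 := dist_triangle w m₁ x
      have e3 : dist (c 0) x = n * τ := by
        rw [hx, hc.dist_eq, Real.dist_eq, zero_sub, abs_neg]
        push_cast
        rw [neg_mul, abs_neg]
        exact abs_of_nonneg (by positivity)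
      have e4 : (0 : ℝ) ≤ i₁ * τ := by positivity
      rw [dist_comm m₁ x] at e2
      linarith
    set L := dist x m₁ with hLd
    have h5 : dist x m₂ = L - W := by linarith
    rw [h5, v3, dist_comm m₂ m₁] at h4
    have h6 : L * (r₂ - R) ≤ L * φ m₂ := mul_le_mul_of_nonneg_left v2 (by linarith)
    have h7 : (L - W) * φ m₁ ≤ (L - W) * (r₁ + R) := mul_le_mul_of_nonneg_left v1 (by linarith)
    have h8 : L * r₂ ≤ L * (r₁ + 3 * R) := by
      have : dist m₁ m₂ = W := rfl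
      nlinarith
    exact le_of_mul_le_mul_left h8 (by linarith)

/-- commensurable axes -/
lemma comm_bound (hG : Geo X K) {k : K} {τ : ℝ} {c : ℝ → X} (hτ : 0 < τ) (hk : Axis k τ c)
    (hHP : HP c = ∅) : ∃ W : ℝ, ∀ (k₂ : K) (c₂ : ℝ → X) (l m : ℕ), Axis k₂ τ c₂ → 0 < l → 0 < m →
      k₂ ^ l = k ^ m → ∃ t t', dist (c t) (c₂ t') ≤ W := by
  have := hG.isom
  have := hG.proper
  have hX := hG.cn
  have hlim : ∃ n : ℕ, ∀ σ : ℝ → X, Isometry σ → Par c σ → DD c σ < n := by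
    by_contra hcon
    push Not at hcon
    have h := Pool.Agent.Y954.EL.hlim X hX c hk.1 hcon
    rw [hHP] at h
    exact Set.not_nonempty_empty h
  obtain ⟨n, hn⟩ := hlim
  refine ⟨n, fun k₂ c₂ l m hk₂ hl hm h => ?_⟩
  have hax := Pool.Agent.R632.CZ.Axis.nat hk
  have hax₂ := Pool.Agent.R632.CZ.Axis.nat hk₂
  have hpow : ∀ j : ℕ, dist (c ((m * j : ℕ) * τ)) (c₂ ((l * j : ℕ) * τ)) = dist (c 0) (c₂ 0) := by
    intro j
    have e1 := hax (m * j) 0
    have e2 := hax₂ (l * j) 0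
    rw [zero_add] at e1 e2
    rw [← e1, ← e2, pow_mul, pow_mul, h, dist_smul]
  have hlm : l = m := by
    by_contra hne
    have key : ∀ j : ℕ, |((m : ℝ) - l)| * τ * j ≤ 2 * dist (c 0) (c₂ 0) := by
      intro j
      have h1 := hpow j
      have e1 : dist (c 0) (c ((m * j : ℕ) * τ)) = (m * j : ℕ) * τ := by
        rw [hk.1.dist_eq, Real.dist_eq, zero_sub, abs_neg, abs_of_nonneg (by positivity)]
      have e2 : dist (c₂ 0) (c₂ ((l * j : ℕ) * τ)) = (l * j : ℕ) * τ := by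
        rw [hk₂.1.dist_eq, Real.dist_eq, zero_sub, abs_neg, abs_of_nonneg (by positivity)]
      have t1 := dist_triangle4 (c 0) (c₂ 0) (c₂ ((l * j : ℕ) * τ)) (c ((m * j : ℕ) * τ))
      have t2 := dist_triangle4 (c₂ 0) (c 0) (c ((m * j : ℕ) * τ)) (c₂ ((l * j : ℕ) * τ))
      rw [dist_comm (c₂ ((l * j : ℕ) * τ)) (c ((m * j : ℕ) * τ)), h1, e1, e2] at t1
      rw [h1, e1, e2, dist_comm (c₂ 0) (c 0)] at t2
      push_cast at t1 t2
      have h2 : |((m : ℝ) - l)| * τ * j = |((m : ℝ) - l) * (τ * j)| := by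
        rw [abs_mul, abs_of_nonneg (show (0 : ℝ) ≤ τ * j by positivity)]; ring
      rw [h2, abs_le]
      constructor <;> nlinarith
    have hpos : 0 < |((m : ℝ) - l)| * τ := by
      refine mul_pos (abs_pos.2 (sub_ne_zero.2 ?_)) hτ
      intro h'
      have h'' : m = l := by exact_mod_cast h'
      exact hne h''.symm
    obtain ⟨j, hj⟩ := exists_nat_gt (2 * dist (c 0) (c₂ 0) / (|((m : ℝ) - l)| * τ))
    rw [div_lt_iff₀ hpos] at hj
    have := key j
    linarith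
  subst hlm
  have ha : Axis (k ^ l) (l * τ) c := ⟨hk.1, fun t => hax l t⟩
  have ha₂ : Axis (k ^ l) (l * τ) c₂ := ⟨hk₂.1, fun t => by rw [← h]; exact hax₂ l t⟩
  have hpar := Pool.Agent.R632.CZ.Axis.par (mul_pos (by exact_mod_cast hl) hτ) ha ha₂
  have hlt := hn c₂ hk₂.1 hpar
  obtain ⟨h0, o, ho⟩ := (Pool.Agent.R632.CZ.dd X hX).1 c c₂ hk.1 hk₂.1 hpar
  refine ⟨0, o, ?_⟩
  have h1 := ho 0 o
  rw [show o - 0 - o = 0 by ring, zero_pow two_ne_zero, add_zero] at h1
  rw [(sq_eq_sq₀ dist_nonneg h0).1 h1]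
  exact hlt.le

/-- a convex function which is constant on the translates of a rank one axis is bounded -/
theorem full_bound (hG : Geo X K) {k : K} {τ : ℝ} {c : ℝ → X} (hτ : 0 < τ) (hk : Axis k τ c)
    (hHP : HP c = ∅) (φ : X → ℝ) (hL : ∀ x y, |φ x - φ y| ≤ dist x y)
    (hC : ∀ x y m, dist x m + dist m y = dist x y → dist x y * φ m ≤ dist m y * φ x +
      dist x m * φ y) (hF : ∀ (s : K) (t : ℝ), φ (s • c t) = φ (s • c 0)) :
    ∃ C : ℝ, ∀ x, φ x ≤ C := by
  have := hG.isom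
  have := hG.proper
  have hX := hG.cn
  obtain ⟨R, D, hP⟩ := pass_of_axis hX hτ hk hHP
  obtain ⟨W, hW⟩ := comm_bound hG hτ hk hHP
  have hR := hP.2.2.1
  have hb : ∀ s : K, φ (s • c 0) ≤ φ (c 0) + (3 * R + |W|) := by
    intro s
    have h1 : ∀ t, φ (c t) = φ (c 0) := by
      intro t
      have := hF 1 t
      rwa [one_smul, one_smul] at this
    set k₂ : K := s * k * s⁻¹ with hk₂
    have ha₂ : Axis k₂ τ (fun u => s • c u) := axis_conj hk s
    by_cases hrel : ∃ l : ℕ, 0 < l ∧ k₂ ^ l ∈ Subgroup.zpowers k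
    · obtain ⟨l, hl, hl'⟩ := hrel
      obtain ⟨m, hm⟩ := Subgroup.mem_zpowers_iff.1 hl'
      have hm0 : m ≠ 0 := by
        rintro rfl
        rw [zpow_zero] at hm
        have := axis_pow_ne hτ ha₂ (i := (l : ℤ)) (by exact_mod_cast hl.ne')
        rw [zpow_natCast] at this
        exact this hm.symm
      have hnear : ∃ t t', dist (c t) (s • c t') ≤ W := by
        obtain ⟨n, hn | hn⟩ := m.eq_nat_or_neg
        · refine hW k₂ _ l n ha₂ hl (Nat.pos_of_ne_zero ?_) ?_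
          · rintro rfl; exact hm0 (by simpa using hn)
          · rw [← hm, hn, zpow_natCast]
        · obtain ⟨t, t', h⟩ := hW k₂⁻¹ _ l n (axis_neg ha₂) hl (Nat.pos_of_ne_zero (by
            rintro rfl; exact hm0 (by simpa using hn))) (by
            rw [inv_pow, ← hm, hn, zpow_neg, zpow_natCast, inv_inv])
          exact ⟨t, -t', h⟩
      obtain ⟨t, t', h⟩ := hnear
      have h3 := hL (s • c t') (c t)
      rw [hF s t', h1 t, dist_comm, abs_le] at h3
      have := le_abs_self W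
      linarith
    · push Not at hrel
      have hrel' : ∀ l : ℕ, 0 < l → k ^ l ∉ Subgroup.zpowers k₂ := by
        intro l hl hl'
        obtain ⟨m, hm⟩ := Subgroup.mem_zpowers_iff.1 hl'
        have hm0 : m ≠ 0 := by
          rintro rfl
          rw [zpow_zero] at hm
          have := axis_pow_ne hτ hk (i := (l : ℤ)) (by exact_mod_cast hl.ne')
          rw [zpow_natCast] at this
          exact this hm.symm
        obtain ⟨n, hn | hn⟩ := m.eq_nat_or_neg
        · refine hrel n (Nat.pos_of_ne_zero (by rintro rfl; exact hm0 (by simpa using hn)))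
            (Subgroup.mem_zpowers_iff.2 ⟨l, ?_⟩)
          rw [zpow_natCast, ← hm, hn, zpow_natCast]
        · refine hrel n (Nat.pos_of_ne_zero (by rintro rfl; exact hm0 (by simpa using hn)))
            (Subgroup.mem_zpowers_iff.2 ⟨-l, ?_⟩)
          rw [zpow_neg, zpow_natCast, ← hm, hn, zpow_neg, zpow_natCast, inv_inv]
      have h3 := indep_bound hG hk hP ha₂ (hP.smul s) hrel' hrel φ hL hC h1
        (r₂ := φ (s • c 0)) (fun t => hF s t)
      have := abs_nonneg W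
      linarith
  obtain ⟨Kc, hK, hcov⟩ := hG.cc
  obtain ⟨D', hD'⟩ := hK.isBounded.subset_closedBall (c 0)
  refine ⟨φ (c 0) + (3 * R + |W|) + D', fun x => ?_⟩
  obtain ⟨g, hg⟩ := hcov x
  have h1 : dist (g • x) (c 0) ≤ D' := mem_closedBall.1 (hD' hg)
  have h2 := hL x (g⁻¹ • c 0)
  rw [← dist_smul g, smul_inv_smul, abs_le] at h2
  have h3 := hb g⁻¹
  linarith

end Pool.Agent.T6.H46.RC
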