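import Pool.Agent.T6.H46.RR.Tree

/-!
# Positions of edges in a tree
-/

set_option autoImplicit false

open Pool.Agent.T6.H67.TA Pool.Agent.T6.H46.RR

namespace Pool.Agent.T6.H46.RC

variable {V : Type} {T : SimpleGraph V} (hT : T.IsTree)

include hT in
/-- geodesics which cross an edge -/
lemma sep_edge {a b w u : V} (hab : D T a b = 1) (h1 : D T w b = D T w a + 1)
    (h2 : D T a u = D T b u + 1) : D T w u = D T w a + 1 + D T b u := by
  have h3 := P_min hT a w b u
  have h4 := P_nonneg hT a w u
  have e1 : P T a u b = 2 := by unfold P; rw [D_comm u b]; omega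
  have e2 : P T a w b = 0 := by unfold P; rw [D_comm a w]; omega
  rw [e1, e2] at h3
  have h5 : P T a w u = 0 := by
    rcases min_le_iff.1 h3 with h | h
    · omega
    · omega
  unfold P at h5
  rw [D_comm a w] at h5
  omega

include hT in
lemma edge_cases {a b a' b' : V} (h : T.Adj a b) (h' : T.Adj a' b') :
    (a' = a ∧ b' = b) ∨ (a' = b ∧ b' = a) ∨ D T a b' = D T b a' + 2 ∨ D T b a' = D T a b' + 2 ∨
      D T a a' = D T b b' + 2 ∨ D T b b' = D T a a' + 2 := by
  have e1 := adj_pm hT h a'
  have e2 := adj_pm hT h b'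
  have e3 := adj_pm hT h' a
  have e4 := adj_pm hT h' b
  rw [D_comm b' a, D_comm a' a] at e3
  rw [D_comm b' b, D_comm a' b] at e4
  have hab := adj_D h
  have hab' := adj_D h'
  have n1 := D_nonneg (T := T) a a'
  have n2 := D_nonneg (T := T) a b'
  have n3 := D_nonneg (T := T) b a'
  have n4 := D_nonneg (T := T) b b'
  have m1 := P_min hT a b' b a'
  have m2 := P_min hT a a' b b'
  unfold P at m1 m2
  rw [D_comm b' a', D_comm a' b, D_comm b' b] at m1
  rw [D_comm a' b, D_comm b' b] at m2
  rcases e1 with e1 | e1 <;> rcases e2 with e2 | e2 <;> rcases e3 with e3 | e3 <;>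
    rcases e4 with e4 | e4 <;> first
    | omega
    | (left
       have z1 : D T a a' = 0 := by
         rcases min_le_iff.1 m2 with h | h <;> omega
       have z2 : D T b b' = 0 := by omega
       exact ⟨(D_eq_zero hT z1).symm, (D_eq_zero hT z2).symm⟩)
    | (right; left
       have z1 : D T b a' = 0 := by
         rcases min_le_iff.1 m1 with h | h <;> omega
       have z2 : D T a b' = 0 := by omega
       exact ⟨(D_eq_zero hT z1).symm, (D_eq_zero hT z2).symm⟩)

variable {G : Type} [Group G] [MulAction G V]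
  (hact : ∀ (g : G) (u v : V), T.Adj u v → T.Adj (g • u) (g • v))

/-- path `a, b, …, h a, h b` -/
def Coh (T : SimpleGraph V) (a b : V) (h : G) : Prop := D T a (h • b) = D T b (h • a) + 2

/-- path `a, b, …, h b, h a` -/
def Fac (T : SimpleGraph V) (a b : V) (h : G) : Prop := D T a (h • a) = D T b (h • b) + 2

include hT hact in
lemma D_inv' (g : G) (u v : V) : D T u (g⁻¹ • v) = D T v (g • u) := by
  rw [← D_smul hT hact g u, smul_inv_smul, D_comm]

include hT hact in
lemma Coh.vals {a b : V} (hab : T.Adj a b) {h : G} (hh : Coh T a b h) :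
    D T a (h • b) = D T a (h • a) + 1 ∧ D T a (h • a) = D T b (h • a) + 1 ∧
      D T b (h • b) = D T b (h • a) + 1 ∧ D T a (h • b) = D T b (h • b) + 1 := by
  unfold Coh at hh
  have e1 := adj_pm hT hab (h • a)
  have e2 := adj_pm hT hab (h • b)
  have e3 := adj_pm hT (hact h a b hab) a
  have e4 := adj_pm hT (hact h a b hab) b
  rw [D_comm (h • b) a, D_comm (h • a) a] at e3
  rw [D_comm (h • b) b, D_comm (h • a) b] at e4
  omega

include hT hact in
lemma Fac.vals {a b : V} (hab : T.Adj a b) {h : G} (hh : Fac T a b h) :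
    D T a (h • a) = D T a (h • b) + 1 ∧ D T a (h • b) = D T b (h • b) + 1 ∧
      D T b (h • a) = D T b (h • b) + 1 ∧ D T a (h • a) = D T b (h • a) + 1 := by
  unfold Fac at hh
  have e1 := adj_pm hT hab (h • a)
  have e2 := adj_pm hT hab (h • b)
  have e3 := adj_pm hT (hact h a b hab) a
  have e4 := adj_pm hT (hact h a b hab) b
  rw [D_comm (h • b) a, D_comm (h • a) a] at e3
  rw [D_comm (h • b) b, D_comm (h • a) b] at e4
  omega

include hT hact in
lemma Fac.inv {a b : V} {h : G} (hh : Fac T a b h) : Fac T a b h⁻¹ := by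
  unfold Fac at hh ⊢
  rw [D_inv' hT hact, D_inv' hT hact]; exact hh

include hT hact in
lemma coh_inv {a b : V} {h : G} : Coh T a b h⁻¹ ↔ Coh T b a h := by
  unfold Coh
  rw [D_inv' hT hact, D_inv' hT hact]

include hT hact in
/-- facing after back to back is coherent -/
lemma fac_mul {a b : V} (hab : T.Adj a b) {p q : G} (hp : Fac T a b p) (hq : Fac T b a q) :
    Coh T a b (p * q) := by
  obtain ⟨p1, p2, p3, p4⟩ := hp.vals hT hact hab
  obtain ⟨q1, q2, q3, q4⟩ := hq.vals hT hact hab.symm
  have hd : D T (p • b) (p • a) = 1 := by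
    rw [D_smul hT hact]; exact adj_D hab.symm
  have s : ∀ x y : V, D T (p • x) ((p * q) • y) = D T x (q • y) := by
    intro x y; rw [mul_smul, D_smul hT hact]
  have e1 := sep_edge hT (a := p • b) (b := p • a) (w := a) (u := (p * q) • b) hd p1
    (by rw [s, s]; exact q4)
  have e2 := sep_edge hT (a := p • b) (b := p • a) (w := b) (u := (p * q) • a) hd p3
    (by rw [s, s]; exact q2)
  rw [s] at e1 e2
  unfold Coh
  rw [e1, e2]
  omega

include hT hact in
/-- coherent times facing is facing -/
lemma coh_mul_fac {a b : V} (hab : T.Adj a b) {h p : G} (hh : Coh T a b h) (hp : Fac T a b p) :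
    Fac T a b (h * p) := by
  obtain ⟨p1, p2, p3, p4⟩ := hp.vals hT hact hab
  obtain ⟨h1, h2, h3, h4⟩ := hh.vals hT hact hab
  have hd : D T (h • a) (h • b) = 1 := by
    rw [D_smul hT hact]; exact adj_D hab
  have s : ∀ x y : V, D T (h • x) ((h * p) • y) = D T x (p • y) := by
    intro x y; rw [mul_smul, D_smul hT hact]
  have e1 := sep_edge hT (a := h • a) (b := h • b) (w := a) (u := (h * p) • a) hd h1
    (by rw [s, s]; exact p4)
  have e2 := sep_edge hT (a := h • a) (b := h • b) (w := b) (u := (h * p) • b) hd h3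
    (by rw [s, s]; exact p2)
  rw [s] at e1 e2
  unfold Fac
  rw [e1, e2]
  omega

include hT hact in
/-- elements which fix an edge and its translate by `p q` fix the translate by `p` -/
lemma fix_mid {a b : V} (hab : T.Adj a b) {p q : G} (hp : Fac T a b p) (hq : Fac T b a q) {s : G}
    (ha : s • a = a) (hb : s • b = b) (ha' : s • (p * q) • a = (p * q) • a)
    (hb' : s • (p * q) • b = (p * q) • b) : s • p • a = p • a ∧ s • p • b = p • b := by
  obtain ⟨p1, p2, p3, p4⟩ := hp.vals hT hact hab
  obtain ⟨q1, q2, q3, q4⟩ := hq.vals hT hact hab.symm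
  have hd : D T (p • b) (p • a) = 1 := by
    rw [D_smul hT hact]; exact adj_D hab.symm
  have s' : ∀ x y : V, D T (p • x) ((p * q) • y) = D T x (q • y) := by
    intro x y; rw [mul_smul, D_smul hT hact]
  have e1 := sep_edge hT (a := p • b) (b := p • a) (w := a) (u := (p * q) • b) hd p1
    (by rw [s', s']; exact q4)
  rw [s'] at e1
  have k1 := s' a b
  have k2 := s' b b
  constructor
  · refine fix_between hT hact (a := a) (b := (p * q) • b) ?_ ha hb'
    unfold P
    rw [D_comm (p • a) a]
    omega
  · refine fix_between hT hact (a := a) (b := (p * q) • b) ?_ ha hb'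
    unfold P
    rw [D_comm (p • b) a]
    omega

include hT hact in
/-- the element `g h₂ h₁` is hyperbolic, and what fixes a long segment of its axis fixes three
edges -/
lemma coh_axis {a b : V} (hab : T.Adj a b) {h₁ h₂ g : G} (hh₁ : Coh T a b h₁)
    (hh₂ : Coh T a b h₂) (ga : g • a = a) (gb : g • b = b) :
    OnAxis T (g * h₂ * h₁) (h₁⁻¹ • a) ∧ ∀ s : G, s • h₁⁻¹ • a = h₁⁻¹ • a →
      s • (g * h₂ * h₁) ^ 2 • h₁⁻¹ • a = (g * h₂ * h₁) ^ 2 • h₁⁻¹ • a →
      (s • a = a ∧ s • b = b) ∧ (s • h₁⁻¹ • b = h₁⁻¹ • b) ∧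
      s • (g * h₂) • a = (g * h₂) • a ∧ s • (g * h₂) • b = (g * h₂) • b := by
  set F := g * h₂ * h₁ with hF
  set w := h₁⁻¹ • a with hw
  set w' := h₁⁻¹ • b with hw'
  set u := (g * h₂) • a with hu
  set u' := (g * h₂) • b with hu'
  have hFw : F • w = u := by rw [hF, hw, mul_smul, smul_inv_smul]
  have hFw' : F • w' = u' := by rw [hF, hw', mul_smul, smul_inv_smul]
  have hww : T.Adj w w' := hact h₁⁻¹ a b hab
  have dab := adj_D hab
  have dww := adj_D hww
  -- translate of the first condition
  have t1 : D T w b = D T a (h₁ • b) := by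
    rw [hw, ← D_smul hT hact h₁, smul_inv_smul]
  have t2 : D T w' a = D T b (h₁ • a) := by
    rw [hw', ← D_smul hT hact h₁, smul_inv_smul]
  have c1 : D T w b = D T w' a + 2 := by rw [t1, t2]; exact hh₁
  have a1 := adj_pm hT hab w
  have a2 := adj_pm hT hab w'
  have a3 := adj_pm hT hww a
  have a4 := adj_pm hT hww b
  rw [D_comm b w, D_comm a w] at a1
  rw [D_comm b w', D_comm a w'] at a2
  -- second condition
  have gx : ∀ x y : V, g • x = x → D T x ((g * h₂) • y) = D T x (h₂ • y) := by
    intro x y hx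
    have := D_smul hT hact g x (h₂ • y)
    rw [hx] at this
    rw [mul_smul, this]
  have c2 : D T a u' = D T b u + 2 := by
    rw [hu, hu', gx a b ga, gx b a gb]; exact hh₂
  have huu : T.Adj u u' := hact _ a b hab
  have b1 := adj_pm hT hab u
  have b2 := adj_pm hT hab u'
  have b3 := adj_pm hT huu a
  have b4 := adj_pm hT huu b
  rw [D_comm u' a, D_comm u a] at b3
  rw [D_comm u' b, D_comm u b] at b4
  have duu := adj_D huu
  have s1 := sep_edge hT (w := w) (u := u) dab (by omega) (by omega)
  have s2 := sep_edge hT (w := w) (u := u') dab (by omega) (by omega)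
  have s3 := sep_edge hT (w := w') (u := u) dab (by omega) (by omega)
  -- the second translate
  have f1 : D T u (F • u) = D T w u := by rw [← hFw, D_smul hT hact]
  have f2 : D T u' (F • u) = D T w' u := by rw [← hFw', ← hFw, D_smul hT hact, hFw]
  have s4 := sep_edge hT (a := u) (b := u') (w := w) (u := F • u) duu (by omega) (by omega)
  have hdd : D T w (F • u) = 2 * D T w u := by omega
  have hF2 : F ^ 2 • w = F • u := by rw [pow_two, mul_smul, hFw]
  refine ⟨⟨?_, ?_⟩, fun s hs1 hs2 => ?_⟩
  · rw [hFw]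
    have := D_nonneg (T := T) w a
    have := D_nonneg (T := T) b u
    omega
  · unfold P
    have k1 : D T w (F⁻¹ • w) = D T w (F • w) := D_inv hT hact F w
    have k2 : D T (F • w) (F⁻¹ • w) = D T w (F • F • w) := by
      rw [D_inv' hT hact F (F • w) w]
    rw [k1, k2, hFw]
    omega
  · rw [hF2] at hs2
    have t3 := D_tri hT a u (F • u)
    have t4 := D_tri hT w a (F • u)
    have t5 := D_tri hT b u (F • u)
    have t6 := D_tri hT w b (F • u)
    have t7 := D_tri hT w' u (F • u)
    have t8 := D_tri hT w w' (F • u)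
    have hfix : ∀ z : V, D T w z + D T z (F • u) = D T w (F • u) → s • z = z := by
      intro z hz
      refine fix_between hT hact (a := w) (b := F • u) ?_ hs1 hs2
      unfold P
      rw [D_comm z w]; omega
    refine ⟨⟨hfix a (by omega), hfix b (by omega)⟩, hfix w' (by omega), hfix u (by omega),
      hfix u' (by omega)⟩

end Pool.Agent.T6.H46.RC
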