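import Pool.Agent.T6.H46.RC.Cc
import Pool.Agent.T6.H46.RC.Tr

/-!
# Edge stabilisers which are convex cocompact and contain rank one isometries are commensurated,
# or the group contains a rank one isometry
-/

set_option autoImplicit false

open Metric Set Filter Topology
open Pool.Agent.TH60.FP Pool.Agent.TH60.FP.Strip Pool.Agent.Y34.HB Pool.Agent.Y34.EL
open Pool.Agent.T6.H46.RR Pool.Agent.T6.H67.TA

namespace Pool.Agent.T6.H46.RC

variable {X : Type} [MetricSpace X] {G : Type} [Group G] [MulAction G X]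

/-- a periodic convex function is constant -/
lemma periodic_const {f : ℝ → ℝ} {P : ℝ} (hP : 0 < P) (hper : ∀ t, f (t + P) = f t)
    (hconv : ∀ a b t, a ≤ t → t ≤ b → (b - a) * f t ≤ (b - t) * f a + (t - a) * f b) (t : ℝ) :
    f t = f 0 := by
  have hn : ∀ (n : ℕ) (t : ℝ), f (t + n * P) = f t := by
    intro n
    induction n with
    | zero => intro t; simp
    | succ n ih =>
      intro t
      have : t + ((n + 1 : ℕ) : ℝ) * P = (t + n * P) + P := by push_cast; ring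
      rw [this, hper, ih]
  have key : ∀ u v : ℝ, f u ≤ f v := by
    intro u v
    obtain ⟨n, hn'⟩ := exists_nat_gt (|u - v| / P)
    rw [div_lt_iff₀ hP] at hn'
    have h1 := abs_lt.1 (lt_of_le_of_lt (le_refl |u - v|) hn')
    have h2 := hconv (v - n * P) (v + n * P) u (by linarith) (by linarith)
    have h3 := hn n v
    have h4 := hn n (v - n * P)
    rw [sub_add_cancel] at h4
    rw [h3, ← h4] at h2
    have h5 : 0 < v + n * P - (v - n * P) := by
      have := abs_nonneg (u - v); linarith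
    have h6 : (v + n * P - u) * f v + (u - (v - n * P)) * f v =
        (v + n * P - (v - n * P)) * f v := by ring
    rw [h6] at h2
    exact le_of_mul_le_mul_left h2 h5
  exact le_antisymm (key _ _) (key _ _)

/-- `B` is in a neighbourhood of `h B` -/
def Bd (B : Set X) (h : G) : Prop := ∃ r : ℝ, ∀ x ∈ B, ph B h x ≤ r

/-- if all conjugates of `k` have powers in `h K h⁻¹` then `B` is near `h B` -/
lemma full (hG : Geo X G) {K : Subgroup G} {B : Set X} (hB : CC K B) (k : K) {τ : ℝ}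
    (hτ : 0 < τ) {c : ℝ → B} (hk : @Axis B _ K _ (bact hB) k τ c) (hHP : HP c = ∅) (h : G)
    (hf : ∀ s : K, ∃ l : ℕ, 0 < l ∧ (s * k * s⁻¹) ^ l ∈ IK K h) : Bd B h := by
  have := hG.proper
  have := hG.isom
  let _ := bact hB
  have hGB := geo_sub hG hB
  have := hGB.isom
  obtain ⟨C, hC⟩ := full_bound hGB hτ hk hHP (fun x : B => ph B h (x : X))
    (fun x y => ph_lip B h x y)
    (fun x y m hm => ph_convex hG.cn hB h x y m hm) (by
      intro s t
      obtain ⟨l, hl, hl'⟩ := hf s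
      have ha := axis_conj hk s
      refine periodic_const (f := fun t => ph B h ((s • c t : B) : X)) (P := l * τ)
        (mul_pos (by exact_mod_cast hl) hτ) (fun t => ?_) (fun a b t hat htb => ?_) t
      · have h1 := axis_zpow ha (l : ℤ) t
        rw [zpow_natCast] at h1
        push_cast at h1
        show ph B h ((s • c (t + l * τ) : B) : X) = ph B h ((s • c t : B) : X)
        rw [← h1]
        exact ph_inv hB (mem_IK.1 hl') _
      · have hiso : ∀ u v : ℝ, dist ((s • c u : B) : X) ((s • c v : B) : X) = |u - v| := by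
          intro u v
          have := ha.1.dist_eq u v
          rw [Real.dist_eq] at this
          exact this
        have h2 := ph_convex hG.cn hB h ((s • c a : B) : X) ((s • c b : B) : X)
          ((s • c t : B) : X) (by
            rw [hiso, hiso, hiso, abs_of_nonpos (by linarith), abs_of_nonpos (by linarith),
              abs_of_nonpos (by linarith)]
            ring)
        rw [hiso, hiso, hiso, abs_of_nonpos (by linarith), abs_of_nonpos (by linarith),
          abs_of_nonpos (by linarith)] at h2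
        show (b - a) * ph B h ((s • c t : B) : X) ≤ (b - t) * ph B h ((s • c a : B) : X) +
          (t - a) * ph B h ((s • c b : B) : X)
        linarith)
  exact ⟨C, fun x hx => hC ⟨x, hx⟩⟩

variable {V : Type} {T : SimpleGraph V} (hT : T.IsTree) [MulAction G V]
  (hact : ∀ (g : G) (u v : V), T.Adj u v → T.Adj (g • u) (g • v))

include hT hact in
lemma step (hG : Geo X G) {K : Subgroup G} {B : Set X} (hB : CC K B) (k : K) {τ : ℝ}
    (hτ : 0 < τ) {c : ℝ → B} (hk : @Axis B _ K _ (bact hB) k τ c) (hHP : HP c = ∅)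
    {a b : V} (hab : T.Adj a b) (hK : ∀ s : G, s ∈ K ↔ s • a = a ∧ s • b = b)
    (hno : ∀ g : G, ¬ RankOne X g) {h₁ h₂ : G} (hh₁ : Coh T a b h₁) (hh₂ : Coh T a b h₂) :
    Bd B h₁⁻¹ ∨ Bd B h₂ := by
  have := hG.proper
  have := hG.isom
  let _ := bact hB
  have hGB := geo_sub hG hB
  have := hGB.isom
  have := hGB.proper
  by_cases f1 : ∀ s : K, ∃ l : ℕ, 0 < l ∧ (s * k * s⁻¹) ^ l ∈ IK K h₁⁻¹
  · exact Or.inl (full hG hB k hτ hk hHP _ f1)
  by_cases f2 : ∀ s : K, ∃ l : ℕ, 0 < l ∧ (s * k * s⁻¹) ^ l ∈ IK K h₂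
  · exact Or.inr (full hG hB k hτ hk hHP _ f2)
  exfalso
  push Not at f1 f2
  obtain ⟨s₁, hs₁⟩ := f1
  obtain ⟨s₂, hs₂⟩ := f2
  obtain ⟨R, D, hP⟩ := pass_of_axis hGB.cn hτ hk hHP
  obtain ⟨g, hg⟩ := dyn hGB (axis_conj hk s₂) (hP.smul s₂) (axis_conj hk s₁) (hP.smul s₁)
    (A₁ := IK K h₁⁻¹) (A₂ := IK K h₂) (qc_IK hG hB h₁⁻¹) (qc_IK hG hB h₂) hs₂ hs₁
  have hgK := (hK (g : G)).1 g.2
  obtain ⟨hax, hfix⟩ := coh_axis hT hact hab hh₁ hh₂ hgK.1 hgK.2
  obtain ⟨o, ho⟩ := hB.ne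
  refine hno _ (rank_one_of_finite hT hact hG o hax 2 ?_)
  refine (hg.image (fun s : K => (s : G))).subset ?_
  rintro s ⟨e1, e2⟩
  obtain ⟨⟨x1, x2⟩, x3, x4, x5⟩ := hfix s e1 e2
  have hsK : s ∈ K := (hK s).2 ⟨x1, x2⟩
  refine ⟨⟨s, hsK⟩, ⟨?_, ?_⟩, rfl⟩
  · rw [mem_IK, hK]
    show ((h₁⁻¹)⁻¹ * s * h₁⁻¹) • a = a ∧ ((h₁⁻¹)⁻¹ * s * h₁⁻¹) • b = b
    rw [inv_inv]
    constructor
    · rw [mul_smul, mul_smul, e1, smul_inv_smul]
    · rw [mul_smul, mul_smul, x3, smul_inv_smul]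
  · rw [mem_IK, hK]
    show (h₂⁻¹ * ((g : G)⁻¹ * s * g) * h₂) • a = a ∧ (h₂⁻¹ * ((g : G)⁻¹ * s * g) * h₂) • b = b
    have e : h₂⁻¹ * ((g : G)⁻¹ * s * g) * h₂ = ((g : G) * h₂)⁻¹ * s * ((g : G) * h₂) := by group
    rw [e]
    constructor
    · rw [mul_smul, mul_smul, x4, inv_smul_smul]
    · rw [mul_smul, mul_smul, x5, inv_smul_smul]

lemma Bd.of_mem [IsIsometricSMul G X] {K : Subgroup G} {B : Set X} (hB : CC K B) {g : G}
    (hg : g ∈ K) : Bd B g := by
  refine ⟨0, fun x hx => ?_⟩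
  unfold ph
  rw [infDist_inv hB (K.inv_mem hg), infDist_zero_of_mem hx]

lemma Bd.mul [ProperSpace X] [IsIsometricSMul G X] {K : Subgroup G} {B : Set X} (hB : CC K B)
    {g h : G} (hg : Bd B g) (hh : Bd B h) : Bd B (g * h) := by
  obtain ⟨r, hr⟩ := hg
  obtain ⟨r', hr'⟩ := hh
  refine ⟨r' + r, fun x hx => ?_⟩
  obtain ⟨y, hy, hy'⟩ := hB.closed.exists_infDist_eq_dist hB.ne (g⁻¹ • x)
  have h1 := infDist_le_infDist_add_dist (s := B) (x := (g * h)⁻¹ • x) (y := h⁻¹ • y)
  have h2 : dist ((g * h)⁻¹ • x) (h⁻¹ • y) = dist (g⁻¹ • x) y := by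
    rw [mul_inv_rev, mul_smul, dist_smul]
  rw [h2, ← hy'] at h1
  have h3 := hr x hx
  have h4 := hr' y hy
  unfold ph at *
  linarith

/-- transport through an intermediate conjugate -/
lemma Bd.sub (hG : Geo X G) {K : Subgroup G} {B : Set X} (hB : CC K B) {g h : G}
    (hg : Bd B g) (hsub : ∀ s ∈ K, g⁻¹ * s * g ∈ K → h⁻¹ * s * h ∈ K) : Bd B h := by
  have := hG.isom
  obtain ⟨r, hr⟩ := hg
  obtain ⟨o, ho⟩ := hB.ne
  obtain ⟨R₁, hR₁⟩ := coarse hG hB ho g r
  refine ⟨R₁ + ph B h o, fun x hx => ?_⟩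
  obtain ⟨a, ha, ha'⟩ := hR₁ x hx (hr x hx)
  have h1 := ph_lip B h x ((a : G) • o)
  rw [ph_inv hB (hsub a a.2 (mem_IK.1 ha)), abs_le] at h1
  linarith

include hT hact in
/-- if `B` is near `h B` for all coherent `h` then this is true for all `h` -/
lemma all_bd (hG : Geo X G) {K : Subgroup G} {B : Set X} (hB : CC K B) {a b : V}
    (hab : T.Adj a b) (hK : ∀ s : G, s ∈ K ↔ s • a = a ∧ s • b = b) {p q : G}
    (hp : Fac T a b p) (hq : Fac T b a q) (hcoh : ∀ h : G, Coh T a b h → Bd B h) (g : G) :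
    Bd B g := by
  have := hG.proper
  have := hG.isom
  have hfac : ∀ p' : G, Fac T a b p' → Bd B p' := by
    intro p' hp'
    refine Bd.sub hG hB (hcoh _ (fac_mul hT hact hab hp' hq)) fun s hs hs' => ?_
    rw [hK] at hs hs' ⊢
    have e1 : s • (p' * q) • a = (p' * q) • a := by
      have := hs'.1
      rwa [mul_smul, mul_smul, inv_smul_eq_iff] at this
    have e2 : s • (p' * q) • b = (p' * q) • b := by
      have := hs'.2
      rwa [mul_smul, mul_smul, inv_smul_eq_iff] at this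
    obtain ⟨e3, e4⟩ := fix_mid hT hact hab hp' hq hs.1 hs.2 e1 e2
    rw [mul_smul, mul_smul, inv_smul_eq_iff, mul_smul, mul_smul, inv_smul_eq_iff]
    exact ⟨e3, e4⟩
  have hcoh' : ∀ h : G, Coh T a b h → Bd B h⁻¹ := by
    intro h hh
    have h1 := hfac _ ((coh_mul_fac hT hact hab hh hp).inv hT hact)
    have h2 := (hfac p hp).mul hB h1
    have e : p * (h * p)⁻¹ = h⁻¹ := by group
    rwa [e] at h2
  rcases edge_cases hT hab (hact g a b hab) with h | h | h | h | h | h
  · exact Bd.of_mem hB ((hK g).2 h)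
  · -- an inversion
    obtain ⟨o, ho⟩ := hB.ne
    have h1 : Bd B (1 : G) := Bd.of_mem hB K.one_mem
    refine Bd.sub hG hB h1 fun s hs _ => ?_
    rw [hK] at hs ⊢
    rw [mul_smul, mul_smul, inv_smul_eq_iff, mul_smul, mul_smul, inv_smul_eq_iff, h.1, h.2]
    exact ⟨hs.2, hs.1⟩
  · exact hcoh g h
  · have h1 : Coh T a b g⁻¹ := (coh_inv hT hact).2 h
    have h2 := hcoh' _ h1
    rwa [inv_inv] at h2
  · exact hfac g h
  · have h1 := hcoh _ (fac_mul hT hact hab hp (q := g) h)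
    have h2 := (hfac _ (hp.inv hT hact)).mul hB h1
    rwa [inv_mul_cancel_left] at h2

include hT hact in
/-- **Main alternative.** -/
theorem rank_one_or (hG : Geo X G) {K : Subgroup G} {B : Set X} (hB : CC K B) (k : K) {τ : ℝ}
    (hτ : 0 < τ) {c : ℝ → B} (hk : @Axis B _ K _ (bact hB) k τ c) (hHP : HP c = ∅)
    {a b : V} (hab : T.Adj a b) (hK : ∀ s : G, s ∈ K ↔ s • a = a ∧ s • b = b) {p q : G}
    (hp : Fac T a b p) (hq : Fac T b a q) : (∃ g : G, RankOne X g) ∨ ∀ g : G, Bd B g := by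
  by_cases hno : ∃ g : G, RankOne X g
  · exact Or.inl hno
  right
  push Not at hno
  by_cases hr : ∀ h : G, Coh T a b h → Bd B h
  · exact all_bd hT hact hG hB hab hK hp hq hr
  · push Not at hr
    obtain ⟨h₂, hh₂, hn₂⟩ := hr
    refine all_bd hT hact hG hB hab.symm (fun s => by rw [hK]; exact and_comm) hq hp ?_
    intro h hh
    have h1 : Coh T a b h⁻¹ := (coh_inv hT hact).2 hh
    rcases step hT hact hG hB k hτ hk hHP hab hK hno h1 hh₂ with h2 | h2
    · rwa [inv_inv] at h2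
    · exact absurd h2 hn₂

end Pool.Agent.T6.H46.RC
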