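import Pool.Agent.T6.H46.RC.Dyn2
import Pool.Agent.T6.H46.RC.Key

/-!
# Independent rank one isometries
-/

set_option autoImplicit false

open Metric Set Filter Topology
open Pool.Agent.TH60.FP Pool.Agent.TH60.FP.Strip Pool.Agent.Y34.HB Pool.Agent.Y34.EL
open Pool.Agent.T6.H46.RR

namespace Pool.Agent.T6.H46.RC

variable {X : Type} [MetricSpace X] {K : Type} [Group K] [MulAction K X]

lemma mem_conj {A : Subgroup K} {x s : K} :
    s ∈ A.comap (MulAut.conj x⁻¹).toMonoidHom ↔ x⁻¹ * s * x ∈ A := by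
  rw [Subgroup.mem_comap]
  show x⁻¹ * s * x⁻¹⁻¹ ∈ A ↔ _
  rw [inv_inv]

/-- two quasi-convex subgroups which both miss the powers of some rank one isometries have a finite
intersection after a conjugation by products of powers -/
theorem dyn3 (hG : Geo X K) {k k' : K} {τ R D τ' R' D' : ℝ} {c c' : ℝ → X} (hk : Axis k τ c)
    (hP : Pass c τ R D) (hk' : Axis k' τ' c') (hP' : Pass c' τ' R' D') {A₁ A₂ : Subgroup K}
    (hA₁ : ∀ o : X, QCat A₁ o) (hA₂ : ∀ o : X, QCat A₂ o) (hno : ∀ l : ℕ, 0 < l → k ^ l ∉ A₂)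
    (hno' : ∀ l : ℕ, 0 < l → k' ^ l ∉ A₁) :
    ∃ b₀ : ℕ, ∀ b : ℕ, b₀ ≤ b → ∃ a₀ : ℕ, ∀ a : ℕ, a₀ ≤ a →
      {s : K | s ∈ A₁ ∧ (k' ^ a * k ^ b)⁻¹ * s * (k' ^ a * k ^ b) ∈ A₂}.Finite := by
  have := hG.isom
  have := hG.proper
  by_cases hrel : ∃ l : ℕ, 0 < l ∧ k' ^ l ∈ Subgroup.zpowers k
  · -- commensurable
    obtain ⟨l, hl, hl'⟩ := hrel
    obtain ⟨m, hm⟩ := Subgroup.mem_zpowers_iff.1 hl'
    have hno2 : ∀ l : ℕ, 0 < l → k' ^ l ∉ A₂ := by
      intro l' hl' h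
      have h1 : k ^ (m * l') ∈ A₂ := by
        have e : k ^ (m * l') = (k' ^ l') ^ l := by
          rw [zpow_mul, hm, zpow_natCast, ← pow_mul, ← pow_mul, mul_comm]
        rw [e]; exact A₂.pow_mem h l
      have hm0 : m ≠ 0 := by
        rintro rfl
        rw [zpow_zero] at hm
        have := axis_pow_ne hP'.2.1 hk' (i := (l : ℤ)) (by exact_mod_cast hl.ne')
        rw [zpow_natCast] at this
        exact this hm.symm
      obtain ⟨n, hn | hn⟩ := m.eq_nat_or_neg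
      · refine hno (n * l') (Nat.mul_pos (Nat.pos_of_ne_zero ?_) hl') ?_
        · rintro rfl; exact hm0 (by simpa using hn)
        · rw [hn] at h1
          exact_mod_cast h1
      · refine hno (n * l') (Nat.mul_pos (Nat.pos_of_ne_zero ?_) hl') ?_
        · rintro rfl; exact hm0 (by simpa using hn)
        · rw [hn, neg_mul, zpow_neg] at h1
          exact_mod_cast A₂.inv_mem_iff.1 h1
    refine ⟨0, fun b _ => ?_⟩
    obtain ⟨S, hS0, hS⟩ := qc_bound hG hk' hP' (A := A₂.comap (MulAut.conj (k ^ b)⁻¹).toMonoidHom)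
      (qc_conj hA₂ (k ^ b) _) (by
        intro l' hl' h
        have h2 : (k ^ b)⁻¹ * k' ^ l' * (k ^ b) ∈ A₂ := mem_conj.1 h
        refine hno2 (l' * l) (Nat.mul_pos hl' hl) ?_
        have h3 := A₂.pow_mem h2 l
        have e : ((k ^ b)⁻¹ * k' ^ l' * (k ^ b)) ^ l = k' ^ (l' * l) := by
          have e1 : ((k ^ b)⁻¹ * k' ^ l' * (k ^ b)) ^ l = (k ^ b)⁻¹ * (k' ^ l') ^ l * (k ^ b) := by
            have := conj_pow (i := l) (a := (k ^ b)⁻¹) (b := k' ^ l')
            rw [inv_inv] at this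
            exact this
          rw [e1, ← pow_mul]
          have e2 : k' ^ (l' * l) = k ^ (m * l') := by
            rw [mul_comm l' l, pow_mul, ← hm, zpow_mul, zpow_natCast]
          rw [e2, mul_assoc]
          have e3 : k ^ (m * l') * k ^ b = k ^ b * k ^ (m * l') := by
            rw [← zpow_natCast k b, ← zpow_add, ← zpow_add, add_comm]
          rw [e3, inv_mul_cancel_left]
        rwa [e] at h3)
    obtain ⟨a₀, h⟩ := dyn_aux2 hG hk' hP' (hA₁ _) hno' (k ^ b) ((k ^ b)⁻¹ • c' 0) S (A₂ := A₂)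
      fun s hs t ht => by
        refine (abs_le.1 (hS (k ^ b * s * (k ^ b)⁻¹) ?_ t ?_)).1
        · refine mem_conj.2 ?_
          have e : (k ^ b)⁻¹ * (k ^ b * s * (k ^ b)⁻¹) * k ^ b = s := by group
          rw [e]; exact hs
        · rw [mul_smul, mul_smul]; exact ht
    exact ⟨a₀, fun a ha => h a ha⟩
  · push Not at hrel
    -- independent
    obtain ⟨S, hS0, hS⟩ := qc_bound hG hk' hP' (A := Subgroup.zpowers k)
      ((qc_zpowers hG.cn hP.2.1 hk).change hG.cn _) hrel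
    obtain ⟨S₂, hS20, hS₂⟩ := qc_bound hG hk hP (hA₂ _) hno
    obtain ⟨hc, hτ, hR, hD, hpass⟩ := hP
    have hP'' := hP'
    obtain ⟨hc', hτ', hR', hD', hpass'⟩ := hP'
    obtain ⟨j₁, hj₁⟩ : ∃ j₁ : ℕ, S + D' ≤ j₁ * τ' := by
      refine ⟨⌈(S + D') / τ'⌉₊, ?_⟩
      have := Nat.le_ceil ((S + D') / τ')
      rwa [div_le_iff₀ hτ'] at this
    set w : X := c' (((-(j₁ : ℤ) : ℤ) : ℝ) * τ') with hw
    obtain ⟨i, hi⟩ : ∃ i : ℕ, dist (c 0) w + dist (c 0) (c' 0) + R + R' + D + 1 ≤ i * τ := by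
      refine ⟨⌈(dist (c 0) w + dist (c 0) (c' 0) + R + R' + D + 1) / τ⌉₊, ?_⟩
      have := Nat.le_ceil ((dist (c 0) w + dist (c 0) (c' 0) + R + R' + D + 1) / τ)
      rwa [div_le_iff₀ hτ] at this
    obtain ⟨b₀, hb₀⟩ : ∃ b : ℕ, i * τ + D + S₂ ≤ b * τ := by
      refine ⟨⌈(i * τ + D + S₂) / τ⌉₊, ?_⟩
      have := Nat.le_ceil ((i * τ + D + S₂) / τ)
      rwa [div_le_iff₀ hτ] at this
    refine ⟨b₀, fun b hbb => ?_⟩
    have hb : i * τ + D + S₂ ≤ b * τ := by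
      have h1 : (b₀ : ℝ) ≤ b := by exact_mod_cast hbb
      nlinarith
    obtain ⟨a₀, h⟩ := dyn_aux2 hG hk' hP'' (hA₁ _) hno' (k ^ b) (c 0) (j₁ * τ' + D') (A₂ := A₂)
      fun s hs t' ht' => by
        by_contra hcon
        push Not at hcon
        set z : X := k ^ b • s • c 0 with hz
        obtain ⟨t, ht⟩ := exists_pj hc z
        have ht2 : Pj c (k ^ (b : ℤ) • s • c 0) t := by rw [zpow_natCast]; exact ht
        have h1 := (abs_le.1 (hS₂ s hs _ (pj_smul hk _ ht2))).1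
        push_cast at h1
        have hd0 := dist_nonneg (x := c 0) (y := w)
        have hd1 := dist_nonneg (x := c 0) (y := c' 0)
        obtain ⟨m, hm1, hm2⟩ := hpass (c 0) z 0 t (i : ℤ) (pj_self 0) ht
          (by push_cast; linarith) (by push_cast; linarith)
        obtain ⟨t₃, ht₃⟩ := exists_pj hc' (k ^ (i : ℤ) • c' 0)
        have h2 := (abs_le.1 (hS (k ^ (i : ℤ)) (Subgroup.mem_zpowers_iff.2 ⟨_, rfl⟩) t₃ ht₃)).1
        obtain ⟨m', hm1', hm2'⟩ := hpass' z (k ^ (i : ℤ) • c' 0) t' t₃ (-(j₁ : ℤ)) ht' ht₃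
          (by push_cast; linarith) (by push_cast; linarith)
        rw [← hw] at hm2'
        have hci : c (((i : ℤ) : ℝ) * τ) = k ^ (i : ℤ) • c 0 := by rw [axis_zpow hk, zero_add]
        set q : X := c (((i : ℤ) : ℝ) * τ) with hq
        have hoq : dist (c 0) q = i * τ := by
          rw [hq, hc.dist_eq, Real.dist_eq, zero_sub, abs_neg]
          push_cast
          exact abs_of_nonneg (by positivity)
        have e1 := dist_triangle (c 0) m q
        have e2 := dist_triangle q m z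
        have e3 := dist_triangle (c 0) w z
        have e4 := dist_triangle z m' w
        have e5 := dist_triangle w m' (k ^ (i : ℤ) • c' 0)
        have e6 := dist_triangle z q (k ^ (i : ℤ) • c' 0)
        have e7 := dist_triangle (c 0) w q
        have e8 := dist_triangle w (k ^ (i : ℤ) • c' 0) q
        have e9 : dist q (k ^ (i : ℤ) • c' 0) = dist (c 0) (c' 0) := by rw [hci, dist_smul]
        rw [dist_comm m q] at e1
        rw [dist_comm m' w, dist_comm z w] at e4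
        rw [dist_comm (k ^ (i : ℤ) • c' 0) q, e9] at e8
        rw [e9, dist_comm z q] at e6
        linarith
    exact ⟨a₀, h⟩

/-- commensurable axes -/
lemma comm_bound2 (hG : Geo X K) {k : K} {τ : ℝ} {c : ℝ → X} (hτ : 0 < τ) (hk : Axis k τ c)
    (hHP : HP c = ∅) : ∃ W : ℝ, ∀ (k₂ : K) (c₂ : ℝ → X) (l m : ℕ), Axis k₂ τ c₂ → 0 < l → 0 < m →
      k₂ ^ l = k ^ m → ∃ t, dist (c t) (c₂ 0) ≤ W := by
  have := hG.isom
  have := hG.proper
  have hX := hG.cn
  have hlim : ∃ n : ℕ, ∀ σ : ℝ → X, Isometry σ → Par c σ → DD c σ < n := by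
    by_contra hcon
    push Not at hcon
    have h := Pool.Agent.Y954.EL.hlim X hX c hk.1 hcon
    rw [hHP] at h
    exact Set.not_nonempty_empty h
  obtain ⟨n, hn⟩ := hlim
  refine ⟨n, fun k₂ c₂ l m hk₂ hl hm h => ?_⟩
  have hax := Pool.Agent.R632.CZ.Axis.nat hk
  have hax₂ := Pool.Agent.R632.CZ.Axis.nat hk₂
  have hpow : ∀ j : ℕ, dist (c ((m * j : ℕ) * τ)) (c₂ ((l * j : ℕ) * τ)) = dist (c 0) (c₂ 0) := by
    intro j
    have e1 := hax (m * j) 0
    have e2 := hax₂ (l * j) 0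
    rw [zero_add] at e1 e2
    rw [← e1, ← e2, pow_mul, pow_mul, h, dist_smul]
  have hlm : l = m := by
    by_contra hne
    have key : ∀ j : ℕ, |((m : ℝ) - l)| * τ * j ≤ 2 * dist (c 0) (c₂ 0) := by
      intro j
      have h1 := hpow j
      have e1 : dist (c 0) (c ((m * j : ℕ) * τ)) = (m * j : ℕ) * τ := by
        rw [hk.1.dist_eq, Real.dist_eq, zero_sub, abs_neg, abs_of_nonneg (by positivity)]
      have e2 : dist (c₂ 0) (c₂ ((l * j : ℕ) * τ)) = (l * j : ℕ) * τ := by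
        rw [hk₂.1.dist_eq, Real.dist_eq, zero_sub, abs_neg, abs_of_nonneg (by positivity)]
      have t1 := dist_triangle4 (c 0) (c₂ 0) (c₂ ((l * j : ℕ) * τ)) (c ((m * j : ℕ) * τ))
      have t2 := dist_triangle4 (c₂ 0) (c 0) (c ((m * j : ℕ) * τ)) (c₂ ((l * j : ℕ) * τ))
      rw [dist_comm (c₂ ((l * j : ℕ) * τ)) (c ((m * j : ℕ) * τ)), h1, e1, e2] at t1
      rw [h1, e1, e2, dist_comm (c₂ 0) (c 0)] at t2
      push_cast at t1 t2
      have h2 : |((m : ℝ) - l)| * τ * j = |((m : ℝ) - l) * (τ * j)| := by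
        rw [abs_mul, abs_of_nonneg (show (0 : ℝ) ≤ τ * j by positivity)]; ring
      rw [h2, abs_le]
      constructor <;> nlinarith
    have hpos : 0 < |((m : ℝ) - l)| * τ := by
      refine mul_pos (abs_pos.2 (sub_ne_zero.2 ?_)) hτ
      intro h'
      have h'' : m = l := by exact_mod_cast h'
      exact hne h''.symm
    obtain ⟨j, hj⟩ := exists_nat_gt (2 * dist (c 0) (c₂ 0) / (|((m : ℝ) - l)| * τ))
    rw [div_lt_iff₀ hpos] at hj
    have := key j
    linarith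
  subst hlm
  have ha : Axis (k ^ l) (l * τ) c := ⟨hk.1, fun t => hax l t⟩
  have ha₂ : Axis (k ^ l) (l * τ) c₂ := ⟨hk₂.1, fun t => by rw [← h]; exact hax₂ l t⟩
  have hpar := Pool.Agent.R632.CZ.Axis.par (mul_pos (by exact_mod_cast hl) hτ) ha ha₂
  have hlt := hn c₂ hk₂.1 hpar
  obtain ⟨h0, o, ho⟩ := (Pool.Agent.R632.CZ.dd X hX).1 c c₂ hk.1 hk₂.1 hpar
  refine ⟨-o, ?_⟩
  have h1 := ho (-o) 0
  rw [show (0 : ℝ) - -o - o = 0 by ring, zero_pow two_ne_zero, add_zero] at h1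
  rw [(sq_eq_sq₀ dist_nonneg h0).1 h1]
  exact hlt.le

/-- signed powers -/
lemma comm_near (hG : Geo X K) {k : K} {τ : ℝ} {c : ℝ → X} (hτ : 0 < τ) (hk : Axis k τ c)
    (hHP : HP c = ∅) : ∃ W : ℝ, ∀ (k₂ : K) (c₂ : ℝ → X) (l : ℕ), Axis k₂ τ c₂ → 0 < l →
      k₂ ^ l ∈ Subgroup.zpowers k → ∃ t, dist (c t) (c₂ 0) ≤ W := by
  have := hG.isom
  obtain ⟨W, hW⟩ := comm_bound2 hG hτ hk hHP
  refine ⟨W, fun k₂ c₂ l ha₂ hl hl' => ?_⟩
  obtain ⟨m, hm⟩ := Subgroup.mem_zpowers_iff.1 hl'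
  have hm0 : m ≠ 0 := by
    rintro rfl
    rw [zpow_zero] at hm
    have := axis_pow_ne hτ ha₂ (i := (l : ℤ)) (by exact_mod_cast hl.ne')
    rw [zpow_natCast] at this
    exact this hm.symm
  obtain ⟨n, hn | hn⟩ := m.eq_nat_or_neg
  · refine hW k₂ _ l n ha₂ hl (Nat.pos_of_ne_zero ?_) ?_
    · rintro rfl; exact hm0 (by simpa using hn)
    · rw [← hm, hn, zpow_natCast]
  · obtain ⟨t, h⟩ := hW k₂⁻¹ _ l n (axis_neg ha₂) hl (Nat.pos_of_ne_zero (by
      rintro rfl; exact hm0 (by simpa using hn))) (by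
      rw [inv_pow, ← hm, hn, zpow_neg, zpow_natCast, inv_inv])
    simp only [neg_zero] at h
    exact ⟨t, h⟩

/-- elements near the axis -/
lemma near_zpow (hG : Geo X K) {k : K} {τ : ℝ} {c : ℝ → X} (hτ : 0 < τ) (hk : Axis k τ c)
    (W : ℝ) : ∃ F : Set K, F.Finite ∧ ∀ s : K, (∃ t, dist (c t) (s • c 0) ≤ W) →
      ∃ i : ℤ, k ^ i * s ∈ F := by
  have := hG.isom
  refine ⟨_, finite_short hG (c 0) (W + τ), fun s ⟨t, ht⟩ => ⟨-⌊t / τ⌋, ?_⟩⟩
  show dist (c 0) ((k ^ (-⌊t / τ⌋) * s) • c 0) ≤ W + τ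
  have h1 : dist (k ^ (-⌊t / τ⌋) • c t) ((k ^ (-⌊t / τ⌋) * s) • c 0) ≤ W := by
    rw [mul_smul, dist_smul]; exact ht
  rw [axis_zpow hk] at h1
  have h2 : dist (c 0) (c (t + ((-⌊t / τ⌋ : ℤ) : ℝ) * τ)) ≤ τ := by
    rw [hk.1.dist_eq, Real.dist_eq, zero_sub, abs_neg]
    have e1 := Int.floor_le (t / τ)
    have e2 := Int.lt_floor_add_one (t / τ)
    rw [le_div_iff₀ hτ] at e1
    rw [div_lt_iff₀ hτ] at e2
    push_cast
    rw [abs_le]
    constructor <;> nlinarith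
  have h3 := dist_triangle (c 0) (c (t + ((-⌊t / τ⌋ : ℤ) : ℝ) * τ))
    ((k ^ (-⌊t / τ⌋) * s) • c 0)
  linarith

/-- if no power of `b` is a power of `a`, then `a` and `b a b⁻¹` are independent -/
lemma indep_conj (hG : Geo X K) {k b : K} {τ : ℝ} {c : ℝ → X} (hτ : 0 < τ) (hk : Axis k τ c)
    (hHP : HP c = ∅) (hb : ∀ l : ℕ, 0 < l → b ^ l ∉ Subgroup.zpowers k) :
    ∀ l : ℕ, 0 < l → k ^ l ∉ Subgroup.zpowers (b * k * b⁻¹) := by
  intro l hl hmem
  have := hG.isom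
  obtain ⟨m, hm⟩ := Subgroup.mem_zpowers_iff.1 hmem
  rw [conj_zpow] at hm
  have hm0 : m ≠ 0 := by
    rintro rfl
    rw [zpow_zero, mul_one, mul_inv_cancel] at hm
    have := axis_pow_ne hτ hk (i := (l : ℤ)) (by exact_mod_cast hl.ne')
    rw [zpow_natCast] at this
    exact this hm.symm
  -- all conjugates by powers of `b` are commensurable
  have hn : ∀ n : ℕ, b ^ n * k ^ (m ^ n) * (b ^ n)⁻¹ = k ^ ((l : ℤ) ^ n) := by
    intro n
    induction n with
    | zero => simp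
    | succ n ih =>
      have e1 : b ^ (n + 1) * k ^ (m ^ (n + 1)) * (b ^ (n + 1))⁻¹ =
          b * (b ^ n * k ^ (m ^ n) * (b ^ n)⁻¹) ^ m * b⁻¹ := by
        rw [conj_zpow, ← zpow_mul, ← pow_succ, pow_succ' b n]
        group
      rw [e1, ih, ← zpow_mul, mul_comm ((l : ℤ) ^ n) m, zpow_mul]
      have e2 : b * (k ^ m) ^ ((l : ℤ) ^ n) * b⁻¹ = (b * k ^ m * b⁻¹) ^ ((l : ℤ) ^ n) := by
        rw [conj_zpow]
      rw [e2, hm, ← zpow_natCast k l, ← zpow_mul, pow_succ']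
  obtain ⟨W, hW⟩ := comm_near hG hτ hk hHP
  obtain ⟨F, hF, hFs⟩ := near_zpow hG hτ hk W
  have hall : ∀ n : ℕ, ∃ i : ℤ, k ^ i * b ^ n ∈ F := by
    intro n
    refine hFs _ ?_
    have hax := axis_conj hk (b ^ n)
    have hmn : m ^ n ≠ 0 := pow_ne_zero _ hm0
    obtain ⟨t, ht⟩ := hW (b ^ n * k * (b ^ n)⁻¹) _ (m ^ n).natAbs hax
      (Int.natAbs_pos.2 hmn) (by
        have e1 : (b ^ n * k * (b ^ n)⁻¹) ^ (m ^ n) ∈ Subgroup.zpowers k := by
          rw [conj_zpow, hn]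
          exact Subgroup.mem_zpowers_iff.2 ⟨_, rfl⟩
        rw [← zpow_natCast]
        rcases Int.natAbs_eq (m ^ n) with h | h
        · rw [← h]; exact e1
        · have e2 : (((m ^ n).natAbs : ℕ) : ℤ) = -(m ^ n) := by omega
          rw [e2, zpow_neg]
          exact (Subgroup.zpowers k).inv_mem e1)
    exact ⟨t, ht⟩
  choose i hi using hall
  have hninj : ¬ Function.Injective (fun n : ℕ => k ^ i n * b ^ n) := by
    intro hinj
    have : (univ : Set ℕ).Finite :=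
      Set.Finite.of_injOn (f := fun n : ℕ => k ^ i n * b ^ n) (fun n _ => hi n)
        (hinj.injOn) hF
    exact Set.infinite_univ this
  rw [Function.Injective] at hninj
  push Not at hninj
  have key : ∀ p q : ℕ, p < q → k ^ i p * b ^ p = k ^ i q * b ^ q → False := by
    intro p q hpq he
    refine hb (q - p) (by omega) (Subgroup.mem_zpowers_iff.2 ⟨i p - i q, ?_⟩)
    have e1 : b ^ q = b ^ (q - p) * b ^ p := by rw [← pow_add]; congr 1; omega
    rw [e1, ← mul_assoc] at he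
    have e2 := mul_right_cancel he
    rw [sub_eq_add_neg, add_comm, zpow_add, zpow_neg, e2, inv_mul_cancel_left]
  obtain ⟨p, q, he, hne⟩ := hninj
  rcases lt_or_gt_of_ne hne with h | h
  · exact key p q h he
  · exact key q p h he.symm

end Pool.Agent.T6.H46.RC
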