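import Pool.Agent.Y34.EL.All
import Pool.Agent.TH60.FP.Strip

/-!
# Lines without flat half-planes: far points are seen in the directions of the line
-/

set_option autoImplicit false

open Metric Set Filter Topology
open Pool.Agent.TH60.FP Pool.Agent.TH60.FP.Strip Pool.Agent.Y34.HB Pool.Agent.Y34.EL

namespace Pool.Agent.T6.H46.RC

variable {X : Type} [MetricSpace X]

/-- `x` is seen from `c u` in the direction of `c (-∞)` -/
def NL (T : ℝ) (c : ℝ → X) (u : ℝ) (x : X) : Prop :=
  T ≤ dist (c u) x ∧ ∀ y, On (c u) x T y → dist y (c (u - T)) ≤ 1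

/-- `x` is seen from `c u` in the direction of `c ∞` -/
def NR (T : ℝ) (c : ℝ → X) (u : ℝ) (x : X) : Prop :=
  T ≤ dist (c u) x ∧ ∀ y, On (c u) x T y → dist y (c (u + T)) ≤ 1

/-- segments from the left to the right pass near the points `c (i τ)` -/
structure RP (c : ℝ → X) (τ R T : ℝ) : Prop where
  hτ : 0 < τ
  hT : 0 < T
  hR : 0 ≤ R
  pass : ∀ (i : ℤ) (p q : X), NL T c (i * τ) p → NR T c (i * τ) q →
    ∃ m, dist p m + dist m q = dist p q ∧ dist (c (i * τ)) m ≤ R

/-- `c s` is a nearest point of `x` on the line -/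
def Pj (c : ℝ → X) (x : X) (s : ℝ) : Prop := ∀ t, dist x (c s) ≤ dist x (c t)

lemma exists_pj [ProperSpace X] {c : ℝ → X} (hc : Isometry c) (x : X) : ∃ s, Pj c x s := by
  obtain ⟨y, ⟨s, rfl⟩, hy⟩ :=
    hc.isClosedEmbedding.isClosed_range.exists_infDist_eq_dist (range_nonempty c) x
  exact ⟨s, fun t => by rw [← hy]; exact infDist_le_dist_of_mem ⟨t, rfl⟩⟩

lemma ex_on (hX : CN X) [ProperSpace X] {o p : X} {t : ℝ} (h0 : 0 ≤ t) (h1 : t ≤ dist o p) :
    ∃ y, On o p t y := (t_stew X hX).1 o p t h0 h1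

lemma on_uniq (hX : CN X) [ProperSpace X] {o p y y' : X} {t : ℝ} (h : On o p t y)
    (h' : On o p t y') : y = y' := (t_stew X hX).2.1 o p t y y' h h'

lemma on_line_left {c : ℝ → X} (hc : Isometry c) {u v T : ℝ} (h0 : 0 ≤ T) (h : T ≤ u - v) :
    On (c u) (c v) T (c (u - T)) := by
  refine ⟨?_, ?_⟩
  · rw [hc.dist_eq, Real.dist_eq, show u - (u - T) = T by ring, abs_of_nonneg h0]
  · rw [hc.dist_eq, hc.dist_eq, Real.dist_eq, Real.dist_eq, abs_of_nonneg (by linarith),
      abs_of_nonneg (by linarith)]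
    ring

lemma on_line_right {c : ℝ → X} (hc : Isometry c) {u v T : ℝ} (h0 : 0 ≤ T) (h : T ≤ v - u) :
    On (c u) (c v) T (c (u + T)) := by
  refine ⟨?_, ?_⟩
  · rw [hc.dist_eq, Real.dist_eq, show u - (u + T) = -T by ring, abs_neg, abs_of_nonneg h0]
  · rw [hc.dist_eq, hc.dist_eq, Real.dist_eq, Real.dist_eq, abs_of_nonpos (by linarith),
      abs_of_nonpos (by linarith)]
    ring

lemma on_ext' {o y p z : X} {T : ℝ} (hy : dist o y + dist y p = dist o p) (hz : On o y T z) :
    On o p T z := Pool.Agent.Y975.EL.Close.on_ext hy hz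

/-- points of one segment -/
lemma on_dist (hX : CN X) [ProperSpace X] {o p a b : X} {s t : ℝ} (h0 : 0 ≤ s) (hst : s ≤ t)
    (ha : On o p s a) (hb : On o p t b) : dist a b = t - s := by
  obtain ⟨a', ha'⟩ := ex_on hX h0 (show s ≤ dist o b by rw [hb.1]; exact hst)
  have h1 := on_ext' (p := p) (by rw [hb.1, hb.2]; ring) ha'
  rw [on_uniq hX ha h1, ha'.2, hb.1]

/-! ### numerical lemmas -/

lemma num_step {R T δ h D x y y₀ : ℝ} (hR : 0 ≤ R) (hδ0 : 0 < δ) (hδ1 : δ ≤ 1 / 2)
    (hh : 0 < h) (hD : 0 ≤ D)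
    (big : 2 * h * (2 * R + 1) + (2 * R + 1) ^ 2 + 4 * D * (R + 1) < δ * h ^ 2)
    (hx : -((1 - δ) * h) ≤ x) (hxy : x + y₀ ≤ 2 * R + 1) (hy₀ : -((1 - δ) * h) ≤ y₀)
    (hy1 : y ≤ h) (hy2 : -h ≤ y)
    (cn : 2 * h ^ 2 + 2 * D ^ 2 ≤ (D + x) ^ 2 + (D + y) ^ 2) : y₀ + 1 ≤ y := by
  by_contra hcon
  push Not at hcon
  have h1 : x + y ≤ 2 * R + 2 := by linarith
  have h2 : 2 * h ^ 2 ≤ 2 * D * (x + y) + x ^ 2 + y ^ 2 := by nlinarith
  have h3 : 2 * D * (x + y) ≤ 2 * D * (2 * R + 2) := mul_le_mul_of_nonneg_left h1 (by linarith)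
  have h4 : y ^ 2 ≤ h ^ 2 := by
    rw [sq_le_sq, abs_of_pos hh]
    exact abs_le.2 ⟨hy2, hy1⟩
  have h5 : x ≤ (1 - δ) * h + (2 * R + 1) := by linarith
  have h6 : x ^ 2 ≤ ((1 - δ) * h + (2 * R + 1)) ^ 2 := by
    have h0 : 0 ≤ (1 - δ) * h := mul_nonneg (by linarith) hh.le
    rw [sq_le_sq, abs_of_nonneg (show (0 : ℝ) ≤ (1 - δ) * h + (2 * R + 1) by linarith)]
    exact abs_le.2 ⟨by linarith, h5⟩
  have h7 : ((1 - δ) * h + (2 * R + 1)) ^ 2 ≤
      (1 - δ) * h ^ 2 + 2 * h * (2 * R + 1) + (2 * R + 1) ^ 2 := by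
    have e1 : (1 - δ) ^ 2 * h ^ 2 ≤ (1 - δ) * h ^ 2 :=
      mul_le_mul_of_nonneg_right (by nlinarith) (sq_nonneg h)
    have e2 : 2 * ((1 - δ) * h) * (2 * R + 1) ≤ 2 * h * (2 * R + 1) := by
      have : (1 - δ) * h ≤ h := by nlinarith
      nlinarith
    nlinarith
  nlinarith

lemma num_lower {T δ h D e d : ℝ} (hT : 0 < T) (hδ0 : 0 < δ) (hδ1 : δ ≤ 1 / 2)
    (hδT : δ * (2 * T ^ 2) ≤ 1) (hh : 0 < h) (hhD : h ≤ D) (hd : 1 < d) (he : D - h ≤ e)
    (hcmp : d ^ 2 * (h * D) ≤ T ^ 2 * (e ^ 2 - (h - D) ^ 2)) : D - (1 - δ) * h ≤ e := by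
  by_contra hcon
  push Not at hcon
  have hD : 0 < D := lt_of_lt_of_le hh hhD
  have h1 : h * D < d ^ 2 * (h * D) := by
    have e1 : 0 < h * D := mul_pos hh hD
    have e2 : 1 < d ^ 2 := by nlinarith
    nlinarith
  have h2 : e ^ 2 - (h - D) ^ 2 = (e - (D - h)) * (e + (D - h)) := by ring
  have h3 : (e - (D - h)) * (e + (D - h)) ≤ (δ * h) * (2 * D) := by
    refine mul_le_mul (by linarith) ?_ (by linarith) (by positivity)
    nlinarith
  have h4 : T ^ 2 * (e ^ 2 - (h - D) ^ 2) ≤ T ^ 2 * ((δ * h) * (2 * D)) := by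
    rw [h2]; exact mul_le_mul_of_nonneg_left h3 (sq_nonneg T)
  have h5 : T ^ 2 * ((δ * h) * (2 * D)) = (δ * (2 * T ^ 2)) * (h * D) := by ring
  have h6 : (δ * (2 * T ^ 2)) * (h * D) ≤ 1 * (h * D) :=
    mul_le_mul_of_nonneg_right hδT (by positivity)
  linarith

/-- if `x` is not seen from `o` in the direction of `q` then distances grow -/
lemma far_lower (hX : CN X) [ProperSpace X] {o x p q y b : X} {T h D δ : ℝ} (hT : 0 < T)
    (hδ0 : 0 < δ) (hδ1 : δ ≤ 1 / 2) (hδT : δ * (2 * T ^ 2) ≤ 1) (hTh : T ≤ h) (hhD : h ≤ D)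
    (hp : On o x h p) (hq : dist o q = D) (hy : On o x T y) (hb : On o q T b)
    (hyb : 1 < dist y b) : D - (1 - δ) * h ≤ dist p q := by
  obtain ⟨y', hy'⟩ := ex_on hX hT.le (show T ≤ dist o p by rw [hp.1]; exact hTh)
  have h1 := on_ext' (p := x) (by rw [hp.1, hp.2]; ring) hy'
  have h2 := on_uniq hX hy h1
  subst h2
  have h3 := (t_cmp X hX).1 o p q T y b hy' hb
  rw [hp.1, hq] at h3
  refine num_lower hT hδ0 hδ1 hδT (by linarith) hhD hyb ?_ h3
  have h4 := dist_triangle o p q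
  rw [hp.1, hq] at h4
  linarith

/-- the direction of points near the line -/
lemma dir_near (hX : CN X) [ProperSpace X] {o p q a b : X} {T h D : ℝ} (hT : 0 < T) (hh : 0 < h)
    (hD : (2 * T + 2) * h ≤ D) (hTh : T ≤ h) (hq : dist o q = D) (hpq : dist p q = h)
    (ha : On o p T a) (hb : On o q T b) : dist a b ≤ 1 := by
  have h1 := (t_cmp X hX).1 o p q T a b ha hb
  rw [hq, hpq] at h1
  have h2 : D - h ≤ dist o p := by
    have := dist_triangle o p q
    rw [hq, hpq] at this
    linarith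
  have h3 : T * h ≤ D - h := by nlinarith
  have h4 : T * h ≤ D := by nlinarith
  have h5 : (T * h) * (T * h) ≤ dist o p * D :=
    mul_le_mul (h3.trans h2) h4 (by positivity) dist_nonneg
  by_contra hcon
  push Not at hcon
  have h6 : 1 < dist a b ^ 2 := by nlinarith
  have h7 : 0 < dist o p * D := lt_of_lt_of_le (by positivity) h5
  have h8 : dist o p * D < dist a b ^ 2 * (dist o p * D) := by nlinarith
  have h9 : T ^ 2 * (h ^ 2 - (dist o p - D) ^ 2) ≤ T ^ 2 * h ^ 2 :=
    mul_le_mul_of_nonneg_left (by nlinarith [sq_nonneg (dist o p - D)]) (sq_nonneg T)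
  nlinarith

theorem near_left (hX : CN X) [ProperSpace X] {c : ℝ → X} (hc : Isometry c) {τ R T : ℝ}
    (hP : RP c τ R T) : ∃ D₀ : ℝ, 0 ≤ D₀ ∧ ∀ (x : X) (s : ℝ) (i : ℤ), Pj c x s →
      s ≤ i * τ - D₀ → NL T c (i * τ) x := by
  have hτ := hP.hτ
  have hT := hP.hT
  have hR := hP.hR
  -- the constants
  obtain ⟨δ, hδ0, hδ1, hδT⟩ : ∃ δ : ℝ, 0 < δ ∧ δ ≤ 1 / 2 ∧ δ * (2 * T ^ 2) ≤ 1 := by
    refine ⟨min (1 / 2) (1 / (2 * T ^ 2)), lt_min (by norm_num) (by positivity), min_le_left _ _,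
      ?_⟩
    have h1 : min (1 / 2) (1 / (2 * T ^ 2)) * (2 * T ^ 2) ≤ 1 / (2 * T ^ 2) * (2 * T ^ 2) :=
      mul_le_mul_of_nonneg_right (min_le_right _ _) (by positivity)
    rwa [one_div_mul_cancel (by positivity)] at h1
  set A : ℝ := 2 * (2 * R + 1) + (2 * R + 1) ^ 2 + 4 * (R + 1) * ((2 * T + 2) + τ) with hA
  have hA0 : 0 ≤ A := by positivity
  set h : ℝ := max (max 1 T) (A / δ + 1) with hh
  have hh1 : 1 ≤ h := (le_max_left _ _).trans (le_max_left _ _)
  have hhT : T ≤ h := (le_max_right _ _).trans (le_max_left _ _)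
  have hhA : A < δ * h := by
    have h1 : A / δ + 1 ≤ h := le_max_right _ _
    have h2 : A / δ < h := by linarith
    rw [div_lt_iff₀ hδ0] at h2
    linarith
  have hh0 : 0 < h := by linarith
  set n₁ : ℕ := ⌈(2 * T + 2) * h / τ⌉₊ with hn₁
  set D : ℝ := n₁ * τ with hD
  have hD1 : (2 * T + 2) * h ≤ D := by
    have h1 := Nat.le_ceil ((2 * T + 2) * h / τ)
    rw [div_le_iff₀ hτ] at h1
    exact h1
  have hD2 : D ≤ (2 * T + 2) * h + τ := by
    have h1 := (Nat.ceil_lt_add_one (show 0 ≤ (2 * T + 2) * h / τ by positivity)).le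
    have h2 := mul_le_mul_of_nonneg_right h1 hτ.le
    have h3 : ((2 * T + 2) * h / τ + 1) * τ = (2 * T + 2) * h + τ := by
      field_simp
    rw [h3] at h2
    exact h2
  have hhD : h ≤ D := by nlinarith
  have hD0 : 0 < D := by linarith
  have big : 2 * h * (2 * R + 1) + (2 * R + 1) ^ 2 + 4 * D * (R + 1) < δ * h ^ 2 := by
    have h1 : D ≤ ((2 * T + 2) + τ) * h := by nlinarith
    have h2 : 4 * D * (R + 1) ≤ 4 * (((2 * T + 2) + τ) * h) * (R + 1) := by
      have := mul_le_mul_of_nonneg_right h1 (show (0 : ℝ) ≤ 4 * (R + 1) by linarith)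
      nlinarith
    have h3 : (2 * R + 1) ^ 2 ≤ (2 * R + 1) ^ 2 * h := by nlinarith [sq_nonneg (2 * R + 1)]
    have h4 : A * h < δ * h * h := mul_lt_mul_of_pos_right hhA hh0
    have h5 : A * h = 2 * h * (2 * R + 1) + (2 * R + 1) ^ 2 * h +
        4 * (((2 * T + 2) + τ) * h) * (R + 1) := by rw [hA]; ring
    nlinarith
  set J : ℕ := ⌈2 * h⌉₊ + 1 with hJ
  have hJh : 2 * h < J := by
    have := Nat.le_ceil (2 * h)
    rw [hJ]; push_cast; linarith
  set L₀ : ℝ := 2 * D * h + h + T + 1 with hL₀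
  have hL0 : 0 < L₀ := by positivity
  refine ⟨2 * L₀ + J * (2 * D) + 2 * R + 1 + T, by positivity, fun x s i hs hsi => ?_⟩
  by_contra hNL
  -- the base points
  set k : ℕ → ℤ := fun j => i - 2 * j * n₁ with hk
  set v : ℕ → ℝ := fun j => (k j : ℝ) * τ with hv
  have hvj : ∀ j, v j = i * τ - j * (2 * D) := by
    intro j
    simp only [hv, hk, hD]; push_cast; ring
  have hvs : ∀ j, j ≤ J → 2 * L₀ + 2 * R + 1 + T ≤ v j - s := by
    intro j hj
    rw [hvj]
    have h1 : (j : ℝ) * (2 * D) ≤ J * (2 * D) :=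
      mul_le_mul_of_nonneg_right (by exact_mod_cast hj) (by positivity)
    linarith
  have hvx : ∀ j, j ≤ J → L₀ ≤ dist (c (v j)) x := by
    intro j hj
    have h1 := hs (v j)
    have h2 := dist_triangle (c s) x (c (v j))
    rw [hc.dist_eq, Real.dist_eq, dist_comm (c s) x] at h2
    have h3 := neg_le_abs (s - v j)
    have h4 := hvs j hj
    rw [dist_comm (c (v j)) x]
    linarith
  have hex : ∀ j, j ≤ J → ∃ p, On (c (v j)) x h p := fun j hj =>
    ex_on hX hh0.le (by have := hvx j hj; rw [hL₀] at this; nlinarith)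
  have : Nonempty X := ⟨x⟩
  choose! p hp using hex
  -- not to the right
  have hright : ∀ j, j ≤ J → D - (1 - δ) * h ≤ dist (p j) (c (v j + D)) := by
    intro j hj
    have hTL : T ≤ dist (c (v j)) x := by have := hvx j hj; rw [hL₀] at this; nlinarith
    have hNR : ¬ NR T c (v j) x := by
      intro hNR
      have h1 := hvs j hj
      have hNLs : NL T c (v j) (c s) := by
        refine ⟨?_, ?_⟩
        · rw [hc.dist_eq, Real.dist_eq, abs_of_nonneg (by linarith)]; linarith
        · intro y hy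
          rw [on_uniq hX hy (on_line_left hc hT.le (by linarith)), dist_self]
          norm_num
      obtain ⟨m, hm1, hm2⟩ := hP.pass (k j) (c s) x hNLs hNR
      have h2 := hs (v j)
      have h3 := dist_triangle (c s) m (c (v j))
      have h4 := dist_triangle (c (v j)) m x
      rw [hc.dist_eq, Real.dist_eq, dist_comm m (c (v j))] at h3
      have h5 := neg_le_abs (s - v j)
      have h6 : dist (c (v j)) m ≤ R := hm2
      rw [dist_comm x (c s), dist_comm x (c (v j))] at h2
      linarith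
    have hy : ∃ y, On (c (v j)) x T y ∧ 1 < dist y (c (v j + T)) := by
      by_contra hcon
      push Not at hcon
      exact hNR ⟨hTL, hcon⟩
    obtain ⟨y, hy1, hy2⟩ := hy
    refine far_lower hX hT hδ0 hδ1 hδT hhT hhD (hp j hj) ?_ hy1
      (on_line_right hc hT.le (v := v j + D) (by linarith)) hy2
    rw [hc.dist_eq, Real.dist_eq, show v j - (v j + D) = -D by ring, abs_neg, abs_of_pos hD0]
  have hleft0 : D - (1 - δ) * h ≤ dist (p 0) (c (v 0 - D)) := by
    have hv0 : v 0 = i * τ := by rw [hvj]; simp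
    have hTL : T ≤ dist (c (v 0)) x := by have := hvx 0 (Nat.zero_le _); rw [hL₀] at this; nlinarith
    have hy : ∃ y, On (c (v 0)) x T y ∧ 1 < dist y (c (v 0 - T)) := by
      by_contra hcon
      push Not at hcon
      rw [← hv0] at hNL
      exact hNL ⟨hTL, hcon⟩
    obtain ⟨y, hy1, hy2⟩ := hy
    refine far_lower hX hT hδ0 hδ1 hδT hhT hhD (hp 0 (Nat.zero_le _)) ?_ hy1
      (on_line_left hc hT.le (v := v 0 - D) (by linarith)) hy2
    rw [hc.dist_eq, Real.dist_eq, show v 0 - (v 0 - D) = D by ring, abs_of_pos hD0]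
  -- consecutive points
  have hstep : ∀ j, j + 1 ≤ J → dist (p (j + 1)) (c (v (j + 1) + D)) - D +
      (dist (p j) (c (v j - D)) - D) ≤ 2 * R + 1 := by
    intro j hj
    have hj' : j ≤ J := by omega
    have hz1 : v (j + 1) + D = v j - D := by rw [hvj, hvj]; push_cast; ring
    set z : ℝ := v j - D with hz
    have hzk : z = ((i - 2 * j * n₁ - n₁ : ℤ) : ℝ) * τ := by
      rw [hz, hvj, hD]; push_cast; ring
    have hd1 : dist (c z) (c (v (j + 1))) = D := by
      rw [← hz1, hc.dist_eq, Real.dist_eq, show v (j + 1) + D - v (j + 1) = D by ring,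
        abs_of_pos hD0]
    have hd2 : dist (c z) (c (v j)) = D := by
      rw [hz, hc.dist_eq, Real.dist_eq, show v j - D - v j = -D by ring, abs_neg, abs_of_pos hD0]
    have hp1 := hp (j + 1) hj
    have hp2 := hp j hj'
    have hfar : ∀ {q r : X}, dist (c z) q = D → dist q r = h → T ≤ dist (c z) r := by
      intro q r h1 h2
      have h3 := dist_triangle (c z) r q
      rw [h1, dist_comm r q, h2] at h3
      nlinarith
    have hNLz : NL T c z (p (j + 1)) := by
      refine ⟨hfar hd1 hp1.1, fun y hy => ?_⟩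
      refine dir_near hX hT hh0 hD1 hhT hd1 (by rw [dist_comm]; exact hp1.1) hy
        (on_line_left hc hT.le ?_)
      rw [← hz1]; nlinarith
    have hNRz : NR T c z (p j) := by
      refine ⟨hfar hd2 hp2.1, fun y hy => ?_⟩
      refine dir_near hX hT hh0 hD1 hhT hd2 (by rw [dist_comm]; exact hp2.1) hy
        (on_line_right hc hT.le ?_)
      rw [hz]; nlinarith
    rw [hzk] at hNLz hNRz
    obtain ⟨m, hm1, hm2⟩ := hP.pass _ _ _ hNLz hNRz
    rw [← hzk] at hm2
    -- the distance of the points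
    have hpp : dist (p (j + 1)) (p j) ≤ 2 * D + 1 := by
      set L₁ := dist (c (v (j + 1))) x with hL₁
      set L₂ := dist (c (v j)) x with hL₂
      have hb1 : L₀ ≤ L₁ := hvx (j + 1) hj
      have hb2 : L₀ ≤ L₂ := hvx j hj'
      have hL1 : 0 < L₁ := by linarith
      have hL12 : |L₂ - L₁| ≤ 2 * D := by
        have h1 := dist_triangle (c (v (j + 1))) (c (v j)) x
        have h2 := dist_triangle (c (v j)) (c (v (j + 1))) x
        have h3 : dist (c (v (j + 1))) (c (v j)) = 2 * D := by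
          rw [hc.dist_eq, Real.dist_eq, hvj, hvj]
          have : (i : ℝ) * τ - ((j + 1 : ℕ) : ℝ) * (2 * D) - (i * τ - j * (2 * D)) = -(2 * D) := by
            push_cast; ring
          rw [this, abs_neg, abs_of_pos (by positivity)]
        rw [dist_comm (c (v j)) (c (v (j + 1)))] at h2
        rw [h3] at h1 h2
        rw [abs_le]
        constructor <;> linarith
      have hhL : h ≤ L₁ := by rw [hL₀] at hb1; nlinarith
      have hl0 : 0 ≤ h / L₁ := by positivity
      have hl1 : h / L₁ ≤ 1 := (div_le_one hL1).2 hhL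
      obtain ⟨b, hb⟩ := ex_on hX (o := c (v j)) (p := x) (t := h / L₁ * L₂) (by positivity)
        (by rw [← hL₂]; nlinarith)
      have hcm := (t_cmp X hX).2 (c (v (j + 1))) x (c (v j)) x (h / L₁) (p (j + 1)) b
        (by rw [← hL₁, div_mul_cancel₀ _ hL1.ne']; exact hp1) hb hl0 hl1
      rw [dist_self, mul_zero, add_zero] at hcm
      have h3 : dist (c (v (j + 1))) (c (v j)) = 2 * D := by
        rw [hc.dist_eq, Real.dist_eq, hvj, hvj]
        have : (i : ℝ) * τ - ((j + 1 : ℕ) : ℝ) * (2 * D) - (i * τ - j * (2 * D)) = -(2 * D) := by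
          push_cast; ring
        rw [this, abs_neg, abs_of_pos (by positivity)]
      rw [h3] at hcm
      have h4 : dist b (p j) ≤ 1 := by
        have e1 : |h / L₁ * L₂ - h| ≤ 1 := by
          have : h / L₁ * L₂ - h = h / L₁ * (L₂ - L₁) := by
            rw [mul_sub, div_mul_cancel₀ _ hL1.ne']
          rw [this, abs_mul, abs_of_nonneg hl0]
          have e2 : h / L₁ * |L₂ - L₁| ≤ h / L₁ * (2 * D) := mul_le_mul_of_nonneg_left hL12 hl0
          have e3 : h / L₁ * (2 * D) ≤ 1 := by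
            rw [div_mul_eq_mul_div, div_le_one hL1]
            rw [hL₀] at hb1; nlinarith
          linarith
        rcases le_total (h / L₁ * L₂) h with hle | hle
        · rw [on_dist hX (by positivity) hle hb hp2]
          have := neg_le_abs (h / L₁ * L₂ - h)
          linarith
        · rw [dist_comm, on_dist hX hh0.le hle hp2 hb]
          have := le_abs_self (h / L₁ * L₂ - h)
          linarith
      have h5 := dist_triangle (p (j + 1)) b (p j)
      have h6 : (1 - h / L₁) * (2 * D) ≤ 2 * D := by nlinarith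
      linarith
    have h1 := dist_triangle (p (j + 1)) m (c z)
    have h2 := dist_triangle (c z) m (p j)
    rw [dist_comm m (c z)] at h1
    rw [dist_comm (c z) (p j)] at h2
    rw [hz1]
    linarith
  -- the induction
  have hind : ∀ j, j ≤ J → -((1 - δ) * h) + j ≤ dist (p j) (c (v j - D)) - D := by
    intro j
    induction j with
    | zero => intro _; push_cast; linarith
    | succ j ih =>
      intro hj
      have h1 := ih (by omega)
      have h2 := hstep j hj
      have h3 := hright (j + 1) hj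
      have h4 := hp (j + 1) hj
      have h5 := line_cn hX hc (p (j + 1)) (v (j + 1)) D
      rw [dist_comm (p (j + 1)) (c (v (j + 1))), h4.1] at h5
      have hdd : dist (c (v (j + 1))) (c (v (j + 1) - D)) = D := by
        rw [hc.dist_eq, Real.dist_eq, show v (j + 1) - (v (j + 1) - D) = D by ring,
          abs_of_pos hD0]
      have h6 := dist_triangle (p (j + 1)) (c (v (j + 1))) (c (v (j + 1) - D))
      have h7 := dist_triangle (c (v (j + 1))) (p (j + 1)) (c (v (j + 1) - D))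
      rw [dist_comm (p (j + 1)) (c (v (j + 1))), h4.1, hdd] at h6
      rw [h4.1, hdd] at h7
      have hj0 : (0 : ℝ) ≤ j := Nat.cast_nonneg j
      have key := num_step (R := R) (T := T) (δ := δ) (h := h) (D := D)
        (x := dist (p (j + 1)) (c (v (j + 1) + D)) - D)
        (y := dist (p (j + 1)) (c (v (j + 1) - D)) - D)
        (y₀ := dist (p j) (c (v j - D)) - D) hR hδ0 hδ1 hh0 hD0.le big (by linarith)
        (by linarith) (by linarith) (by linarith) (by linarith) (by
          have e1 : D + (dist (p (j + 1)) (c (v (j + 1) + D)) - D) =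
            dist (p (j + 1)) (c (v (j + 1) + D)) := by ring
          have e2 : D + (dist (p (j + 1)) (c (v (j + 1) - D)) - D) =
            dist (p (j + 1)) (c (v (j + 1) - D)) := by ring
          rw [e1, e2]
          linarith)
      push_cast
      linarith
  have h1 := hind J le_rfl
  have h2 := hp J le_rfl
  have h3 := dist_triangle (p J) (c (v J)) (c (v J - D))
  rw [dist_comm (p J) (c (v J)), h2.1, hc.dist_eq (v J), Real.dist_eq,
    show v J - (v J - D) = D by ring, abs_of_pos hD0] at h3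
  nlinarith

end Pool.Agent.T6.H46.RC
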