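import Pool.Agent.T6.H46.RC.Full

/-!
# Minimal convex sets: invariant convex functions of finite index subgroups are constant
-/

set_option autoImplicit false

open Metric Set Filter Topology
open Pool.Agent.TH60.FP Pool.Agent.TH60.FP.Strip Pool.Agent.Y34.HB Pool.Agent.Y34.EL
open Pool.Agent.T6.H46.RR

namespace Pool.Agent.T6.H46.RC

variable {Y : Type} [MetricSpace Y] {X : Type} [MetricSpace X] {K : Type} [Group K]
  [MulAction K Y] [MulAction K X]

/-- convex functions -/
def Cvx (f : Y → ℝ) : Prop := ∀ (x y m : Y) (l : ℝ), On x y (l * dist x y) m → 0 ≤ l → l ≤ 1 →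
  f m ≤ (1 - l) * f x + l * f y

/-- there are no proper closed convex invariant subsets -/
def Mn (K : Type) [Group K] (Y : Type) [MetricSpace Y] [MulAction K Y] : Prop :=
  ∀ S : Set Y, IsClosed S → S.Nonempty →
    (∀ p ∈ S, ∀ q ∈ S, ∀ m, dist p m + dist m q = dist p q → m ∈ S) →
    (∀ k : K, ∀ x ∈ S, k • x ∈ S) → S = univ

lemma on_iso {β : Y → X} (hβ : Isometry β) {x y m : Y} {t : ℝ} :
    On (β x) (β y) t (β m) ↔ On x y t m := by
  unfold On
  rw [hβ.dist_eq, hβ.dist_eq, hβ.dist_eq]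

lemma Mn.const (h : Mn K Y) {F : Y → ℝ} (hF : Continuous F) (hc : Cvx F)
    (hi : ∀ (k : K) (x : Y), F (k • x) = F x) (x y : Y) : F x = F y := by
  have key : ∀ x y : Y, F y ≤ F x := by
    intro x y
    have h1 : {z | F z ≤ F x} = univ := by
      refine h _ (isClosed_le hF continuous_const) ⟨x, show F x ≤ F x from le_refl _⟩ ?_ ?_
      · intro p hp q hq m hm
        have hp' : F p ≤ F x := hp
        have hq' : F q ≤ F x := hq
        show F m ≤ F x
        rcases eq_or_lt_of_le (dist_nonneg (x := p) (y := q)) with h0 | h0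
        · have h2 : dist p m = 0 := by
            have := dist_nonneg (x := p) (y := m)
            have := dist_nonneg (x := m) (y := q)
            linarith
          rw [← dist_eq_zero.1 h2]; exact hp'
        · have e : dist p m / dist p q * dist p q = dist p m := div_mul_cancel₀ _ h0.ne'
          have hl : dist p m / dist p q ≤ 1 := by
            rw [div_le_one h0]
            have := dist_nonneg (x := m) (y := q)
            linarith
          have hl0 : 0 ≤ dist p m / dist p q := by positivity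
          have h2 := hc p q m (dist p m / dist p q) ⟨e.symm, by rw [e]; linarith⟩ hl0 hl
          nlinarith
      · intro k z hz
        show F (k • z) ≤ F x
        rw [hi]; exact hz
    have h2 : y ∈ {z | F z ≤ F x} := by rw [h1]; trivial
    exact h2
  exact le_antisymm (key y x) (key x y)

/-- **Averaging.**  If `K` acts minimally then nonnegative continuous convex functions invariant
under a subgroup of finite index are constant. -/
theorem Mn.const' (h : Mn K Y) (hY : CN Y) [ProperSpace Y] [IsIsometricSMul K Y] {A : Subgroup K}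
    (hA : A.index ≠ 0) {f : Y → ℝ} (hf : Continuous f) (hc : Cvx f) (h0 : ∀ x, 0 ≤ f x)
    (hi : ∀ a ∈ A, ∀ x : Y, f (a • x) = f x) (x y : Y) : f x = f y := by
  classical
  have : A.FiniteIndex := ⟨hA⟩
  have : Fintype (K ⧸ A) := Subgroup.fintypeQuotientOfFiniteIndex
  let g : K ⧸ A → Y → ℝ := fun q z => f (q.out⁻¹ • z)
  have hg0 : ∀ q z, 0 ≤ g q z := fun q z => h0 _
  have hgc : ∀ q, Cvx (g q) := by
    intro q u v m l hm hl0 hl1
    refine hc _ _ _ l ?_ hl0 hl1
    have := (on_iso (isometry_smul Y q.out⁻¹) (x := u) (y := v) (m := m) (t := l * dist u v)).2 hm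
    rwa [dist_smul]
  have hcont : ∀ q, Continuous (g q) := fun q => hf.comp (isometry_smul Y q.out⁻¹).continuous
  set F : Y → ℝ := fun z => ∑ q : K ⧸ A, g q z ^ 2 with hFdef
  have hFc : Continuous F := continuous_finsetSum _ fun q _ => (hcont q).pow 2
  have hsq : ∀ {s t u l : ℝ}, 0 ≤ l → l ≤ 1 → 0 ≤ u → u ≤ (1 - l) * s + l * t →
      u ^ 2 ≤ (1 - l) * s ^ 2 + l * t ^ 2 := by
    intro s t u l hl0 hl1 hu h1
    have h2 : u ^ 2 ≤ ((1 - l) * s + l * t) ^ 2 := pow_le_pow_left₀ hu h1 2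
    nlinarith [mul_nonneg (mul_nonneg hl0 (sub_nonneg.2 hl1)) (sq_nonneg (s - t))]
  have hFcv : Cvx F := by
    intro u v m l hm hl0 hl1
    show ∑ q : K ⧸ A, g q m ^ 2 ≤ (1 - l) * ∑ q : K ⧸ A, g q u ^ 2 + l * ∑ q : K ⧸ A, g q v ^ 2
    rw [Finset.mul_sum, Finset.mul_sum, ← Finset.sum_add_distrib]
    exact Finset.sum_le_sum fun q _ => hsq hl0 hl1 (hg0 q m) (hgc q u v m l hm hl0 hl1)
  have hFi : ∀ (k : K) (z : Y), F (k • z) = F z := by
    intro k z
    refine Fintype.sum_equiv (MulAction.toPerm k⁻¹) _ _ fun q => ?_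
    have e1 : (MulAction.toPerm k⁻¹ q : K ⧸ A) = ((k⁻¹ * q.out : K) : K ⧸ A) := by
      show k⁻¹ • q = _
      conv_lhs => rw [← QuotientGroup.out_eq' q]
      rfl
    obtain ⟨a, ha⟩ := QuotientGroup.mk_out_eq_mul A (k⁻¹ * q.out)
    show f (q.out⁻¹ • k • z) ^ 2 = f ((MulAction.toPerm k⁻¹ q : K ⧸ A).out⁻¹ • z) ^ 2
    rw [e1, ha]
    have e2 : ((k⁻¹ * q.out * (a : K))⁻¹ : K) • z = (a : K)⁻¹ • q.out⁻¹ • k • z := by
      rw [smul_smul, smul_smul]; congr 1; group
    rw [e2, hi _ (A.inv_mem a.2)]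
  have hconst := h.const hFc hFcv hFi
  -- the midpoint
  obtain ⟨m, hm⟩ := ex_on hY (o := x) (p := y) (t := 1 / 2 * dist x y) (by positivity)
    (by linarith [dist_nonneg (x := x) (y := y)])
  have hterm : ∀ q : K ⧸ A, g q m ^ 2 + (g q x - g q y) ^ 2 / 4 ≤ (g q x ^ 2 + g q y ^ 2) / 2 := by
    intro q
    have h1 := hgc q x y m (1 / 2) hm (by norm_num) (by norm_num)
    have h2 : g q m ^ 2 ≤ ((1 - 1 / 2) * g q x + 1 / 2 * g q y) ^ 2 :=
      pow_le_pow_left₀ (hg0 q m) h1 2
    nlinarith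
  have hsum : F m + (∑ q : K ⧸ A, (g q x - g q y) ^ 2 / 4) ≤ (F x + F y) / 2 := by
    show (∑ q : K ⧸ A, g q m ^ 2) + (∑ q : K ⧸ A, (g q x - g q y) ^ 2 / 4) ≤
      ((∑ q : K ⧸ A, g q x ^ 2) + ∑ q : K ⧸ A, g q y ^ 2) / 2
    rw [← Finset.sum_add_distrib, ← Finset.sum_add_distrib, Finset.sum_div]
    exact Finset.sum_le_sum fun q _ => hterm q
  rw [hconst m x, hconst y x] at hsum
  have hle : (∑ q : K ⧸ A, (g q x - g q y) ^ 2 / 4) ≤ 0 := by linarith
  have hz : ∀ q ∈ (Finset.univ : Finset (K ⧸ A)), (g q x - g q y) ^ 2 / 4 = 0 :=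
    (Finset.sum_eq_zero_iff_of_nonneg (fun q _ => by positivity)).1
      (le_antisymm hle (Finset.sum_nonneg fun q _ => by positivity))
  have h1 := hz ((1 : K) : K ⧸ A) (Finset.mem_univ _)
  obtain ⟨a, ha⟩ := QuotientGroup.mk_out_eq_mul A (1 : K)
  have h2 : ∀ z, g ((1 : K) : K ⧸ A) z = f z := by
    intro z
    show f ((((1 : K) : K ⧸ A).out)⁻¹ • z) = f z
    rw [ha, one_mul]
    exact hi _ (A.inv_mem a.2) z
  rw [h2, h2] at h1
  have h3 : (f x - f y) ^ 2 = 0 := by linarith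
  have h4 := pow_eq_zero_iff two_ne_zero |>.1 h3
  linarith

/-! ### convex functions -/

lemma cvx_dist (hX : CN X) [ProperSpace X] {β γ : Y → X} (hβ : Isometry β) (hγ : Isometry γ) :
    Cvx (fun y => dist (β y) (γ y)) := by
  intro x y m l hm hl0 hl1
  refine (t_cmp X hX).2 (β x) (β y) (γ x) (γ y) l (β m) (γ m) ?_ ?_ hl0 hl1
  · have := (on_iso hβ (x := x) (y := y) (m := m) (t := l * dist x y)).2 hm
    rwa [hβ.dist_eq]
  · have := (on_iso hγ (x := x) (y := y) (m := m) (t := l * dist x y)).2 hm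
    rwa [hγ.dist_eq]

lemma cvx_infDist (hX : CN X) [ProperSpace X] (hY : CN Y) [ProperSpace Y] {β γ : Y → X}
    (hβ : Isometry β) (hγ : Isometry γ) : Cvx (fun y => infDist (β y) (range γ)) := by
  intro x y m l hm hl0 hl1
  have : Nonempty Y := ⟨x⟩
  have hcl : IsClosed (range γ) := hγ.isClosedEmbedding.isClosed_range
  obtain ⟨_, ⟨u, rfl⟩, hu⟩ := hcl.exists_infDist_eq_dist (range_nonempty γ) (β x)
  obtain ⟨_, ⟨v, rfl⟩, hv⟩ := hcl.exists_infDist_eq_dist (range_nonempty γ) (β y)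
  obtain ⟨w, hw⟩ := ex_on hY (o := u) (p := v) (t := l * dist u v) (by positivity)
    (by nlinarith [dist_nonneg (x := u) (y := v)])
  have h1 := (t_cmp X hX).2 (β x) (β y) (γ u) (γ v) l (β m) (γ w) (by
    have := (on_iso hβ (x := x) (y := y) (m := m) (t := l * dist x y)).2 hm
    rwa [hβ.dist_eq]) (by
    have := (on_iso hγ (x := u) (y := v) (m := w) (t := l * dist u v)).2 hw
    rwa [hγ.dist_eq]) hl0 hl1
  rw [← hu, ← hv] at h1
  exact (infDist_le_dist_of_mem (mem_range_self w)).trans h1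

end Pool.Agent.T6.H46.RC
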