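import Pool.Agent.T6.H46.RC.Par1

/-!
# Parallel copies of a minimal convex set
-/

set_option autoImplicit false

open Metric Set Filter Topology
open Pool.Agent.TH60.FP Pool.Agent.TH60.FP.Strip Pool.Agent.Y34.HB Pool.Agent.Y34.EL
open Pool.Agent.T6.H46.RR

namespace Pool.Agent.T6.H46.RC

variable {Y : Type} [MetricSpace Y] {X : Type} [MetricSpace X] {K : Type} [Group K]
  [MulAction K Y] [MulAction K X]

/-- `φ` and `ψ` are parallel and `ψ x` is the projection of `φ x` -/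
def Py (φ ψ : Y → X) : Prop :=
  ∀ x y z, dist (φ x) (ψ y) ^ 2 = dist (φ z) (ψ z) ^ 2 + dist x y ^ 2

lemma Py.symm {φ ψ : Y → X} (h : Py φ ψ) : Py ψ φ := by
  intro x y z
  rw [dist_comm (ψ x), dist_comm (ψ z), dist_comm x y]
  exact h y x z

lemma Py.const {φ ψ : Y → X} (h : Py φ ψ) (x y : Y) : dist (φ x) (ψ x) = dist (φ y) (ψ y) := by
  have h1 := h x x y
  rw [dist_self] at h1
  have h2 : dist (φ x) (ψ x) ^ 2 = dist (φ y) (ψ y) ^ 2 := by rw [h1]; ring
  exact (pow_left_inj₀ dist_nonneg dist_nonneg two_ne_zero).1 h2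

lemma py_self {φ : Y → X} (hφ : Isometry φ) : Py φ φ := by
  intro x y z
  rw [hφ.dist_eq, dist_self]; ring

/-- the inequality of the projection to a convex set -/
lemma proj_sq (hX : CN X) [ProperSpace X] (hY : CN Y) [ProperSpace Y] {γ : Y → X}
    (hγ : Isometry γ) {p : X} {u : Y} (hu : ∀ z, dist p (γ u) ≤ dist p (γ z)) (z : Y) :
    dist p (γ u) ^ 2 + dist u z ^ 2 ≤ dist p (γ z) ^ 2 := by
  set L : ℝ := dist u z with hL
  have hL0 : 0 ≤ L := dist_nonneg
  rcases eq_or_lt_of_le hL0 with h0 | h0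
  · rw [← h0]
    have h2 : dist p (γ u) ^ 2 ≤ dist p (γ z) ^ 2 := pow_le_pow_left₀ dist_nonneg (hu z) 2
    linarith
  · have key : ∀ t : ℝ, 0 < t → t ≤ L →
        dist p (γ u) ^ 2 + (L - t) * L ≤ dist p (γ z) ^ 2 := by
      intro t ht0 ht1
      obtain ⟨v, hv⟩ := ex_on hY (o := u) (p := z) ht0.le ht1
      have hv' := (on_iso hγ (x := u) (y := z) (m := v) (t := t)).2 hv
      have h1 := (t_stew X hX).2.2 (γ u) (γ z) t (γ v) hv' p
      have h2 := hu v
      have h3 : dist p (γ u) ^ 2 ≤ dist p (γ v) ^ 2 := pow_le_pow_left₀ dist_nonneg h2 2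
      rw [hγ.dist_eq, ← hL] at h1
      have h4 : L * dist p (γ u) ^ 2 ≤ L * dist p (γ v) ^ 2 := mul_le_mul_of_nonneg_left h3 hL0
      have h5 : t * (dist p (γ u) ^ 2 + (L - t) * L) ≤ t * dist p (γ z) ^ 2 := by nlinarith
      exact le_of_mul_le_mul_left h5 ht0
    by_contra hcon
    push Not at hcon
    set ε : ℝ := dist p (γ u) ^ 2 + L ^ 2 - dist p (γ z) ^ 2 with hε
    have hε0 : 0 < ε := by linarith
    set t : ℝ := min L (ε / (2 * L)) with ht
    have ht0 : 0 < t := lt_min h0 (by positivity)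
    have h1 := key t ht0 (min_le_left _ _)
    have h2 : t * L ≤ ε / 2 := by
      have h3 : t ≤ ε / (2 * L) := min_le_right _ _
      have h4 := mul_le_mul_of_nonneg_right h3 hL0
      have h5 : ε / (2 * L) * L = ε / 2 := by field_simp
      linarith
    nlinarith

/-- **Sandwich lemma.** -/
theorem pair (hX : CN X) [ProperSpace X] (hY : CN Y) [ProperSpace Y] {β γ : Y → X}
    (hβ : Isometry β) (hγ : Isometry γ) {w w' : ℝ} (hw : ∀ y, infDist (β y) (range γ) = w)
    (hw' : ∀ y, infDist (γ y) (range β) = w') (o : Y) :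
    ∃ τ : Y → Y, Isometry τ ∧ Function.Surjective τ ∧ 0 ≤ w ∧
      ∀ x z, dist (β x) (γ z) ^ 2 = w ^ 2 + dist (τ x) z ^ 2 := by
  have : Nonempty Y := ⟨o⟩
  have hclβ : IsClosed (range β) := hβ.isClosedEmbedding.isClosed_range
  have hclγ : IsClosed (range γ) := hγ.isClosedEmbedding.isClosed_range
  have h1 : ∀ y, ∃ u, dist (β y) (γ u) = w := by
    intro y
    obtain ⟨_, ⟨u, rfl⟩, hu⟩ := hclγ.exists_infDist_eq_dist (range_nonempty γ) (β y)
    exact ⟨u, by rw [← hu, hw]⟩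
  have h2 : ∀ y, ∃ u, dist (γ y) (β u) = w' := by
    intro y
    obtain ⟨_, ⟨u, rfl⟩, hu⟩ := hclβ.exists_infDist_eq_dist (range_nonempty β) (γ y)
    exact ⟨u, by rw [← hu, hw']⟩
  have hwl : ∀ y z, w ≤ dist (β y) (γ z) := by
    intro y z
    rw [← hw y]; exact infDist_le_dist_of_mem (mem_range_self z)
  have hwl' : ∀ y z, w' ≤ dist (γ y) (β z) := by
    intro y z
    rw [← hw' y]; exact infDist_le_dist_of_mem (mem_range_self z)
  have heq : w = w' := by
    obtain ⟨u, hu⟩ := h1 o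
    obtain ⟨v, hv⟩ := h2 o
    have h3 := hwl' u o
    have h4 := hwl v o
    rw [dist_comm] at h3 h4
    linarith
  subst heq
  have hw0 : 0 ≤ w := by rw [← hw o]; exact infDist_nonneg
  choose τ hτ using h1
  choose σ hσ using h2
  have p1 : ∀ y z, w ^ 2 + dist (τ y) z ^ 2 ≤ dist (β y) (γ z) ^ 2 := by
    intro y z
    have := proj_sq hX hY hγ (p := β y) (u := τ y) (fun z => by rw [hτ]; exact hwl y z) z
    rwa [hτ] at this
  have p2 : ∀ y z, w ^ 2 + dist (σ y) z ^ 2 ≤ dist (γ y) (β z) ^ 2 := by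
    intro y z
    have := proj_sq hX hY hβ (p := γ y) (u := σ y) (fun z => by rw [hσ]; exact hwl' y z) z
    rwa [hσ] at this
  have hστ : ∀ y, σ (τ y) = y := by
    intro y
    have h3 := p2 (τ y) y
    rw [dist_comm (γ (τ y)), hτ] at h3
    have h4 : dist (σ (τ y)) y ^ 2 = 0 := le_antisymm (by linarith) (sq_nonneg _)
    exact dist_eq_zero.1 (pow_eq_zero_iff two_ne_zero |>.1 h4)
  have hτσ : ∀ y, τ (σ y) = y := by
    intro y
    have h3 := p1 (σ y) y
    rw [dist_comm (β (σ y)), hσ] at h3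
    have h4 : dist (τ (σ y)) y ^ 2 = 0 := le_antisymm (by linarith) (sq_nonneg _)
    exact dist_eq_zero.1 (pow_eq_zero_iff two_ne_zero |>.1 h4)
  have q : ∀ x y, dist (β x) (γ (τ y)) ^ 2 + dist (β y) (γ (τ x)) ^ 2 ≤
      dist x y ^ 2 + dist (τ x) (τ y) ^ 2 + 2 * w ^ 2 := by
    intro x y
    have := four hX (β x) (β y) (γ (τ y)) (γ (τ x))
    rw [hβ.dist_eq, hτ, hγ.dist_eq, dist_comm (γ (τ x)) (β x), hτ, dist_comm (τ y)] at this
    linarith
  have hiso : Isometry τ := by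
    refine Isometry.of_dist_eq fun x y => ?_
    have h3 := q x y
    have h4 := p1 x (τ y)
    have h5 := p1 y (τ x)
    have h6 := p2 (τ y) x
    have h7 := p2 (τ x) y
    rw [hστ, dist_comm (γ _)] at h6 h7
    rw [dist_comm (τ y)] at h5
    rw [dist_comm y x] at h6
    have h8 : dist (τ x) (τ y) ^ 2 = dist x y ^ 2 := by
      apply le_antisymm <;> linarith
    exact (pow_left_inj₀ dist_nonneg dist_nonneg two_ne_zero).1 h8
  refine ⟨τ, hiso, fun y => ⟨σ y, hτσ y⟩, hw0, fun x z => ?_⟩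
  have h3 := q x (σ z)
  have h4 := p1 x z
  have h5 := p1 (σ z) (τ x)
  rw [hτσ] at h3 h5
  have h6 : dist x (σ z) = dist (τ x) z := by
    rw [← hiso.dist_eq x (σ z), hτσ]
  rw [h6] at h3
  rw [dist_comm z] at h5
  linarith

lemma half_dist (x y z : Y) {m n : Y}
    (hm : ∀ w, dist w m ^ 2 ≤ (dist w x ^ 2 + dist w y ^ 2) / 2 - dist x y ^ 2 / 4)
    (hn : ∀ w, dist w n ^ 2 ≤ (dist w y ^ 2 + dist w z ^ 2) / 2 - dist y z ^ 2 / 4) :
    dist m n ≤ dist x z / 2 := by
  refine half_side (a := y) (b := x) (e := z) (fun w => ?_) (fun w => ?_)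
  · have := hm w
    rw [dist_comm y x]; linarith
  · exact hn w

/-- an isometry with constant displacement `δ` moves points by `2 ^ j δ` under its iterate -/
lemma disp_pow (hY : CN Y) {τ : Y → Y} (hτ : Isometry τ) {δ : ℝ} (hδ : ∀ y, dist y (τ y) = δ)
    (j : ℕ) (y : Y) : dist y (τ^[2 ^ j] y) = 2 ^ j * δ := by
  have hiso : ∀ (n : ℕ), Isometry (τ^[n]) := fun n => by
    induction n with
    | zero => exact isometry_id
    | succ n ih => rw [Function.iterate_succ]; exact ih.comp hτ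
  induction j generalizing y with
  | zero => simp [hδ]
  | succ j ih =>
    set ρ := τ^[2 ^ j] with hρ
    have e : τ^[2 ^ (j + 1)] y = ρ (ρ y) := by
      rw [hρ, pow_succ, mul_two, Function.iterate_add_apply]
    rw [e]
    have hρi : Isometry ρ := hiso _
    obtain ⟨m, hm⟩ := hY y (ρ y)
    obtain ⟨n, hn⟩ := hY (ρ y) (ρ (ρ y))
    have hρm : ρ m = n := by
      have h1 := hm m
      rw [dist_self] at h1
      have h1y := hm y
      have h1z := hm (ρ y)
      rw [dist_self] at h1y h1z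
      rw [dist_comm (ρ y) y] at h1z
      have h2 := hn (ρ m)
      rw [hρi.dist_eq, hρi.dist_eq, hρi.dist_eq, dist_comm m y, dist_comm m (ρ y)] at h2
      have h3 : dist (ρ m) n ^ 2 ≤ 0 := by linarith
      exact dist_eq_zero.1 (pow_eq_zero_iff two_ne_zero |>.1 (le_antisymm h3 (sq_nonneg _)))
    have h3 := half_dist y (ρ y) (ρ (ρ y)) hm hn
    rw [← hρm, ih] at h3
    have h4 := dist_triangle y (ρ y) (ρ (ρ y))
    rw [ih, ih] at h4
    rw [pow_succ]
    linarith

/-- if `φ` is parallel to `β` and to `γ` then the shift from `β` to `γ` is trivial -/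
theorem py_trans (hX : CN X) [ProperSpace X] (hY : CN Y) [ProperSpace Y] [IsIsometricSMul K Y]
    [IsIsometricSMul K X] (hM : Mn K Y) {A : Subgroup K} (hA : A.index ≠ 0) {α β γ : Y → X}
    (hβ : Isometry β) (hγ : Isometry γ)
    (eβ : ∀ a ∈ A, ∀ y, β (a • y) = a • β y) (eγ : ∀ a ∈ A, ∀ y, γ (a • y) = a • γ y)
    (hαβ : Py α β) (hαγ : Py α γ) : Py β γ := by
  intro x₀ y₀ z₀
  have hinv : ∀ {φ ψ : Y → X}, Isometry φ → Isometry ψ → (∀ a ∈ A, ∀ y, φ (a • y) = a • φ y) →
      (∀ a ∈ A, ∀ y, ψ (a • y) = a • ψ y) → ∀ x y, infDist (φ x) (range ψ) =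
        infDist (φ y) (range ψ) := by
    intro φ ψ hφ hψ eφ eψ
    refine hM.const' hY hA ((continuous_infDist_pt _).comp hφ.continuous)
      (cvx_infDist hX hY hφ hψ) (fun _ => infDist_nonneg) ?_
    have key : ∀ a ∈ A, ∀ x, infDist (φ (a • x)) (range ψ) ≤ infDist (φ x) (range ψ) := by
      intro a ha x
      have : Nonempty Y := ⟨x⟩
      rw [le_infDist (range_nonempty ψ)]
      rintro _ ⟨y, rfl⟩
      rw [eφ a ha, ← dist_smul a (φ x), ← eψ a ha]
      exact infDist_le_dist_of_mem (mem_range_self _)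
    intro a ha x
    refine le_antisymm (key a ha x) ?_
    have := key a⁻¹ (A.inv_mem ha) (a • x)
    rwa [inv_smul_smul] at this
  obtain ⟨τ, hτ, hτs, hw0, hd⟩ := pair hX hY hβ hγ (hinv hβ hγ eβ eγ · x₀) (hinv hγ hβ eγ eβ · x₀) x₀
  set w : ℝ := infDist (β x₀) (range γ) with hw
  -- constant displacement
  have hWc := hM.const' hY hA (f := fun y => dist (β y) (γ y))
    (hβ.continuous.dist hγ.continuous) (cvx_dist hX hβ hγ) (fun _ => dist_nonneg)
    (fun a ha x => by rw [eβ a ha, eγ a ha, dist_smul])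
  have hδ : ∀ y, dist y (τ y) = dist x₀ (τ x₀) := by
    intro y
    have h1 := hd y y
    have h2 := hd x₀ x₀
    have h3 : dist (β y) (γ y) = dist (β x₀) (γ x₀) := hWc y x₀
    rw [h3, h2] at h1
    have h4 : dist y (τ y) ^ 2 = dist x₀ (τ x₀) ^ 2 := by
      rw [dist_comm y, dist_comm x₀]; linarith
    exact (pow_left_inj₀ dist_nonneg dist_nonneg two_ne_zero).1 h4
  set δ := dist x₀ (τ x₀) with hδdef
  have hδ0 : 0 ≤ δ := dist_nonneg
  -- the growth
  have hgrow : ∀ n : ℕ, dist x₀ (τ^[n] x₀) ^ 2 ≤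
      n * (dist (α x₀) (γ x₀) ^ 2 + dist (β x₀) (γ x₀) ^ 2) := by
    intro n
    induction n with
    | zero => simp
    | succ n ih =>
      set t := τ^[n] x₀ with ht
      have e : τ^[n + 1] x₀ = τ t := by rw [Function.iterate_succ_apply']
      rw [e]
      have h1 := four hX (β t) (α t) (γ x₀) (β x₀)
      have h2 := hd t x₀
      have h3 := hαβ t x₀ x₀
      have h4 := hαβ t t x₀
      have h5 := hαγ t x₀ x₀
      rw [hβ.dist_eq, dist_comm (β t) (α t), dist_comm (γ x₀) (β x₀), h2, h3, h5] at h1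
      rw [dist_self] at h4
      rw [h4] at h1
      rw [dist_comm (τ t)] at h1
      rw [dist_comm t x₀] at h1
      push_cast
      nlinarith [sq_nonneg w]
  have hδz : δ = 0 := by
    by_contra hne
    have hδpos : 0 < δ := lt_of_le_of_ne hδ0 (Ne.symm hne)
    set Q := dist (α x₀) (γ x₀) ^ 2 + dist (β x₀) (γ x₀) ^ 2 with hQ
    have hall : ∀ j : ℕ, (2 : ℝ) ^ j * δ ^ 2 ≤ Q := by
      intro j
      have h1 := hgrow (2 ^ j)
      rw [disp_pow hY hτ hδ j x₀] at h1
      push_cast at h1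
      have h2 : (0 : ℝ) < 2 ^ j := by positivity
      have h3 : (2 : ℝ) ^ j * (2 ^ j * δ ^ 2) ≤ 2 ^ j * Q := by nlinarith
      exact le_of_mul_le_mul_left h3 h2
    obtain ⟨j, hj⟩ := pow_unbounded_of_one_lt (Q / δ ^ 2) (one_lt_two)
    rw [div_lt_iff₀ (by positivity)] at hj
    linarith [hall j]
  have hid : ∀ y, τ y = y := by
    intro y
    have := hδ y
    rw [hδz] at this
    exact (dist_eq_zero.1 this).symm
  have h1 := hd x₀ y₀
  have h2 := hd z₀ z₀
  rw [hid] at h1 h2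
  rw [h1, h2, dist_self]; ring

/-- the midpoints of two parallel copies -/
theorem py_mid (hX : CN X) [ProperSpace X] (hY : CN Y) [ProperSpace Y] {φ ψ μ : Y → X}
    (hφ : Isometry φ) (hψ : Isometry ψ) (h : Py φ ψ)
    (hμ : ∀ z x, dist x (μ z) ^ 2 ≤ (dist x (φ z) ^ 2 + dist x (ψ z) ^ 2) / 2 -
      dist (φ z) (ψ z) ^ 2 / 4) : Isometry μ ∧ Py φ μ ∧
    ∀ x y z, dist (φ x) (μ y) ^ 2 = dist (φ z) (ψ z) ^ 2 / 4 + dist x y ^ 2 := by
  -- the distances to the midpoints
  have key : ∀ {φ ψ : Y → X}, Isometry φ → Isometry ψ → Py φ ψ →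
      (∀ z x, dist x (μ z) ^ 2 ≤ (dist x (φ z) ^ 2 + dist x (ψ z) ^ 2) / 2 -
      dist (φ z) (ψ z) ^ 2 / 4) →
      ∀ x y, dist (φ x) (μ y) ^ 2 = dist (φ y) (ψ y) ^ 2 / 4 + dist x y ^ 2 := by
    intro φ ψ hφ hψ h hμ x y
    set W := dist (φ y) (ψ y) with hW
    have hW0 : 0 ≤ W := dist_nonneg
    apply le_antisymm
    · have h1 := hμ y (φ x)
      rw [hφ.dist_eq, h x y y] at h1
      linarith
    · -- distances of the midpoint
      have d1 : dist (φ y) (μ y) ≤ W / 2 := by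
        have h1 := hμ y (φ y)
        rw [dist_self] at h1
        refine (pow_le_pow_iff_left₀ dist_nonneg (by positivity) two_ne_zero).1 ?_
        linarith
      have d2 : dist (ψ y) (μ y) ≤ W / 2 := by
        have h1 := hμ y (ψ y)
        rw [dist_self, dist_comm (ψ y) (φ y)] at h1
        refine (pow_le_pow_iff_left₀ dist_nonneg (by positivity) two_ne_zero).1 ?_
        linarith
      have d3 : ∀ z, W ≤ dist (φ z) (ψ y) := by
        intro z
        refine (pow_le_pow_iff_left₀ hW0 dist_nonneg two_ne_zero).1 ?_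
        rw [h z y y]
        nlinarith [sq_nonneg (dist z y)]
      have d4 : ∀ z, W / 2 ≤ dist (μ y) (φ z) := by
        intro z
        have h1 := dist_triangle (φ z) (μ y) (ψ y)
        have h2 := d3 z
        rw [dist_comm (φ z) (μ y), dist_comm (μ y) (ψ y)] at h1
        linarith
      have d5 : dist (μ y) (φ y) = W / 2 := le_antisymm (by rw [dist_comm]; exact d1) (d4 y)
      have h1 := proj_sq hX hY hφ (p := μ y) (u := y) (fun z => by rw [d5]; exact d4 z) x
      rw [d5, dist_comm (μ y), dist_comm y x] at h1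
      linarith
  have k1 := key hφ hψ h hμ
  have k3 : ∀ x y z, dist (φ x) (μ y) ^ 2 = dist (φ z) (ψ z) ^ 2 / 4 + dist x y ^ 2 := by
    intro x y z
    rw [k1, h.const y z]
  have hiso : Isometry μ := by
    refine Isometry.of_dist_eq fun x y => ?_
    have k2 := key hψ hφ h.symm (fun z x => by
      have := hμ z x
      rw [dist_comm (ψ z) (φ z)]; linarith)
    have h1 := hμ y (μ x)
    rw [dist_comm (μ x) (φ y), dist_comm (μ x) (ψ y), k1, k2, dist_comm (ψ x) (φ x),
      h.const x y, dist_comm y x] at h1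
    have h2 := four hX (φ x) (μ x) (μ y) (φ y)
    rw [k3 x y y, dist_comm (μ x) (φ y), k3 y x y, k3 x x y, dist_comm (μ y) (φ y), k3 y y y,
      hφ.dist_eq, dist_self, dist_self, dist_comm y x] at h2
    have h3 : dist (μ x) (μ y) ^ 2 = dist x y ^ 2 := by
      apply le_antisymm <;> linarith
    exact (pow_left_inj₀ dist_nonneg dist_nonneg two_ne_zero).1 h3
  refine ⟨hiso, fun x y z => ?_, k3⟩
  rw [k3 x y z, k3 z z z, dist_self]; ring

end Pool.Agent.T6.H46.RC
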