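import Pool.Agent.T6.H46.RC.Par2
import Pool.Agent.T6.H46.RR.Split

/-!
# The union of the parallel copies of a minimal convex set is a product
-/

set_option autoImplicit false

open Metric Set Filter Topology
open Pool.Agent.TH60.FP Pool.Agent.TH60.FP.Strip Pool.Agent.Y34.HB Pool.Agent.Y34.EL
open Pool.Agent.T6.H46.RR

namespace Pool.Agent.T6.H46.RC

variable {Y : Type} [MetricSpace Y] {X : Type} [MetricSpace X] {K : Type} [Group K]
  [MulAction K Y] [MulAction K X]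

/-- the midpoint of Bruhat and Tits -/
def Mid (p q m : X) : Prop :=
  ∀ x, dist x m ^ 2 ≤ (dist x p ^ 2 + dist x q ^ 2) / 2 - dist p q ^ 2 / 4

lemma Mid.symm {p q m : X} (h : Mid p q m) : Mid q p m := by
  intro x
  have := h x
  rw [dist_comm q p]; linarith

lemma Mid.left {p q m : X} (h : Mid p q m) : dist p m ^ 2 ≤ dist p q ^ 2 / 4 := by
  have := h p
  rw [dist_self] at this
  linarith

lemma Mid.uniq {p q m m' : X} (h : Mid p q m) (h' : Mid p q m') : m = m' := by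
  have h1 := h.left
  have h2 := h.symm.left
  have h3 := h' m
  rw [dist_comm m p, dist_comm m q] at h3
  rw [dist_comm q p] at h2
  have h4 : dist m m' ^ 2 = 0 := le_antisymm (by linarith) (sq_nonneg _)
  exact dist_eq_zero.1 (pow_eq_zero_iff two_ne_zero |>.1 h4)

lemma Mid.lip (hX : CN X) {x y x' y' m m' : X} (h : Mid x y m) (h' : Mid x' y' m') :
    dist m m' ≤ (dist x x' + dist y y') / 2 := by
  obtain ⟨q, hq⟩ := hX x y'
  have h1 : dist m q ≤ dist y y' / 2 := half_side h hq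
  have h2 : dist q m' ≤ dist x x' / 2 := half_side (Mid.symm hq) h'.symm
  have := dist_triangle m q m'
  linarith

/-- the copies of `ι` -/
def Cp (K : Type) [Group K] [MulAction K Y] [MulAction K X] (ι φ : Y → X) : Prop :=
  Isometry φ ∧ Py ι φ ∧ ∃ A : Subgroup K, A.index ≠ 0 ∧ ∀ a ∈ A, ∀ y, φ (a • y) = a • φ y

section

variable (hX : CN X) [ProperSpace X] (hY : CN Y) [ProperSpace Y] [IsIsometricSMul K Y]
    [IsIsometricSMul K X] (hM : Mn K Y) {ι : Y → X}

include hX hY hM in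
lemma Cp.py {φ ψ : Y → X} (hφ : Cp K ι φ) (hψ : Cp K ι ψ) : Py φ ψ := by
  obtain ⟨h1, h2, A, hA, h3⟩ := hφ
  obtain ⟨h4, h5, B, hB, h6⟩ := hψ
  exact py_trans hX hY hM (A := A ⊓ B) (Subgroup.index_inf_ne_zero hA hB) h1 h4
    (fun a ha => h3 a ha.1) (fun a ha => h6 a ha.2) h2 h5

include hX hY hM in
lemma Cp.mid (hι : Isometry ι) (eι : ∀ (k : K) (y : Y), ι (k • y) = k • ι y) {φ ψ : Y → X}
    (hφ : Cp K ι φ) (hψ : Cp K ι ψ) {x y : Y} {m : X} (hm : Mid (φ x) (ψ y) m) :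
    ∃ μ, Cp K ι μ ∧ ∃ z, μ z = m := by
  have hpy := hφ.py hX hY hM hψ
  obtain ⟨h1, h2, A, hA, h3⟩ := hφ
  obtain ⟨h4, h5, B, hB, h6⟩ := hψ
  choose μ hμ using fun z => hX (φ z) (ψ z)
  obtain ⟨i1, i2, i3⟩ := py_mid hX hY h1 h4 hpy hμ
  obtain ⟨-, -, i4⟩ := py_mid hX hY h4 h1 hpy.symm (fun z => (Mid.symm (hμ z)))
  have hAB : (A ⊓ B).index ≠ 0 := Subgroup.index_inf_ne_zero hA hB
  have hμe : ∀ a ∈ A ⊓ B, ∀ z, μ (a • z) = a • μ z := by
    intro a ha z
    refine Mid.uniq (hμ (a • z)) ?_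
    rw [h3 a ha.1, h6 a ha.2]
    intro v
    have := hμ z (a⁻¹ • v)
    rw [← dist_smul a (a⁻¹ • v), ← dist_smul a (a⁻¹ • v), ← dist_smul a (a⁻¹ • v),
      ← dist_smul a (φ z), smul_inv_smul] at this
    exact this
  refine ⟨μ, ⟨i1, ?_, A ⊓ B, hAB, hμe⟩, ?_⟩
  · exact py_trans hX hY hM hAB hι i1 (fun a _ => eι a) hμe h2.symm i2
  · obtain ⟨n, hn⟩ := hY x y
    refine ⟨n, ?_⟩
    have l1 := Mid.left hn
    have l2 := Mid.left (Mid.symm hn)
    rw [dist_comm y x] at l2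
    have l3 := hm (μ n)
    rw [dist_comm _ (φ x), dist_comm _ (ψ y), i3 x n x, i4 y n x, hpy x y x,
      dist_comm (ψ x) (φ x)] at l3
    have l4 : dist (μ n) m ^ 2 = 0 := le_antisymm (by linarith) (sq_nonneg _)
    exact dist_eq_zero.1 (pow_eq_zero_iff two_ne_zero |>.1 l4)

/-- limits of copies -/
def LCp (K : Type) [Group K] [MulAction K Y] [MulAction K X] (ι φ : Y → X) : Prop :=
  ∃ u : ℕ → Y → X, (∀ n, Cp K ι (u n)) ∧ ∀ y, Tendsto (fun n => u n y) atTop (𝓝 (φ y))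

omit [ProperSpace X] [ProperSpace Y] [IsIsometricSMul K Y] [IsIsometricSMul K X] in
lemma LCp.iso {φ : Y → X} (h : LCp K ι φ) : Isometry φ := by
  obtain ⟨u, hu, hl⟩ := h
  refine Isometry.of_dist_eq fun s t => ?_
  have h1 := (hl s).dist (hl t)
  have h2 : (fun n => dist (u n s) (u n t)) = fun _ => dist s t :=
    funext fun n => (hu n).1.dist_eq s t
  rw [h2] at h1
  exact (tendsto_nhds_unique tendsto_const_nhds h1).symm

include hX hY hM in
lemma LCp.py {φ ψ : Y → X} (hφ : LCp K ι φ) (hψ : LCp K ι ψ) : Py φ ψ := by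
  obtain ⟨u, hu, hul⟩ := hφ
  obtain ⟨v, hv, hvl⟩ := hψ
  intro x y z
  have h1 := ((hul x).dist (hvl y)).pow 2
  have h2 := (((hul z).dist (hvl z)).pow 2).add_const (dist x y ^ 2)
  have h3 : (fun n => dist (u n x) (v n y) ^ 2) =
      fun n => dist (u n z) (v n z) ^ 2 + dist x y ^ 2 :=
    funext fun n => (hu n).py hX hY hM (hv n) x y z
  rw [h3] at h1
  exact tendsto_nhds_unique h1 h2

include hX hY hM in
/-- points of the closure of the union of the copies are on limits of copies -/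
lemma exists_lcp {x : X} (hx : x ∈ closure {p : X | ∃ φ, Cp K ι φ ∧ ∃ y, φ y = p}) :
    ∃ φ, LCp K ι φ ∧ ∃ y, φ y = x := by
  obtain ⟨p, hp, hpx⟩ := mem_closure_iff_seq_limit.1 hx
  choose u hu y hy using hp
  have hd : ∀ n m z, dist (p n) (p m) ^ 2 = dist (u n z) (u m z) ^ 2 + dist (y n) (y m) ^ 2 := by
    intro n m z
    rw [← hy, ← hy]
    exact (hu n).py hX hY hM (hu m) _ _ _
  have hcau := hpx.cauchySeq
  have c1 : CauchySeq y := by
    rw [Metric.cauchySeq_iff] at hcau ⊢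
    intro ε hε
    obtain ⟨N, hN⟩ := hcau ε hε
    refine ⟨N, fun m hm n hn => lt_of_le_of_lt ?_ (hN m hm n hn)⟩
    refine (pow_le_pow_iff_left₀ dist_nonneg dist_nonneg two_ne_zero).1 ?_
    rw [hd m n (y m)]
    nlinarith [sq_nonneg (dist (u m (y m)) (u n (y m)))]
  have c2 : ∀ z, CauchySeq (fun n => u n z) := by
    intro z
    rw [Metric.cauchySeq_iff] at hcau ⊢
    intro ε hε
    obtain ⟨N, hN⟩ := hcau ε hε
    refine ⟨N, fun m hm n hn => lt_of_le_of_lt ?_ (hN m hm n hn)⟩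
    refine (pow_le_pow_iff_left₀ dist_nonneg dist_nonneg two_ne_zero).1 ?_
    rw [hd m n z]
    nlinarith [sq_nonneg (dist (y m) (y n))]
  obtain ⟨y₀, hy₀⟩ := cauchySeq_tendsto_of_complete c1
  choose φ hφ using fun z => cauchySeq_tendsto_of_complete (c2 z)
  refine ⟨φ, ⟨u, hu, hφ⟩, y₀, ?_⟩
  have h1 : Tendsto (fun n => dist (p n) (φ y₀)) atTop (𝓝 0) := by
    have h2 : Tendsto (fun n => dist (y n) y₀ + dist (u n y₀) (φ y₀)) atTop (𝓝 (0 + 0)) :=
      (tendsto_iff_dist_tendsto_zero.1 hy₀).add (tendsto_iff_dist_tendsto_zero.1 (hφ y₀))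
    rw [add_zero] at h2
    refine squeeze_zero (fun _ => dist_nonneg) (fun n => ?_) h2
    have h3 := dist_triangle (p n) (u n y₀) (φ y₀)
    have h4 : dist (p n) (u n y₀) = dist (y n) y₀ := by
      rw [← hy, (hu n).1.dist_eq]
    linarith
  exact tendsto_nhds_unique (tendsto_iff_dist_tendsto_zero.2 h1) hpx

/-- the space of the copies -/
def ZZ (K : Type) [Group K] [MulAction K Y] [MulAction K X] (ι : Y → X) : Type :=
  {φ : Y → X // LCp K ι φ}

/-- the distance of two copies -/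
@[reducible] def ZZm (hX : CN X) (hY : CN Y) (hM : Mn K Y) (o : Y) : MetricSpace (ZZ K ι) where
  dist a b := dist (a.1 o) (b.1 o)
  dist_self a := dist_self _
  dist_comm a b := dist_comm _ _
  dist_triangle a b d := dist_triangle _ _ _
  eq_of_dist_eq_zero := by
    intro a b h
    apply Subtype.ext
    funext t
    have h1 := (a.2.py hX hY hM b.2).const t o
    rw [show dist (a.1 o) (b.1 o) = 0 from h] at h1
    exact dist_eq_zero.1 h1

include hX hY hM in
theorem split_copies (hι : Isometry ι) (eι : ∀ (k : K) (y : Y), ι (k • y) = k • ι y) (o : Y)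
    (hcl : closure {p : X | ∃ φ, Cp K ι φ ∧ ∃ y, φ y = p} = univ) :
    (∀ x, ∃ y, ι y = x) ∨ ∃ (Z : Type) (_ : MetricSpace Z) (_ : Nontrivial Z) (e : X ≃ Z × Y),
      ∀ x x' : X, dist x x' ^ 2 = dist (e x).1 (e x').1 ^ 2 + dist (e x).2 (e x').2 ^ 2 := by
  let _ : MetricSpace (ZZ K ι) := ZZm hX hY hM o
  let F : ZZ K ι × Y → X := fun p => p.1.1 p.2
  have hF : ∀ p p' : ZZ K ι × Y, dist (F p) (F p') ^ 2 = dist p.1 p'.1 ^ 2 + dist p.2 p'.2 ^ 2 :=
    fun p p' => p.1.2.py hX hY hM p'.1.2 p.2 p'.2 o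
  have hinj : Function.Injective F := by
    intro p p' h
    have h1 := hF p p'
    rw [h, dist_self] at h1
    have h2 := sq_nonneg (dist p.1 p'.1)
    have h3 := sq_nonneg (dist p.2 p'.2)
    have h4 : dist p.1 p'.1 ^ 2 = 0 := by nlinarith
    have h5 : dist p.2 p'.2 ^ 2 = 0 := by nlinarith
    exact Prod.ext (dist_eq_zero.1 (pow_eq_zero_iff two_ne_zero |>.1 h4))
      (dist_eq_zero.1 (pow_eq_zero_iff two_ne_zero |>.1 h5))
  have hsurj : ∀ x : X, ∃ (a : ZZ K ι) (y : Y), a.1 y = x := by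
    intro x
    obtain ⟨φ, hφ, y, hy⟩ := exists_lcp hX hY hM (ι := ι) (K := K) (x := x)
      (by rw [hcl]; trivial)
    exact ⟨⟨φ, hφ⟩, y, hy⟩
  have hbij : Function.Bijective F := ⟨hinj, fun x => by
    obtain ⟨a, t, h⟩ := hsurj x
    exact ⟨(a, t), h⟩⟩
  have hιc : Cp K ι ι := ⟨hι, py_self hι, ⊤, by simp, fun a _ => eι a⟩
  rcases subsingleton_or_nontrivial (ZZ K ι) with hs | hn
  · left
    intro x
    obtain ⟨a, t, h⟩ := hsurj x
    have : a = ⟨ι, fun _ => ι, fun _ => hιc, fun _ => tendsto_const_nhds⟩ := Subsingleton.elim _ _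
    rw [this] at h
    exact ⟨t, h⟩
  · right
    refine ⟨ZZ K ι, inferInstance, hn, (Equiv.ofBijective F hbij).symm, fun x x' => ?_⟩
    have h1 := hF ((Equiv.ofBijective F hbij).symm x) ((Equiv.ofBijective F hbij).symm x')
    have e : ∀ z, F ((Equiv.ofBijective F hbij).symm z) = z := fun z =>
      (Equiv.ofBijective F hbij).apply_symm_apply z
    rw [e, e] at h1
    exact h1

include hX hY hM in
/-- in a geodesically complete space the copies fill the space if they are coarsely dense -/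
theorem closure_copies (hGC : GC X) (hι : Isometry ι)
    (eι : ∀ (k : K) (y : Y), ι (k • y) = k • ι y) (o : Y) {D : ℝ}
    (hD : ∀ x, infDist x {p : X | ∃ φ, Cp K ι φ ∧ ∃ y, φ y = p} ≤ D) :
    closure {p : X | ∃ φ, Cp K ι φ ∧ ∃ y, φ y = p} = univ := by
  set P := {p : X | ∃ φ, Cp K ι φ ∧ ∃ y, φ y = p} with hP
  have hιc : Cp K ι ι := ⟨hι, py_self hι, ⊤, by simp, fun a _ => eι a⟩
  have hne : P.Nonempty := ⟨ι o, ι, hιc, o, rfl⟩
  refine eq_univ_of_convex hX hGC hne.closure isClosed_closure ?_ (D := D)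
    (fun x => by rw [infDist_closure]; exact hD x)
  intro x hx y hy m hm
  rw [Metric.mem_closure_iff] at hx hy ⊢
  intro ε hε
  obtain ⟨x', ⟨φ, hφ, u, rfl⟩, hx'⟩ := hx ε hε
  obtain ⟨y', ⟨ψ, hψ, v, rfl⟩, hy'⟩ := hy ε hε
  obtain ⟨m', hm'⟩ := hX (φ u) (ψ v)
  obtain ⟨μ, hμ, z, hz⟩ := hφ.mid hX hY hM hι eι hψ hm'
  refine ⟨m', ⟨μ, hμ, z, hz⟩, ?_⟩
  have := Mid.lip hX (show Mid x y m from hm) (show Mid (φ u) (ψ v) m' from hm')
  linarith

end

end Pool.Agent.T6.H46.RC
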