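import Pool.Agent.T6.H46.RC.Par3
import Pool.Agent.T6.H46.RC.Key

/-!
# A convex cocompact subgroup which is commensurated splits the space
-/

set_option autoImplicit false

open Metric Set Filter Topology
open Pool.Agent.TH60.FP Pool.Agent.TH60.FP.Strip Pool.Agent.Y34.HB Pool.Agent.Y34.EL
open Pool.Agent.T6.H46.RR

namespace Pool.Agent.T6.H46.RC

variable {X : Type} [MetricSpace X] {G : Type} [Group G] [MulAction G X]

/-- there is a minimal closed convex invariant subset -/
theorem exists_minimal {K : Subgroup G} {B : Set X} (hB : CC K B) :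
    ∃ B₀, B₀ ⊆ B ∧ ∃ h₀ : CC K B₀, @Mn K _ B₀ _ (bact h₀) := by
  obtain ⟨C, hC, hcov⟩ := hB.cc
  set F : Set (Set X) := {S | S ⊆ B ∧ IsClosed S ∧ S.Nonempty ∧
    (∀ p ∈ S, ∀ q ∈ S, ∀ m, dist p m + dist m q = dist p q → m ∈ S) ∧
    ∀ g ∈ K, ∀ x ∈ S, g • x ∈ S} with hF
  obtain ⟨B₀, hB₀, hmin⟩ := zorn_superset_nonempty F (by
    intro c hc hchain hne
    refine ⟨⋂₀ c, ⟨?_, ?_, ?_, ?_, ?_⟩, fun s hs => sInter_subset_of_mem hs⟩
    · obtain ⟨s, hs⟩ := hne
      exact (sInter_subset_of_mem hs).trans (hc hs).1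
    · exact isClosed_sInter fun s hs => (hc hs).2.1
    · have : Nonempty c := hne.to_subtype
      have h1 : (⋂ i : c, (i : Set X) ∩ C).Nonempty := by
        refine IsCompact.nonempty_iInter_of_directed_nonempty_isCompact_isClosed
          (fun i : c => (i : Set X) ∩ C) ?_ ?_ ?_ ?_
        · intro i j
          rcases hchain.total i.2 j.2 with h | h
          · exact ⟨i, Subset.rfl, inter_subset_inter_left _ h⟩
          · exact ⟨j, inter_subset_inter_left _ h, Subset.rfl⟩
        · intro i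
          obtain ⟨h1, h2, ⟨x, hx⟩, h3, h4⟩ := hc i.2
          obtain ⟨g, hg, hgx⟩ := hcov x (h1 hx)
          exact ⟨g • x, h4 g hg x hx, hgx⟩
        · intro i
          exact hC.inter_left (hc i.2).2.1
        · intro i
          exact (hc i.2).2.1.inter hC.isClosed
      obtain ⟨x, hx⟩ := h1
      rw [mem_iInter] at hx
      exact ⟨x, fun s hs => (hx ⟨s, hs⟩).1⟩
    · intro p hp q hq m hm s hs
      exact (hc hs).2.2.2.1 p (hp s hs) q (hq s hs) m hm
    · intro g hg x hx s hs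
      exact (hc hs).2.2.2.2 g hg x (hx s hs)) B ⟨Subset.rfl, hB.closed, hB.ne, hB.conv, hB.inv⟩
  obtain ⟨h1, h2, h3, h4, h5⟩ := hmin.prop
  have h₀ : CC K B₀ := ⟨h3, h2, h4, h5, C, hC, fun x hx => hcov x (h1 hx)⟩
  refine ⟨B₀, hB₀, h₀, ?_⟩
  letI := bact h₀
  intro S hS hSne hSc hSi
  have hS' : (Subtype.val '' S : Set X) ∈ F := by
    refine ⟨?_, ?_, hSne.image _, ?_, ?_⟩
    · rintro _ ⟨x, -, rfl⟩
      exact h1 x.2
    · exact h2.isClosedEmbedding_subtypeVal.isClosedMap S hS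
    · rintro _ ⟨p, hp, rfl⟩ _ ⟨q, hq, rfl⟩ m hm
      exact ⟨⟨m, h4 p p.2 q q.2 m hm⟩, hSc p hp q hq _ hm, rfl⟩
    · rintro g hg _ ⟨x, hx, rfl⟩
      exact ⟨(⟨g, hg⟩ : K) • x, hSi ⟨g, hg⟩ x hx, rfl⟩
  have hsub : (Subtype.val '' S : Set X) ⊆ B₀ := by
    rintro _ ⟨x, -, rfl⟩
    exact x.2
  have h6 := hmin.le_of_le hS' hsub
  refine eq_univ_of_forall fun x => ?_
  obtain ⟨y, hy, hyx⟩ := h6 x.2
  rwa [← Subtype.ext hyx]

lemma Bd.restrict (hG : Geo X G) {K : Subgroup G} {B B₀ : Set X} (hB : CC K B)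
    (h₀ : CC K B₀) (hsub : B₀ ⊆ B) {g : G} (hg : Bd B g) : Bd B₀ g := by
  have := hG.isom
  have := hG.proper
  obtain ⟨r, hr⟩ := hg
  obtain ⟨o, ho⟩ := h₀.ne
  obtain ⟨D, hD0, hD⟩ := cc_near hG hB (hsub ho)
  refine ⟨r + D, fun x hx => ?_⟩
  obtain ⟨y, hy, hy'⟩ := hB.closed.exists_infDist_eq_dist hB.ne (g⁻¹ • x)
  obtain ⟨k, hk, hk'⟩ := hD y hy
  have h1 := hr x (hsub hx)
  unfold ph at h1 ⊢
  rw [hy'] at h1
  have h2 := infDist_le_dist_of_mem (x := g⁻¹ • x) (h₀.inv k hk o ho)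
  have h3 := dist_triangle (g⁻¹ • x) y (k • o)
  linarith

lemma index_IK (hG : Geo X G) {K : Subgroup G} {B : Set X} (hB : CC K B) {g : G} (hg : Bd B g) :
    (IK K g).index ≠ 0 := by
  have := hG.isom
  obtain ⟨r, hr⟩ := hg
  obtain ⟨o, ho⟩ := hB.ne
  obtain ⟨R₁, hR₁⟩ := coarse hG hB ho g r
  have hF := finite_short hG o R₁
  have hF' : {s : K | dist o ((s : G) • o) ≤ R₁}.Finite :=
    Set.Finite.of_injOn (f := fun s : K => (s : G)) (fun s hs => hs)
      (Subtype.val_injective.injOn) hF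
  have hfin : (univ : Set (K ⧸ IK K g)).Finite := by
    refine (hF'.image (fun s : K => (s : K ⧸ IK K g))).subset ?_
    intro q _
    obtain ⟨f, rfl⟩ := QuotientGroup.mk_surjective q
    obtain ⟨a, ha, ha'⟩ := hR₁ ((f⁻¹ : K) • o) (hB.inv _ (f⁻¹).2 o ho)
      (hr _ (hB.inv _ (f⁻¹).2 o ho))
    refine ⟨f * a, ?_, ?_⟩
    · show dist o (((f * a : K) : G) • o) ≤ R₁
      have e : ((f * a : K) : G) • o = (f : G) • (a : G) • o := by
        rw [smul_smul]; rfl
      have e2 : dist ((f⁻¹ : K) • o) ((a : G) • o) = dist o ((f : G) • (a : G) • o) := by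
        rw [← dist_smul (f : G) ((f⁻¹ : K) • o)]
        congr 1
        show (f : G) • ((f⁻¹ : K) : G) • o = o
        rw [smul_smul, ← Subgroup.coe_mul, mul_inv_cancel]; simp
      rw [e, ← e2]; exact ha'
    · show ((f * a : K) : K ⧸ IK K g) = (f : K ⧸ IK K g)
      rw [QuotientGroup.eq]
      have e : (f * a)⁻¹ * f = a⁻¹ := by group
      rw [e]
      exact (IK K g).inv_mem ha
  have : Finite (K ⧸ IK K g) := Set.finite_univ_iff.1 hfin
  exact Subgroup.index_ne_zero_of_finite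

lemma infDist_range {B : Set X} [IsIsometricSMul G X] (g : G) (x : X) :
    infDist x (range (fun y : B => g • (y : X))) = infDist (g⁻¹ • x) B := by
  have e : range (fun y : B => g • (y : X)) = (fun z => g • z) '' B := by
    ext z
    constructor
    · rintro ⟨y, rfl⟩
      exact ⟨y, y.2, rfl⟩
    · rintro ⟨y, hy, rfl⟩
      exact ⟨⟨y, hy⟩, rfl⟩
  rw [e]
  have := infDist_image (isometry_smul X g) (x := g⁻¹ • x) (t := B)
  rw [smul_inv_smul] at this
  exact this

/-- the translates of a minimal commensurated convex set are parallel copies -/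
lemma exists_copy (hG : Geo X G) {K : Subgroup G} {B : Set X} (hB : CC K B)
    (hM : @Mn K _ B _ (bact hB)) (hbd : ∀ g : G, Bd B g) (g : G) (y : B) :
    ∃ φ, @Cp B _ X _ K _ (bact hB) _ Subtype.val φ ∧ ∃ z, φ z = g • (y : X) := by
  have := hG.isom
  have := hG.proper
  letI := bact hB
  have hGB := geo_sub hG hB
  have := hGB.proper
  have := hGB.isom
  have hY := hGB.cn
  have hX := hG.cn
  have hι : Isometry (Subtype.val : B → X) := isometry_subtype_coe
  have hγ : Isometry (fun y : B => g • (y : X)) := (isometry_smul X g).comp hι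
  have hrι : range (Subtype.val : B → X) = B := Subtype.range_coe
  obtain ⟨τ, hτ, hτs, hw0, hd⟩ := pair hX hY hι hγ (w := infDist (y : X)
      (range (fun y : B => g • (y : X)))) (w' := infDist (g • (y : X)) (range (Subtype.val : B → X)))
    (fun x => by
      refine hM.const' hY (index_IK hG hB (hbd g))
        ((continuous_infDist_pt _).comp hι.continuous) (cvx_infDist hX hY hι hγ)
        (fun _ => infDist_nonneg) ?_ x y
      intro a ha z
      show infDist ((a : G) • (z : X)) (range (fun y : B => g • (y : X))) =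
        infDist (z : X) (range (fun y : B => g • (y : X)))
      rw [infDist_range, infDist_range]
      exact ph_inv hB (mem_IK.1 ha) _)
    (fun x => by
      refine hM.const' hY (f := fun x : B => infDist (g • (x : X)) (range (Subtype.val : B → X)))
        (index_IK hG hB (hbd g⁻¹))
        ((continuous_infDist_pt _).comp hγ.continuous) (cvx_infDist hX hY hγ hι)
        (fun _ => infDist_nonneg) ?_ x y
      intro a ha z
      show infDist (g • (a : G) • (z : X)) (range (Subtype.val : B → X)) =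
        infDist (g • (z : X)) (range (Subtype.val : B → X))
      rw [hrι]
      have h1 := ph_inv hB (h := g⁻¹) (mem_IK.1 ha) (z : X)
      unfold ph at h1
      rw [inv_inv] at h1
      exact h1) y
  set w := infDist (y : X) (range (fun y : B => g • (y : X))) with hw
  refine ⟨fun z => g • (τ z : X), ⟨hγ.comp hτ, ?_, IK K g, index_IK hG hB (hbd g), ?_⟩, ?_⟩
  · intro x z v
    have h1 := hd x (τ z)
    have h2 := hd v (τ v)
    rw [hτ.dist_eq] at h1
    rw [dist_self] at h2
    show dist (x : X) (g • (τ z : X)) ^ 2 = dist (v : X) (g • (τ v : X)) ^ 2 + dist x z ^ 2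
    rw [h1, h2]; ring
  · intro a ha z
    have h1 := hd (a • z) ((⟨g⁻¹ * a * g, mem_IK.1 ha⟩ : K) • τ z)
    have h2 := hd z (τ z)
    have e1 : g • (((⟨g⁻¹ * a * g, mem_IK.1 ha⟩ : K) • τ z : B) : X) =
        (a : G) • g • (τ z : X) := by
      show g • (g⁻¹ * (a : G) * g) • (τ z : X) = _
      rw [smul_smul, smul_smul]; congr 1; group
    have e2 : dist ((a • z : B) : X) (g • (((⟨g⁻¹ * a * g, mem_IK.1 ha⟩ : K) • τ z : B) : X)) =
        dist (z : X) (g • (τ z : X)) := by
      rw [e1]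
      show dist ((a : G) • (z : X)) ((a : G) • g • (τ z : X)) = _
      rw [dist_smul]
    rw [e2, h2, dist_self] at h1
    have h3 : dist (τ (a • z)) ((⟨g⁻¹ * a * g, mem_IK.1 ha⟩ : K) • τ z) ^ 2 = 0 := by linarith
    have h4 := dist_eq_zero.1 (pow_eq_zero_iff two_ne_zero |>.1 h3)
    show g • (τ (a • z) : X) = (a : G) • g • (τ z : X)
    rw [h4, e1]
  · obtain ⟨z, hz⟩ := hτs y
    exact ⟨z, by show g • (τ z : X) = _; rw [hz]⟩

/-- **Splitting.**  If `B` is near all its translates then a minimal invariant subset of `B` is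
everything or a factor of the space. -/
theorem split_of_bd (hG : Geo X G) (hGC : GC X) {K : Subgroup G} {B : Set X} (hB : CC K B)
    (hbd : ∀ g : G, Bd B g) : ∃ B₀ : Set X, B₀ ⊆ B ∧ CC K B₀ ∧ ((∀ x, x ∈ B₀) ∨
      ∃ (Z : Type) (_ : MetricSpace Z) (_ : Nontrivial Z) (e : X ≃ Z × B₀),
      ∀ x x' : X, dist x x' ^ 2 = dist (e x).1 (e x').1 ^ 2 + dist (e x).2 (e x').2 ^ 2) := by
  obtain ⟨B₀, hsub, h₀, hM⟩ := exists_minimal hB
  refine ⟨B₀, hsub, h₀, ?_⟩
  have hbd₀ : ∀ g : G, Bd B₀ g := fun g => (hbd g).restrict hG hB h₀ hsub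
  have := hG.isom
  have := hG.proper
  letI := bact h₀
  have hGB := geo_sub hG h₀
  have := hGB.proper
  have := hGB.isom
  have hY := hGB.cn
  have hX := hG.cn
  have hι : Isometry (Subtype.val : B₀ → X) := isometry_subtype_coe
  have : IsIsometricSMul K X := ⟨fun k x y => edist_smul_left (k : G) x y⟩
  obtain ⟨o, ho⟩ := h₀.ne
  obtain ⟨C, hC, hcov⟩ := hG.cc
  obtain ⟨D, hD⟩ := hC.isBounded.subset_closedBall o
  have hcl := closure_copies hX hY hM hGC hι (fun k y => rfl) ⟨o, ho⟩ (D := D) (by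
    intro x
    obtain ⟨g, hg⟩ := hcov x
    have h1 := mem_closedBall.1 (hD hg)
    rw [← dist_smul g⁻¹, inv_smul_smul] at h1
    refine (infDist_le_dist_of_mem ?_).trans h1
    exact exists_copy hG h₀ hM hbd₀ g⁻¹ ⟨o, ho⟩)
  rcases split_copies hX hY hM hι (fun k y => rfl) ⟨o, ho⟩ hcl with h | h
  · left
    intro x
    obtain ⟨y, hy⟩ := h x
    rw [← hy]; exact y.2
  · exact Or.inr h

end Pool.Agent.T6.H46.RC
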