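import Pool.Agent.T6.H46.RC.Near

/-!
# Segments with distant projections pass near an axis without half-planes
-/

set_option autoImplicit false

open Metric Set Filter Topology
open Pool.Agent.TH60.FP Pool.Agent.TH60.FP.Strip Pool.Agent.Y34.HB Pool.Agent.Y34.EL

namespace Pool.Agent.T6.H46.RC

variable {X : Type} [MetricSpace X]

lemma NL_neg {T : ℝ} {c : ℝ → X} {u : ℝ} {x : X} :
    NL T (fun t => c (-t)) u x ↔ NR T c (-u) x := by
  unfold NL NR
  have e : -(u - T) = -u + T := by ring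
  simp only [e]

lemma NR_neg {T : ℝ} {c : ℝ → X} {u : ℝ} {x : X} :
    NR T (fun t => c (-t)) u x ↔ NL T c (-u) x := by
  unfold NL NR
  have e : -(u + T) = -u - T := by ring
  simp only [e]

lemma RP.neg {c : ℝ → X} {τ R T : ℝ} (h : RP c τ R T) : RP (fun t => c (-t)) τ R T := by
  refine ⟨h.hτ, h.hT, h.hR, fun i p q hp hq => ?_⟩
  have e : -((i : ℝ) * τ) = ((-i : ℤ) : ℝ) * τ := by push_cast; ring
  rw [NL_neg, e] at hp
  rw [NR_neg, e] at hq
  obtain ⟨m, h1, h2⟩ := h.pass (-i) q p hq hp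
  refine ⟨m, ?_, ?_⟩
  · rw [dist_comm p m, dist_comm m q, dist_comm p q, add_comm]; exact h1
  · show dist (c (-(i * τ))) m ≤ R
    rw [e]; exact h2

lemma neg_iso {c : ℝ → X} (hc : Isometry c) : Isometry (fun t => c (-t)) := by
  intro s t
  show edist (c (-s)) (c (-t)) = edist s t
  rw [hc.edist_eq, edist_neg_neg]

lemma Pj.neg {c : ℝ → X} {x : X} {s : ℝ} (h : Pj c x s) : Pj (fun t => c (-t)) x (-s) := by
  intro t
  show dist x (c (- -s)) ≤ dist x (c (-t))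
  rw [neg_neg]
  exact h (-t)

theorem near_right (hX : CN X) [ProperSpace X] {c : ℝ → X} (hc : Isometry c) {τ R T : ℝ}
    (hP : RP c τ R T) : ∃ D₀ : ℝ, 0 ≤ D₀ ∧ ∀ (x : X) (s : ℝ) (i : ℤ), Pj c x s →
      i * τ ≤ s - D₀ → NR T c (i * τ) x := by
  obtain ⟨D₀, h0, h1⟩ := near_left hX (neg_iso hc) hP.neg
  refine ⟨D₀, h0, fun x s i hs hi => ?_⟩
  have h2 := h1 x (-s) (-i) hs.neg (by push_cast; linarith)
  rw [NL_neg] at h2
  convert h2 using 1
  push_cast; ring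

/-- segments with distant projections pass near the points `c (i τ)` -/
def Pass (c : ℝ → X) (τ R D : ℝ) : Prop :=
  Isometry c ∧ 0 < τ ∧ 0 ≤ R ∧ 0 ≤ D ∧ ∀ (x y : X) (s t : ℝ) (i : ℤ), Pj c x s → Pj c y t →
    s + D ≤ i * τ → i * τ + D ≤ t → ∃ m, dist x m + dist m y = dist x y ∧ dist (c (i * τ)) m ≤ R

lemma Pass.neg {c : ℝ → X} {τ R D : ℝ} (h : Pass c τ R D) : Pass (fun t => c (-t)) τ R D := by
  obtain ⟨h1, h2, h3, h4, h5⟩ := h
  refine ⟨neg_iso h1, h2, h3, h4, fun x y s t i hx hy hs ht => ?_⟩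
  have e : -((i : ℝ) * τ) = ((-i : ℤ) : ℝ) * τ := by push_cast; ring
  have hx' := hx.neg
  have hy' := hy.neg
  simp only [neg_neg] at hx' hy'
  obtain ⟨m, h6, h7⟩ := h5 y x (-t) (-s) (-i) hy' hx' (by push_cast; linarith)
    (by push_cast; linarith)
  refine ⟨m, ?_, ?_⟩
  · rw [dist_comm x m, dist_comm m y, dist_comm x y, add_comm]; exact h6
  · show dist (c (-(i * τ))) m ≤ R
    rw [e]; exact h7

theorem pass_of_rp (hX : CN X) [ProperSpace X] {c : ℝ → X} (hc : Isometry c) {τ R T : ℝ}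
    (hP : RP c τ R T) : ∃ D : ℝ, Pass c τ R D := by
  obtain ⟨D₁, h1, h2⟩ := near_left hX hc hP
  obtain ⟨D₂, h3, h4⟩ := near_right hX hc hP
  refine ⟨D₁ + D₂, hc, hP.hτ, hP.hR, by linarith, fun x y s t i hx hy hs ht => ?_⟩
  exact hP.pass i x y (h2 x s i hx (by linarith)) (h4 y t i hy (by linarith))

variable {K : Type} [Group K] [MulAction K X] [IsIsometricSMul K X]

lemma axis_zpow {k : K} {τ : ℝ} {c : ℝ → X} (hk : Axis k τ c) (i : ℤ) (t : ℝ) :
    k ^ i • c t = c (t + i * τ) := by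
  have hnat : ∀ (n : ℕ) (t : ℝ), k ^ n • c t = c (t + n * τ) := by
    intro n
    induction n with
    | zero => intro t; simp
    | succ n ih =>
      intro t
      rw [pow_succ, mul_smul, hk.2, ih]
      congr 1; push_cast; ring
  obtain ⟨n, hn | hn⟩ := i.eq_nat_or_neg
  · rw [hn, zpow_natCast, hnat]; push_cast; rfl
  · rw [hn, zpow_neg, zpow_natCast, inv_smul_eq_iff, hnat]
    congr 1; push_cast; ring

lemma on_smul_iff (g : K) {o p y : X} {T : ℝ} : On (g • o) (g • p) T (g • y) ↔ On o p T y := by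
  unfold On
  rw [dist_smul, dist_smul, dist_smul]

theorem rp_of_axis (hX : CN X) [ProperSpace X] {k : K} {τ : ℝ} {c : ℝ → X} (hτ : 0 < τ)
    (hk : Axis k τ c) (hHP : HP c = ∅) : ∃ R T : ℝ, RP c τ R T := by
  obtain ⟨R, T, hT, hro⟩ := t_ro X hX c hk.1 hHP
  refine ⟨max R 0, T, hτ, hT, le_max_right _ _, fun i p q hp hq => ?_⟩
  have hmv : ∀ t, k ^ (-i) • c (i * τ + t) = c t := by
    intro t
    rw [axis_zpow hk]
    congr 1; push_cast; ring
  have hmv0 : k ^ (-i) • c (i * τ) = c 0 := by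
    have := hmv 0
    rwa [add_zero] at this
  have hd : ∀ r : X, dist (c 0) (k ^ (-i) • r) = dist (c (i * τ)) r := by
    intro r
    rw [← hmv0, dist_smul]
  have hb : ∀ y : X, k ^ (-i) • ((k ^ (-i))⁻¹ • y) = y := fun y => smul_inv_smul _ _
  obtain ⟨m, hm1, hm2⟩ := hro (k ^ (-i) • p) (k ^ (-i) • q) (by rw [hd]; exact hp.1)
    (by rw [hd]; exact hq.1) (by
      intro y hy
      rw [← hb y, ← hmv0, on_smul_iff] at hy
      have h1 := hp.2 _ hy
      have h2 := hmv (-T)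
      rw [← hb y, ← h2, dist_smul]
      exact h1) (by
      intro y hy
      rw [← hb y, ← hmv0, on_smul_iff] at hy
      have h1 := hq.2 _ hy
      have h2 := hmv T
      rw [← hb y, ← h2, dist_smul]
      exact h1)
  refine ⟨(k ^ (-i))⁻¹ • m, ?_, ?_⟩
  · rw [← dist_smul (k ^ (-i)) p, ← dist_smul (k ^ (-i)) _ q, ← dist_smul (k ^ (-i)) p q, hb]
    exact hm1
  · rw [← hd, hb]
    exact hm2.trans (le_max_left _ _)

theorem pass_of_axis (hX : CN X) [ProperSpace X] {k : K} {τ : ℝ} {c : ℝ → X} (hτ : 0 < τ)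
    (hk : Axis k τ c) (hHP : HP c = ∅) : ∃ R D : ℝ, Pass c τ R D := by
  obtain ⟨R, T, h⟩ := rp_of_axis hX hτ hk hHP
  obtain ⟨D, h'⟩ := pass_of_rp hX hk.1 h
  exact ⟨R, D, h'⟩

end Pool.Agent.T6.H46.RC
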