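import Pool.Agent.T6.H46.RC.Ind

/-!
# Convex functions which are invariant under commutators
-/

set_option autoImplicit false

open Metric Set Filter Topology
open Pool.Agent.TH60.FP Pool.Agent.TH60.FP.Strip Pool.Agent.Y34.HB Pool.Agent.Y34.EL
open Pool.Agent.T6.H46.RR

namespace Pool.Agent.T6.H46.RC

section

variable {X : Type} [MetricSpace X] {K : Type} [Group K] [MulAction K X]

lemma le_on_seg {φ : X → ℝ} (hC : ∀ x y m, dist x m + dist m y = dist x y →
    dist x y * φ m ≤ dist m y * φ x + dist x m * φ y) {x y m : X} {r : ℝ} (hx : φ x = r)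
    (hy : φ y = r) (hm : dist x m + dist m y = dist x y) : φ m ≤ r := by
  rcases eq_or_lt_of_le (dist_nonneg (x := x) (y := y)) with h0 | h0
  · have h1 : dist x m = 0 := by
      have := dist_nonneg (x := x) (y := m)
      have := dist_nonneg (x := m) (y := y)
      linarith
    rw [← dist_eq_zero.1 h1, hx]
  · have h1 := hC x y m hm
    rw [hx, hy, ← add_mul] at h1
    have h2 : dist m y + dist x m = dist x y := by linarith
    rw [h2] at h1
    exact le_of_mul_le_mul_left h1 h0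

/-- a convex function is constant on the axis of a rank one isometry if it is invariant under the
commutators of the powers with an independent element -/
theorem comm_const (hG : Geo X K) {k : K} {τ : ℝ} {c : ℝ → X} (hτ : 0 < τ) (hk : Axis k τ c)
    (hHP : HP c = ∅) (φ : X → ℝ) (hL : ∀ x y, |φ x - φ y| ≤ dist x y)
    (hC : ∀ x y m, dist x m + dist m y = dist x y → dist x y * φ m ≤ dist m y * φ x +
      dist x m * φ y) {b : K} (hb : ∀ l : ℕ, 0 < l → b ^ l ∉ Subgroup.zpowers k) {l : ℕ}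
    (hl : 0 < l) (hN : ∀ n : ℤ, φ ((k ^ (l * n) * b * k ^ (-(l * n)) * b⁻¹) • c 0) = φ (c 0))
    (t : ℝ) : φ (c t) = φ (c 0) := by
  have := hG.isom
  have := hG.proper
  have hX := hG.cn
  obtain ⟨R, D, hP⟩ := pass_of_axis hX hτ hk hHP
  have hno := indep_conj hG hτ hk hHP hb
  obtain ⟨S, hS0, hS⟩ := qc_bound hG hk hP (A := Subgroup.zpowers (b * k * b⁻¹))
    ((qc_zpowers hX hτ (axis_conj hk b)).change hX _) hno
  obtain ⟨hc, -, hR, hD, hpass⟩ := hP
  have hl' : (1 : ℝ) ≤ l := by exact_mod_cast hl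
  -- projections
  have hproj : ∀ n : ℤ, ∃ s, Pj c ((k ^ (l * n) * b * k ^ (-(l * n)) * b⁻¹) • c 0) s ∧
      |s - l * n * τ| ≤ S := by
    intro n
    obtain ⟨s, hs⟩ := exists_pj hc ((k ^ (l * n) * b * k ^ (-(l * n)) * b⁻¹) • c 0)
    refine ⟨s, hs, ?_⟩
    have e : (k ^ (l * n) * b * k ^ (-(l * n)) * b⁻¹) • c 0 =
        k ^ (l * n) • (b * k ^ (-(l * n)) * b⁻¹) • c 0 := by
      rw [smul_smul]; congr 1; group
    rw [e] at hs
    have h1 := pj_smul hk _ hs
    have h2 := hS (b * k ^ (-(l * n)) * b⁻¹) (by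
      rw [← conj_zpow]
      exact Subgroup.mem_zpowers_iff.2 ⟨_, rfl⟩) _ h1
    push_cast at h2
    exact h2
  have hpos : ∀ i : ℤ, D ≤ i * τ → φ (c (i * τ)) ≤ φ (c 0) + R := by
    intro i hi
    obtain ⟨n, hn⟩ := exists_nat_gt ((i * τ + D + S) / τ)
    rw [div_lt_iff₀ hτ] at hn
    obtain ⟨s, hs, hs'⟩ := hproj n
    rw [abs_le] at hs'
    push_cast at hs'
    have h1 : (n : ℝ) * τ ≤ l * n * τ := by
      have : (n : ℝ) ≤ l * n := by nlinarith [(Nat.cast_nonneg n : (0 : ℝ) ≤ n)]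
      exact mul_le_mul_of_nonneg_right this hτ.le
    obtain ⟨m, hm, hm'⟩ := hpass (c 0) _ 0 s i (pj_self 0) hs (by linarith) (by linarith)
    have h2 := le_on_seg hC rfl (hN n) hm
    have h3 := hL (c (i * τ)) m
    rw [abs_le] at h3
    linarith
  have hneg : ∀ i : ℤ, i * τ ≤ -D → φ (c (i * τ)) ≤ φ (c 0) + R := by
    intro i hi
    obtain ⟨n, hn⟩ := exists_nat_gt ((-(i * τ) + D + S) / τ)
    rw [div_lt_iff₀ hτ] at hn
    obtain ⟨s, hs, hs'⟩ := hproj (-n)
    rw [abs_le] at hs'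
    push_cast at hs'
    have h1 : (n : ℝ) * τ ≤ l * n * τ := by
      have : (n : ℝ) ≤ l * n := by nlinarith [(Nat.cast_nonneg n : (0 : ℝ) ≤ n)]
      exact mul_le_mul_of_nonneg_right this hτ.le
    obtain ⟨m, hm, hm'⟩ := hpass _ (c 0) s 0 i hs (pj_self 0) (by linarith) (by linarith)
    have h2 := le_on_seg hC (hN (-n)) rfl hm
    have h3 := hL (c (i * τ)) m
    rw [abs_le] at h3
    linarith
  have hint : ∀ i : ℤ, φ (c (i * τ)) ≤ φ (c 0) + R + D := by
    intro i
    rcases le_total D (i * τ) with h | h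
    · linarith [hpos i h]
    rcases le_total (i * τ) (-D) with h' | h'
    · linarith [hneg i h']
    · have h3 := hL (c (i * τ)) (c 0)
      rw [hc.dist_eq, Real.dist_eq, sub_zero, abs_le] at h3
      have h4 : |(i : ℝ) * τ| ≤ D := abs_le.2 ⟨h', h⟩
      linarith
  have hall : ∀ t, φ (c t) ≤ φ (c 0) + R + D + τ := by
    intro t
    have h1 := hint ⌊t / τ⌋
    have e1 := Int.floor_le (t / τ)
    have e2 := Int.lt_floor_add_one (t / τ)
    rw [le_div_iff₀ hτ] at e1
    rw [div_lt_iff₀ hτ] at e2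
    have h3 := hL (c t) (c (⌊t / τ⌋ * τ))
    have h4 : dist (c t) (c (⌊t / τ⌋ * τ)) ≤ τ := by
      rw [hc.dist_eq, Real.dist_eq, abs_le]
      constructor <;> nlinarith
    rw [abs_le] at h3
    linarith
  have h := const_of_bdd (fun t => φ (c t)) _ hall (fun x r => by
    rcases eq_or_ne r 0 with h0 | h0
    · subst h0; simp; linarith
    · have h1 : 0 < |r| := abs_pos.2 h0
      have e1 : dist (c (x + r)) (c x) = |r| := by
        rw [hc.dist_eq, Real.dist_eq]; congr 1; ring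
      have e2 : dist (c x) (c (x - r)) = |r| := by
        rw [hc.dist_eq, Real.dist_eq]; congr 1; ring
      have e3 : dist (c (x + r)) (c (x - r)) = 2 * |r| := by
        rw [hc.dist_eq, Real.dist_eq]
        have : x + r - (x - r) = 2 * r := by ring
        rw [this, abs_mul, abs_two]
      have h2 := hC (c (x + r)) (c (x - r)) (c x) (by rw [e1, e2, e3]; ring)
      rw [e1, e2, e3] at h2
      have h3 : |r| * (2 * φ (c x)) ≤ |r| * (φ (c (x + r)) + φ (c (x - r))) := by linarith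
      exact le_of_mul_le_mul_left h3 h1) 0 t
  rw [zero_add] at h
  exact h

end

variable {X : Type} [MetricSpace X] {G : Type} [Group G] [MulAction G X]

/-- if a subgroup `P` of `K`, with commutators in `g K g⁻¹`, contains powers of all conjugates of
`k`, then `B` is near `g B` -/
theorem bd_of_comm (hG : Geo X G) {K : Subgroup G} {B : Set X} (hB : CC K B) (k : K) {τ : ℝ}
    (hτ : 0 < τ) {c : ℝ → B} (hk : @Axis B _ K _ (bact hB) k τ c) (hHP : HP c = ∅) (g : G)
    {s₁ : K} (hs₁ : ∀ l : ℕ, 0 < l → (s₁ * k * s₁⁻¹) ^ l ∉ Subgroup.zpowers k) {P : Subgroup K}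
    (hP : ∀ s : K, ∃ l : ℕ, 0 < l ∧ (s * k * s⁻¹) ^ l ∈ P)
    (hcm : ∀ x ∈ P, ∀ y ∈ P, x * y * x⁻¹ * y⁻¹ ∈ IK K g) : Bd B g := by
  have := hG.proper
  have := hG.isom
  let _ := bact hB
  have hGB := geo_sub hG hB
  have := hGB.isom
  have hLip := fun x y : B => ph_lip (G := G) B g (x : X) (y : X)
  have hCvx := fun (x y m : B) (hm : dist x m + dist m y = dist x y) =>
    ph_convex hG.cn hB g (x : X) (y : X) (m : X) hm
  obtain ⟨C, hC⟩ := full_bound hGB hτ hk hHP (fun x : B => ph B g (x : X)) hLip hCvx (by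
    intro s t
    obtain ⟨l, hl, hl'⟩ := hP s
    obtain ⟨l', hl₁, hl₁'⟩ := hP (s * s₁)
    refine comm_const hGB hτ hk hHP (fun x : B => ph B g ((s • x : B) : X)) ?_ ?_
      (b := (s₁ * k * s₁⁻¹) ^ l') ?_ hl ?_ t
    · intro x y
      rw [← dist_smul s x y]
      exact hLip _ _
    · intro x y m hm
      have h1 := hCvx (s • x) (s • y) (s • m) (by rw [dist_smul, dist_smul, dist_smul]; exact hm)
      rw [← dist_smul s x y, ← dist_smul s m y, ← dist_smul s x m]
      exact h1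
    · intro j hj hmem
      rw [← pow_mul] at hmem
      exact hs₁ (l' * j) (Nat.mul_pos hl₁ hj) hmem
    · intro n
      set a : K := ((s * k * s⁻¹) ^ l) ^ n with ha
      set b : K := (s * s₁ * k * (s * s₁)⁻¹) ^ l' with hbd
      have haP : a ∈ P := P.zpow_mem hl' n
      have hbP : b ∈ P := hl₁'
      have e : (s • ((k ^ ((l : ℤ) * n) * (s₁ * k * s₁⁻¹) ^ l' * k ^ (-((l : ℤ) * n)) *
          ((s₁ * k * s₁⁻¹) ^ l')⁻¹) • c 0) : B) = (a * b * a⁻¹ * b⁻¹) • s • c 0 := by
        rw [smul_smul, smul_smul]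
        congr 1
        have e1 : a = s * k ^ ((l : ℤ) * n) * s⁻¹ := by
          rw [ha, conj_pow, conj_zpow, ← zpow_natCast, ← zpow_mul]
        have e2 : b = s * (s₁ * k * s₁⁻¹) ^ l' * s⁻¹ := by
          rw [hbd, ← conj_pow]
          congr 1; group
        rw [e1, e2, zpow_neg]
        group
      show ph B g ((s • ((k ^ ((l : ℤ) * n) * (s₁ * k * s₁⁻¹) ^ l' * k ^ (-((l : ℤ) * n)) *
          ((s₁ * k * s₁⁻¹) ^ l')⁻¹) • c 0) : B) : X) = ph B g ((s • c 0 : B) : X)
      rw [e]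
      exact ph_inv hB (mem_IK.1 (hcm a haP b hbP)) _)
  exact ⟨C, fun x hx => hC ⟨x, hx⟩⟩

end Pool.Agent.T6.H46.RC
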