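import Pool.Agent.T6.H46.RC.Prd1
import Pool.Agent.T6.H46.RC.Par2
import Pool.Agent.T6.H46.RR.Comm

/-!
# Products of a group with a rank one element and an abelian group
-/

set_option autoImplicit false

open Metric Set Filter Topology
open Pool.Agent.TH60.FP Pool.Agent.TH60.FP.Strip Pool.Agent.Y34.HB Pool.Agent.Y34.EL
open Pool.Agent.T6.H46.RR

namespace Pool.Agent.T6.H46.RC

section group

variable {G : Type} [Group G]

/-- a finite set of coset representatives -/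
lemma exists_reps {W V : Subgroup G} (hidx : W.relIndex V ≠ 0) :
    ∃ R : Set G, R.Finite ∧ ∀ x ∈ V, ∃ r ∈ R, r⁻¹ * x ∈ W := by
  have : (W.subgroupOf V).FiniteIndex := ⟨hidx⟩
  have : Finite (V ⧸ W.subgroupOf V) := Subgroup.finite_quotient_of_finiteIndex
  refine ⟨range (fun q : V ⧸ W.subgroupOf V => (q.out : G)), finite_range _, fun x hx => ?_⟩
  refine ⟨_, ⟨((⟨x, hx⟩ : V) : V ⧸ W.subgroupOf V), rfl⟩, ?_⟩
  have h1 : ((((⟨x, hx⟩ : V) : V ⧸ W.subgroupOf V).out : V) : V ⧸ W.subgroupOf V) =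
      ((⟨x, hx⟩ : V) : V ⧸ W.subgroupOf V) := QuotientGroup.out_eq' _
  rw [QuotientGroup.eq, Subgroup.mem_subgroupOf] at h1
  exact h1

/-- a group which is covered by finitely many cosets of a finitely generated abelian group -/
lemma va_of_cover {S Z : Subgroup G} (hfg : Z.FG) (hab : ∀ z ∈ Z, ∀ z' ∈ Z, z * z' = z' * z)
    {F : Set G} (hF : F.Finite) (hcov : ∀ s ∈ S, ∃ f ∈ F, f⁻¹ * s ∈ Z) : ∃ r, VA S r := by
  let _ : CommGroup Z := { (inferInstance : Group Z) with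
    mul_comm := fun a b => Subtype.ext (hab a a.2 b b.2) }
  have h1 : Group.FG Z := (Group.fg_iff_subgroup_fg Z).2 hfg
  have h2 : AddGroup.FG (Additive Z) := inferInstance
  have h3 : Module.Finite ℤ (Additive Z) := Module.Finite.iff_addGroup_fg.2 h2
  let A : Subgroup Z := S.subgroupOf Z
  let i : Additive A →+ Additive Z := MonoidHom.toAdditive A.subtype
  have hi : Function.Injective i := fun a b h => Subtype.val_injective h
  have h4 : Module.Finite ℤ (Additive A) :=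
    Module.Finite.of_injective i.toIntLinearMap hi
  let φ : Multiplicative (Additive A) →* G :=
    (Z.subtype.comp A.subtype).comp (MulEquiv.multiplicativeAdditive A).toMonoidHom
  have hr : ∀ g : G, g ∈ φ.range ↔ g ∈ Z ∧ g ∈ S := by
    intro g
    constructor
    · rintro ⟨a, rfl⟩
      exact ⟨((MulEquiv.multiplicativeAdditive A) a : Z).2,
        ((MulEquiv.multiplicativeAdditive A) a).2⟩
    · rintro ⟨hg, hg'⟩
      exact ⟨(MulEquiv.multiplicativeAdditive A).symm ⟨⟨g, hg⟩, hg'⟩, rfl⟩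
  refine ⟨_, Additive A, inferInstance, h4, φ, ?_, ?_, ?_, rfl⟩
  · intro a b hab
    exact (MulEquiv.multiplicativeAdditive A).injective (Subtype.ext (Subtype.ext hab))
  · intro g hg
    exact ((hr g).1 hg).2
  · choose! f hf hf' using hcov
    have hfin : Finite (S ⧸ φ.range.subgroupOf S) := by
      have hFf : Finite F := hF.to_subtype
      refine Finite.of_injective (β := F)
        (fun q => ⟨f (q.out : G), hf _ q.out.2⟩) ?_
      intro q q' h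
      have h5 : f (q.out : G) = f (q'.out : G) := congrArg Subtype.val h
      have h6 : ((q.out : S) : S ⧸ φ.range.subgroupOf S) =
          ((q'.out : S) : S ⧸ φ.range.subgroupOf S) := by
        rw [QuotientGroup.eq, Subgroup.mem_subgroupOf, hr]
        refine ⟨?_, (q.out⁻¹ * q'.out).2⟩
        have h7 := hf' _ q.out.2
        have h8 := hf' _ q'.out.2
        rw [← h5] at h8
        have h9 := Z.mul_mem (Z.inv_mem h7) h8
        have e : ((q.out⁻¹ * q'.out : S) : G) =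
            ((f (q.out : G))⁻¹ * (q.out : G))⁻¹ * ((f (q.out : G))⁻¹ * (q'.out : G)) := by
          rw [Subgroup.coe_mul, Subgroup.coe_inv]; group
        rw [e]; exact h9
      rwa [QuotientGroup.out_eq', QuotientGroup.out_eq'] at h6
    exact Subgroup.index_ne_zero_of_finite

/-- the same for groups for which a partition in finitely many classes is covered -/
lemma cover_of_types {S Z : Subgroup G} {T : Type} (ty : G → T) {Q : Set T} (hQ : Q.Finite)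
    (hty : ∀ s ∈ S, ty s ∈ Q) {F : Set G} (hF : F.Finite)
    (h : ∀ s ∈ S, ∀ s' ∈ S, ty s = ty s' → ∃ f ∈ F, f⁻¹ * (s⁻¹ * s') ∈ Z) :
    ∃ F' : Set G, F'.Finite ∧ ∀ s ∈ S, ∃ f ∈ F', f⁻¹ * s ∈ Z := by
  classical
  have hrep : ∀ q : T, ∃ s : G, (∃ s' ∈ S, ty s' = q) → s ∈ S ∧ ty s = q := by
    intro q
    by_cases hq : ∃ s' ∈ S, ty s' = q
    · obtain ⟨s', h1, h2⟩ := hq
      exact ⟨s', fun _ => ⟨h1, h2⟩⟩
    · exact ⟨1, fun h => absurd h hq⟩
  choose rep hrep using hrep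
  refine ⟨(fun p : T × G => rep p.1 * p.2) '' (Q ×ˢ F), (hQ.prod hF).image _, fun s hs => ?_⟩
  obtain ⟨h1, h2⟩ := hrep (ty s) ⟨s, hs, rfl⟩
  obtain ⟨f, hf, hf'⟩ := h _ h1 s hs h2
  refine ⟨rep (ty s) * f, ⟨(ty s, f), ⟨hty s hs, hf⟩, rfl⟩, ?_⟩
  have e : (rep (ty s) * f)⁻¹ * s = f⁻¹ * ((rep (ty s))⁻¹ * s) := by group
  rw [e]; exact hf'

end group

variable {X : Type} [MetricSpace X] {G : Type} [Group G] [MulAction G X]

/-- `W = H Z` is the product of the commuting subgroups `H` and `Z`, `Z` is abelian, `H` acts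
cocompactly on the convex set `Y`, and `W` acts cocompactly on the convex set `B`, which is a
product of `Y` and something -/
structure Prd (H Z W : Subgroup G) (Y B : Set X) (pr : B → Y) : Prop where
  mem : ∀ s, s ∈ W ↔ ∃ h ∈ H, ∃ z ∈ Z, s = h * z
  comm : ∀ h ∈ H, ∀ z ∈ Z, h * z = z * h
  zab : ∀ z ∈ Z, ∀ z' ∈ Z, z * z' = z' * z
  zfg : Z.FG
  cY : CC H Y
  cB : CC W B
  lip : ∀ x y : B, dist (pr x) (pr y) ≤ dist x y
  lift : ∀ (x y : B) (w : Y), dist (pr x) w + dist w (pr y) = dist (pr x) (pr y) →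
    ∃ m : B, dist x m + dist m y = dist x y ∧ pr m = w
  eq : ∀ h ∈ H, ∀ z ∈ Z, ∀ x x' : B, (x' : X) = (h * z) • (x : X) →
    (pr x' : X) = h • (pr x : X)

/-- the elements `h` of `H` for which `h z` is in `g W g⁻¹` for some `z` in `Z` -/
def PG (H Z W : Subgroup G) (hc : ∀ h ∈ H, ∀ z ∈ Z, h * z = z * h) (g : G) : Subgroup H where
  carrier := {h | ∃ z ∈ Z, g⁻¹ * ((h : G) * z) * g ∈ W}
  one_mem' := ⟨1, Z.one_mem, by simp⟩
  mul_mem' := by
    rintro a b ⟨z, hz, h1⟩ ⟨z', hz', h2⟩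
    refine ⟨z * z', Z.mul_mem hz hz', ?_⟩
    have e1 : (b : G) * z = z * b := hc b b.2 z hz
    have e : g⁻¹ * (((a * b : H) : G) * (z * z')) * g =
        (g⁻¹ * ((a : G) * z) * g) * (g⁻¹ * ((b : G) * z') * g) := by
      rw [Subgroup.coe_mul]
      have e2 : (a : G) * b * (z * z') = (a : G) * z * (b * z') := by
        rw [mul_assoc, mul_assoc, ← mul_assoc (b : G) z z', e1, mul_assoc]
      rw [e2]; group
    rw [e]; exact W.mul_mem h1 h2
  inv_mem' := by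
    rintro a ⟨z, hz, h1⟩
    refine ⟨z⁻¹, Z.inv_mem hz, ?_⟩
    have e1 : (a : G) * z = z * a := hc a a.2 z hz
    have e : g⁻¹ * (((a⁻¹ : H) : G) * z⁻¹) * g = (g⁻¹ * ((a : G) * z) * g)⁻¹ := by
      rw [e1, Subgroup.coe_inv]; group
    rw [e]; exact W.inv_mem h1

lemma mem_PG {H Z W : Subgroup G} {hc : ∀ h ∈ H, ∀ z ∈ Z, h * z = z * h} {g : G} {a : H} :
    a ∈ PG H Z W hc g ↔ ∃ z ∈ Z, g⁻¹ * ((a : G) * z) * g ∈ W := Iff.rfl

section

variable {H Z W : Subgroup G} {Y B : Set X} {pr : B → Y}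

/-- commutators of elements of `PG` -/
lemma Prd.comm_mem (hp : Prd H Z W Y B pr) (g : G) :
    ∀ x ∈ PG H Z W hp.comm g, ∀ y ∈ PG H Z W hp.comm g, x * y * x⁻¹ * y⁻¹ ∈ IK H g := by
  rintro x ⟨z₁, hz₁, h1⟩ y ⟨z₂, hz₂, h2⟩
  rw [mem_IK]
  obtain ⟨h₁, hh₁, u₁, hu₁, e₁⟩ := (hp.mem _).1 h1
  obtain ⟨h₂, hh₂, u₂, hu₂, e₂⟩ := (hp.mem _).1 h2
  have key : ∀ a ∈ H, ∀ b ∈ H, ∀ z ∈ Z, ∀ w ∈ Z,
      (a * z) * (b * w) * (a * z)⁻¹ * (b * w)⁻¹ = a * b * a⁻¹ * b⁻¹ := by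
    intro a ha b hb z hz w hw
    have c1 : z * b = b * z := (hp.comm b hb z hz).symm
    have c2 : z * w = w * z := hp.zab z hz w hw
    have c3 : w * a⁻¹ = a⁻¹ * w := (hp.comm _ (H.inv_mem ha) w hw).symm
    have c4 : w * b⁻¹ = b⁻¹ * w := (hp.comm _ (H.inv_mem hb) w hw).symm
    have c5 : b * w⁻¹ = w⁻¹ * b := hp.comm b hb _ (Z.inv_mem hw)
    calc (a * z) * (b * w) * (a * z)⁻¹ * (b * w)⁻¹
        = a * (z * b) * w * z⁻¹ * a⁻¹ * w⁻¹ * b⁻¹ := by group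
      _ = a * b * (z * w) * z⁻¹ * a⁻¹ * w⁻¹ * b⁻¹ := by rw [c1]; group
      _ = a * b * (w * a⁻¹) * w⁻¹ * b⁻¹ := by rw [c2]; group
      _ = a * b * a⁻¹ * b⁻¹ := by rw [c3]; group
  have e3 : g⁻¹ * ((x * y * x⁻¹ * y⁻¹ : H) : G) * g =
      (g⁻¹ * ((x : G) * z₁) * g) * (g⁻¹ * ((y : G) * z₂) * g) * (g⁻¹ * ((x : G) * z₁) * g)⁻¹ *
        (g⁻¹ * ((y : G) * z₂) * g)⁻¹ := by
    have := key x x.2 y y.2 z₁ hz₁ z₂ hz₂
    simp only [Subgroup.coe_mul, Subgroup.coe_inv]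
    rw [← this]; group
  rw [e3, e₁, e₂, key h₁ hh₁ h₂ hh₂ u₁ hu₁ u₂ hu₂]
  exact H.mul_mem (H.mul_mem (H.mul_mem hh₁ hh₂) (H.inv_mem hh₁)) (H.inv_mem hh₂)

/-- `PG` is quasi-convex -/
lemma Prd.qc (hG : Geo X G) (hp : Prd H Z W Y B pr) (g : G) (o : Y) :
    letI := bact hp.cY
    QCat (PG H Z W hp.comm g) o := by
  have := hG.proper
  have := hG.isom
  letI := bact hp.cY
  have hGY := geo_sub hG hp.cY
  have := hGY.isom
  have := hGY.proper
  obtain ⟨x₀, hx₀⟩ := hp.cB.ne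
  refine QCat.change hGY.cn (o := pr ⟨x₀, hx₀⟩) ?_ o
  obtain ⟨R₁, hR⟩ := qc_IK hG hp.cB g ⟨x₀, hx₀⟩
  refine ⟨R₁, ?_⟩
  rintro s ⟨z, hz, hsz⟩ w hw
  have hsW : (s : G) * z ∈ W := (hp.mem _).2 ⟨s, s.2, z, hz, rfl⟩
  let a : W := ⟨(s : G) * z, hsW⟩
  have hpra : ∀ (h : H) (z : G) (hz : z ∈ Z) (hW : (h : G) * z ∈ W),
      pr ⟨((h : G) * z) • x₀, hp.cB.inv _ hW x₀ hx₀⟩ = h • pr ⟨x₀, hx₀⟩ := by
    intro h z hz hW
    apply Subtype.ext
    exact hp.eq h h.2 z hz ⟨x₀, hx₀⟩ _ rfl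
  obtain ⟨m, hm, hmw⟩ := hp.lift ⟨x₀, hx₀⟩ ⟨((s : G) * z) • x₀, hp.cB.inv _ hsW x₀ hx₀⟩ w (by
    rw [hpra s z hz hsW]; exact hw)
  obtain ⟨a', ha', hd⟩ := hR a hsz m hm
  obtain ⟨h', hh', z', hz', e'⟩ := (hp.mem _).1 a'.2
  refine ⟨⟨h', hh'⟩, ⟨z', hz', ?_⟩, ?_⟩
  · have := mem_IK.1 ha'
    rw [e'] at this
    exact this
  · have hW' : h' * z' ∈ W := by rw [← e']; exact a'.2
    have h1 := hp.lip m ⟨(h' * z') • x₀, hp.cB.inv _ hW' x₀ hx₀⟩
    rw [hmw, hpra ⟨h', hh'⟩ z' hz' hW'] at h1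
    refine h1.trans (le_trans (le_of_eq ?_) hd)
    show dist (m : X) ((h' * z') • x₀) = dist (m : X) ((a' : G) • x₀)
    rw [e']

/-- elements of the vertex group -/
lemma Prd.pow_mem (hp : Prd H Z W Y B pr) {V : Subgroup G} (hH : H ≤ V)
    (hidx : W.relIndex V ≠ 0) {g : G} (hg : g ∈ V) (s : H) :
    ∃ l : ℕ, 0 < l ∧ s ^ l ∈ PG H Z W hp.comm g := by
  have h1 : g⁻¹ * (s : G) * g ∈ V := V.mul_mem (V.mul_mem (V.inv_mem hg) (hH s.2)) hg
  obtain ⟨l, hl, -, hl'⟩ := Subgroup.exists_pow_mem_of_relIndex_ne_zero hidx h1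
  refine ⟨l, hl, 1, Z.one_mem, ?_⟩
  have e : g⁻¹ * (((s ^ l : H) : G) * 1) * g = (g⁻¹ * (s : G) * g) ^ l := by
    have := conj_pow (i := l) (a := g⁻¹) (b := (s : G))
    rw [inv_inv] at this
    rw [this, mul_one, Subgroup.coe_pow]
  rw [e]
  exact hl'.1

end

end Pool.Agent.T6.H46.RC
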