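import Pool.Agent.T6.H46.RC.Fin
import Pool.Agent.T6.H46.RC.Dyn2

/-!
# Vertex stabilisers which are convex cocompact and contain a rank one element
-/

set_option autoImplicit false

open Metric Set Filter Topology
open Pool.Agent.TH60.FP Pool.Agent.TH60.FP.Strip Pool.Agent.Y34.HB Pool.Agent.Y34.EL
open Pool.Agent.T6.H46.RR Pool.Agent.T6.H67.TA

namespace Pool.Agent.T6.H46.RC

section tree

variable {G : Type} [Group G] {V : Type} {T : SimpleGraph V} (hT : T.IsTree) [MulAction G V]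
  (hact : ∀ (g : G) (u v : V), T.Adj u v → T.Adj (g • u) (g • v))

omit [Group G] [MulAction G V] in
include hT in
lemma dirs_add {v u₁ u₂ z₁ z₂ : V} (a₁ : T.Adj v u₁) (h₁ : D T u₁ z₁ = D T v z₁ - 1)
    (a₂ : T.Adj v u₂) (h₂ : D T u₂ z₂ = D T v z₂ - 1) (hne : u₁ ≠ u₂) :
    D T z₁ z₂ = D T v z₁ + D T v z₂ := by
  have h3 : D T u₁ z₂ = D T v z₂ + 1 := by
    rcases adj_pm hT a₁ z₂ with h | h
    · exact h
    · exact absurd (closer_unique hT a₁ h a₂ h₂) hne
  have h4 := D_nonneg (T := T) v z₂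
  obtain ⟨n, hn⟩ := Int.eq_ofNat_of_zero_le h4
  rw [add_of_dir hT z₁ z₂ n v u₁ (by exact_mod_cast hn) a₁ h₁ h3, D_comm z₁ v]

include hT hact in
lemma vert_axis {v u u' : V} {g t y : G} (hgv : v ≠ g • v) (htv : t • v = v) (hyv : y • v = v)
    (au : T.Adj v u) (hu : D T u (g • v) = D T v (g • v) - 1) (htu : t • u ≠ u)
    (au' : T.Adj v u') (hu' : D T u' (g⁻¹ • v) = D T v (g⁻¹ • v) - 1) (hyu : y • u' ≠ u') :
    OnAxis T (t * g * y * g⁻¹) (g • v) ∧ ∀ s : G, s • g • v = g • v →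
      s • (t * g * y * g⁻¹) • g • v = (t * g * y * g⁻¹) • g • v →
      s • v = v ∧ s • t • g • v = t • g • v := by
  set f := t * g * y * g⁻¹ with hf
  set w := g • v with hw
  have hfw : f • w = t • w := by
    rw [hf, hw]
    rw [mul_smul, mul_smul, mul_smul, inv_smul_smul, hyv]
  have tl : ∀ z, D T v (t • z) = D T v z := by
    intro z
    have := D_smul hT hact t v z
    rwa [htv] at this
  have yl : ∀ z, D T v (y • z) = D T v z := by
    intro z
    have := D_smul hT hact y v z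
    rwa [hyv] at this
  have ati : T.Adj v (t • u) := by
    have := hact t v u au
    rwa [htv] at this
  have ayi : T.Adj v (y • u') := by
    have := hact y v u' au'
    rwa [hyv] at this
  have l1 : D T v (g⁻¹ • v) = D T v w := D_inv' hT hact g v v
  have e1 : D T w (t • w) = 2 * D T v w := by
    rw [dirs_add hT au hu ati (by rw [D_smul hT hact, hu, tl]) htu.symm, tl]; ring
  have hpos := D_pos hT hgv
  -- the two directions at `v`
  have l2 : D T v ((t * g)⁻¹ • w) = 2 * D T v w := by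
    rw [D_inv' hT hact, mul_smul, ← hw, e1]
  have l3 : D T v (g⁻¹ • t • w) = 2 * D T v w := by
    rw [D_inv' hT hact g v (t • w), D_comm, ← hw, e1]
  have l4 : D T u' ((t * g)⁻¹ • w) = D T v ((t * g)⁻¹ • w) - 1 := by
    have h1 := D_tri hT u' (g⁻¹ • v) ((t * g)⁻¹ • w)
    have h2 : D T (g⁻¹ • v) ((t * g)⁻¹ • w) = D T v w := by
      rw [mul_inv_rev, mul_smul, D_smul hT hact]
      have := D_smul hT hact t v (t⁻¹ • w)
      rw [htv, smul_inv_smul] at this
      exact this.symm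
    rcases adj_pm hT au' ((t * g)⁻¹ • w) with h3 | h3 <;> omega
  have l5 : D T u' (g⁻¹ • t • w) = D T v (g⁻¹ • t • w) - 1 := by
    have h1 := D_tri hT u' (g⁻¹ • v) (g⁻¹ • t • w)
    have h2 : D T (g⁻¹ • v) (g⁻¹ • t • w) = D T v w := by
      rw [D_smul hT hact, tl]
    rcases adj_pm hT au' (g⁻¹ • t • w) with h3 | h3 <;> omega
  have e2 : D T w (f • f • w) = 4 * D T v w := by
    have h1 : D T w (f • f • w) = D T ((t * g)⁻¹ • w) (y • g⁻¹ • t • w) := by
      rw [hfw, ← D_smul hT hact (t * g) ((t * g)⁻¹ • w), smul_inv_smul, hf]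
      simp only [mul_smul]
    rw [h1, dirs_add hT au' l4 ayi (by rw [D_smul hT hact, l5, yl]) hyu.symm, yl, l2, l3]
    ring
  refine ⟨⟨?_, ?_⟩, fun s hs1 hs2 => ?_⟩
  · rw [hfw, e1]; omega
  · have h1 := D_inv hT hact f w
    have h2 : D T (f • w) (f⁻¹ • w) = D T w (f • f • w) := by
      rw [D_inv' hT hact f (f • w) w]
    unfold P
    rw [h1, h2, e2, hfw, e1]; ring
  · rw [hfw] at hs2
    refine ⟨fix_between hT hact (a := w) (b := t • w) ?_ hs1 hs2, hs2⟩
    unfold P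
    rw [tl, e1]; ring

end tree

variable {X : Type} [MetricSpace X] {G : Type} [Group G] [MulAction G X]
variable {V : Type} {T : SimpleGraph V} (hT : T.IsTree) [MulAction G V]
  (hact : ∀ (g : G) (u v : V), T.Adj u v → T.Adj (g • u) (g • v))

include hT hact in
/-- **Main alternative for vertices** -/
theorem rank_one_or_vert (hG : Geo X G) {K : Subgroup G} {B : Set X} (hB : CC K B) (k : K)
    {τ : ℝ} (hτ : 0 < τ) {c : ℝ → B} (hk : @Axis B _ K _ (bact hB) k τ c) (hHP : HP c = ∅)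
    {v : V} (hK : ∀ s : G, s ∈ K ↔ s • v = v)
    (hfix : ∀ u, T.Adj v u → ∃ s : G, s • v = v ∧ s • u ≠ u) :
    (∃ g : G, RankOne X g) ∨ ∀ g : G, Bd B g := by
  have := hG.proper
  have := hG.isom
  let _ := bact hB
  have hGB := geo_sub hG hB
  have := hGB.isom
  have := hGB.proper
  by_cases hall : ∀ g : G, Bd B g
  · exact Or.inr hall
  left
  push Not at hall
  obtain ⟨g, hg⟩ := hall
  have hgv : v ≠ g • v := by
    intro h
    exact hg (Bd.of_mem hB ((hK g).2 h.symm))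
  have hgv' : v ≠ g⁻¹ • v := by
    intro h
    exact hgv ((smul_eq_iff_eq_inv_smul g).2 h).symm
  obtain ⟨s, hs⟩ : ∃ s : K, ∀ l : ℕ, 0 < l → (s * k * s⁻¹) ^ l ∉ IK K g := by
    by_contra hcon
    push Not at hcon
    exact hg (full hG hB k hτ hk hHP g hcon)
  obtain ⟨R, D', hP⟩ := pass_of_axis hGB.cn hτ hk hHP
  have hk₁ := axis_conj hk s
  have hP₁ := hP.smul s
  set k₁ := s * k * s⁻¹ with hk₁def
  clear_value k₁
  have hqc : ∀ o : B, QCat (IK K g) o := qc_IK hG hB g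
  obtain ⟨u, au, hu⟩ := exists_closer hT hgv
  obtain ⟨u', au', hu'⟩ := exists_closer hT hgv'
  obtain ⟨x, hx, hxu⟩ := hfix u au
  obtain ⟨y, hy, hyu⟩ := hfix u' au'
  -- the element `t`
  obtain ⟨t, htu, hfin⟩ : ∃ t : K, (t : G) • u ≠ u ∧
      {s : K | s ∈ IK K g ∧ t⁻¹ * s * t ∈ IK K g}.Finite := by
    by_cases hku : (k₁ : G) • u = u
    · -- conjugate by `x`
      let x' : K := ⟨x, (hK x).2 hx⟩
      obtain ⟨b, a₀, h⟩ := dyn2 hGB (axis_conj hk₁ x') (hP₁.smul x') hk₁ hP₁ (A₁ := IK K g)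
        (A₂ := (IK K g).comap (MulAut.conj x'⁻¹).toMonoidHom) hqc (qc_conj hqc x') (by
          intro l hl hm
          have := Subgroup.mem_comap.1 hm
          refine hs l hl ?_
          have e : (MulAut.conj x'⁻¹).toMonoidHom ((x' * k₁ * x'⁻¹) ^ l) = k₁ ^ l := by
            rw [conj_pow]
            simp [MulAut.conj_apply, mul_assoc]
          rwa [e] at this) hs
      have h1 := h a₀ le_rfl
      refine ⟨k₁ ^ a₀ * x' * k₁ ^ b, ?_, ?_⟩
      · intro hcon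
        have hpow : ∀ n : ℕ, ((k₁ ^ n : K) : G) • u = u := by
          intro n
          induction n with
          | zero => simp
          | succ n ih => rw [pow_succ, Subgroup.coe_mul, mul_smul, hku, ih]
        have h2 : ((k₁ ^ a₀ : K) : G) • x • u = u := by
          have h3 : ((k₁ ^ a₀ * x' * k₁ ^ b : K) : G) • u =
              ((k₁ ^ a₀ : K) : G) • x • ((k₁ ^ b : K) : G) • u := by
            rw [smul_smul, smul_smul]; congr 1
          rw [h3, hpow b] at hcon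
          exact hcon
        exact hxu (smul_left_cancel _ (h2.trans (hpow a₀).symm))
      · refine h1.subset ?_
        rintro s' ⟨hs1, hs2⟩
        refine ⟨hs1, ?_⟩
        rw [Subgroup.mem_comap]
        have e : (MulAut.conj x'⁻¹).toMonoidHom ((k₁ ^ a₀ * (x' * k₁ * x'⁻¹) ^ b)⁻¹ * s' *
            (k₁ ^ a₀ * (x' * k₁ * x'⁻¹) ^ b)) =
            (k₁ ^ a₀ * x' * k₁ ^ b)⁻¹ * s' * (k₁ ^ a₀ * x' * k₁ ^ b) := by
          rw [conj_pow]
          show x'⁻¹ * _ * x'⁻¹⁻¹ = _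
          group
        rw [e]; exact hs2
    · obtain ⟨b, a₀, h⟩ := dyn2 hGB hk₁ hP₁ hk₁ hP₁ (A₁ := IK K g) (A₂ := IK K g) hqc hqc hs hs
      by_cases h1 : ((k₁ ^ a₀ * k₁ ^ b : K) : G) • u = u
      · refine ⟨k₁ ^ (a₀ + 1) * k₁ ^ b, ?_, h (a₀ + 1) (Nat.le_succ _)⟩
        have e : ((k₁ ^ (a₀ + 1) * k₁ ^ b : K) : G) • u =
            (k₁ : G) • ((k₁ ^ a₀ * k₁ ^ b : K) : G) • u := by
          rw [smul_smul, ← Subgroup.coe_mul, ← mul_assoc, ← pow_succ']
        rw [e, h1]; exact hku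
      · exact ⟨_, h1, h a₀ le_rfl⟩
  have htv : (t : G) • v = v := (hK t).1 t.2
  obtain ⟨hax, hfx⟩ := vert_axis hT hact hgv htv hy au hu htu au' hu' hyu
  obtain ⟨o, ho⟩ := hB.ne
  refine ⟨_, rank_one_of_finite hT hact hG o hax 1 ?_⟩
  refine (hfin.image (fun s : K => (s : G))).subset ?_
  rintro s ⟨e1, e2⟩
  rw [pow_one] at e2
  obtain ⟨f1, f2⟩ := hfx s e1 e2
  have hsK : s ∈ K := (hK s).2 f1
  refine ⟨⟨s, hsK⟩, ⟨?_, ?_⟩, rfl⟩
  · rw [mem_IK, hK]
    show (g⁻¹ * s * g) • v = v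
    rw [mul_smul, mul_smul, e1, inv_smul_smul]
  · rw [mem_IK, hK]
    show (g⁻¹ * ((t : G)⁻¹ * s * t) * g) • v = v
    have e : g⁻¹ * ((t : G)⁻¹ * s * t) * g = ((t : G) * g)⁻¹ * s * ((t : G) * g) := by group
    rw [e, mul_smul, mul_smul, mul_smul, f2, ← mul_smul (t : G) g v, inv_smul_smul]

include hT hact in
/-- **Main theorem for vertices** -/
theorem main_vert (hG : Geo X G) (hGC : GC X) {K : Subgroup G} {B : Set X} (hB : CC K B) (k : K)
    {τ : ℝ} (hτ : 0 < τ) {c : ℝ → B} (hk : @Axis B _ K _ (bact hB) k τ c) (hHP : HP c = ∅)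
    {v : V} (hK : ∀ s : G, s ∈ K ↔ s • v = v)
    (hfix : ∀ u, T.Adj v u → ∃ s : G, s • v = v ∧ s • u ≠ u) :
    (∃ g : G, RankOne X g) ∨
      ∃ B₀ : Set X, B₀ ⊆ B ∧ CC K B₀ ∧ (∃ x y : B₀, x ≠ y) ∧
      ∃ (Z : Type) (_ : MetricSpace Z) (_ : Nontrivial Z) (e : X ≃ Z × B₀),
      ∀ x x' : X, dist x x' ^ 2 = dist (e x).1 (e x').1 ^ 2 + dist (e x).2 (e x').2 ^ 2 := by
  have := hG.isom
  rcases rank_one_or_vert hT hact hG hB k hτ hk hHP hK hfix with h | h
  · exact Or.inl h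
  obtain ⟨B₀, hsub, h₀, h1 | h1⟩ := split_of_bd hG hGC hB h
  · left
    refine ⟨k, τ, fun t => (c t : X), hτ, ⟨?_, ?_⟩, ?_⟩
    · exact isometry_subtype_coe.comp hk.1
    · intro t
      exact congrArg Subtype.val (hk.2 t)
    · rw [eq_empty_iff_forall_notMem]
      rintro H ⟨e1, e2⟩
      have : (fun z => (⟨H z, hsub (h1 _)⟩ : B)) ∈ HP c :=
        ⟨e1, fun t => Subtype.ext (e2 t)⟩
      rw [hHP] at this
      exact this
  · right
    obtain ⟨x, y, hxy⟩ := (nontrivial_of_axis hB h₀ hsub k hτ hk).exists_pair_ne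
    exact ⟨B₀, hsub, h₀, ⟨x, y, hxy⟩, h1⟩

end Pool.Agent.T6.H46.RC
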