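import Pool.Agent.T6.H46.RC.Prd2
import Pool.Agent.T6.H46.RC.Vert
import Pool.Agent.T6.H46.RR.Main

/-!
# Vertex stabilisers which are virtually products of a rank one group and an abelian group
-/

set_option autoImplicit false

open Metric Set Filter Topology
open Pool.Agent.TH60.FP Pool.Agent.TH60.FP.Strip Pool.Agent.Y34.HB Pool.Agent.Y34.EL
open Pool.Agent.T6.H46.RR Pool.Agent.T6.H67.TA

namespace Pool.Agent.T6.H46.RC

section group

variable {G : Type} [Group G]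

/-- the subgroup generated by `k` and `Z` -/
def ZK (k : G) (Z : Subgroup G) (hc : ∀ z ∈ Z, k * z = z * k) : Subgroup G where
  carrier := {x | ∃ i : ℤ, ∃ z ∈ Z, x = k ^ i * z}
  one_mem' := ⟨0, 1, Z.one_mem, by simp⟩
  mul_mem' := by
    rintro _ _ ⟨i, z, hz, rfl⟩ ⟨j, z', hz', rfl⟩
    refine ⟨i + j, z * z', Z.mul_mem hz hz', ?_⟩
    have h1 : z * k ^ j = k ^ j * z := ((show Commute k z from hc z hz).zpow_left j).eq.symm
    rw [zpow_add, mul_assoc, ← mul_assoc z, h1]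
    group
  inv_mem' := by
    rintro _ ⟨i, z, hz, rfl⟩
    refine ⟨-i, z⁻¹, Z.inv_mem hz, ?_⟩
    have h1 : k ^ i * z = z * k ^ i := ((show Commute k z from hc z hz).zpow_left i).eq
    rw [h1, mul_inv_rev, zpow_neg]

lemma ZK_fg {k : G} {Z : Subgroup G} {hc : ∀ z ∈ Z, k * z = z * k} (hfg : Z.FG) :
    (ZK k Z hc).FG := by
  have h1 : ZK k Z hc = Subgroup.zpowers k ⊔ Z := by
    apply le_antisymm
    · rintro _ ⟨i, z, hz, rfl⟩
      exact Subgroup.mul_mem _ (Subgroup.mem_sup_left (Subgroup.mem_zpowers_iff.2 ⟨i, rfl⟩))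
        (Subgroup.mem_sup_right hz)
    · refine sup_le ?_ ?_
      · intro x hx
        obtain ⟨i, rfl⟩ := Subgroup.mem_zpowers_iff.1 hx
        exact ⟨i, 1, Z.one_mem, by simp⟩
      · intro z hz
        exact ⟨0, z, hz, by simp⟩
  rw [h1]
  refine Subgroup.FG.sup ?_ hfg
  exact ⟨{k}, by rw [Finset.coe_singleton, Subgroup.zpowers_eq_closure]⟩

lemma ZK_comm {k : G} {Z : Subgroup G} {hc : ∀ z ∈ Z, k * z = z * k}
    (hab : ∀ z ∈ Z, ∀ z' ∈ Z, z * z' = z' * z) :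
    ∀ x ∈ ZK k Z hc, ∀ y ∈ ZK k Z hc, x * y = y * x := by
  rintro _ ⟨i, z, hz, rfl⟩ _ ⟨j, z', hz', rfl⟩
  have h1 : Commute (k ^ i) z' := (show Commute k z' from hc z' hz').zpow_left i
  have h2 : Commute (k ^ j) z := (show Commute k z from hc z hz).zpow_left j
  have h3 : Commute z z' := hab z hz z' hz'
  have h4 : Commute (k ^ i) (k ^ j) := (Commute.refl k).zpow_zpow i j
  exact ((h4.mul_right h1).mul_left ((h2.symm).mul_right h3)).eq

/-- powers which do not map `y` to `u` -/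
lemma exists_pow_smul_ne {V : Type} [MulAction G V] (a : G) {y u : V} (h : y ≠ u) (n₀ : ℕ) :
    ∃ n : ℕ, n₀ ≤ n ∧ a ^ n • y ≠ u := by
  by_cases h1 : a ^ n₀ • y = u
  · refine ⟨n₀ + 1, Nat.le_succ _, fun h2 => ?_⟩
    rw [pow_succ', mul_smul, h1] at h2
    have h3 : ∀ n : ℕ, a ^ n • u = u := by
      intro n
      induction n with
      | zero => simp
      | succ n ih => rw [pow_succ, mul_smul, h2, ih]
    exact h (smul_left_cancel (a ^ n₀) (h1.trans (h3 n₀).symm))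
  · exact ⟨n₀, le_rfl, h1⟩

end group

variable {X : Type} [MetricSpace X] {G : Type} [Group G] [MulAction G X]
variable {V : Type} {T : SimpleGraph V} (hT : T.IsTree) [MulAction G V]
  (hact : ∀ (g : G) (u v : V), T.Adj u v → T.Adj (g • u) (g • v))

variable {H Z W : Subgroup G} {Y B : Set X} {pr : B → Y}

/-- the elementary case: `H` is virtually cyclic -/
lemma prd_cover (hG : Geo X G) (hp : Prd H Z W Y B pr) (k : H) {τ : ℝ} (hτ : 0 < τ)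
    {c : ℝ → Y} (hk : @Axis Y _ H _ (bact hp.cY) k τ c) (hHP : HP c = ∅) {S : Subgroup G}
    (hidx : W.relIndex S ≠ 0)
    (he : ∀ s : H, ∃ l : ℕ, 0 < l ∧ (s * k * s⁻¹) ^ l ∈ Subgroup.zpowers k) :
    ∃ F : Set G, F.Finite ∧ ∀ s ∈ S, ∃ f ∈ F,
      f⁻¹ * s ∈ ZK (k : G) Z (fun z hz => hp.comm k k.2 z hz) := by
  have := hG.proper
  have := hG.isom
  let _ := bact hp.cY
  have hGY := geo_sub hG hp.cY
  have := hGY.isom
  have := hGY.proper
  obtain ⟨D, hD⟩ := comm_near hGY hτ hk hHP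
  obtain ⟨F, hF, hFs⟩ := near_zpow hGY hτ hk D
  have hFs' : ∀ s : H, ∃ i : ℤ, k ^ i * s ∈ F := by
    intro s
    obtain ⟨l, hl, hl'⟩ := he s
    obtain ⟨t, ht⟩ := hD _ _ l (axis_conj hk s) hl hl'
    exact hFs s ⟨t, ht⟩
  obtain ⟨R, hR, hRs⟩ := exists_reps hidx
  refine ⟨(fun p : G × H => p.1 * (p.2 : G)⁻¹) '' (R ×ˢ F), (hR.prod hF).image _,
    fun s hs => ?_⟩
  obtain ⟨r, hr, hr'⟩ := hRs s hs
  obtain ⟨h, hh, z, hz, e⟩ := (hp.mem _).1 hr'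
  obtain ⟨i, hi⟩ := hFs' (⟨h, hh⟩ : H)⁻¹
  refine ⟨r * (((k ^ i * (⟨h, hh⟩ : H)⁻¹ : H)) : G)⁻¹, ⟨(r, _), ⟨hr, hi⟩, rfl⟩, i, z, hz, ?_⟩
  have e1 : s = r * (h * z) := by rw [← e]; group
  rw [e1]
  simp only [Subgroup.coe_mul, Subgroup.coe_zpow, Subgroup.coe_inv]
  group

include hT hact in
/-- the elementary case: `H` is virtually cyclic -/
lemma prd_elem (hG : Geo X G) (hGC : GC X) (hp : Prd H Z W Y B pr) (k : H) {τ : ℝ} (hτ : 0 < τ)
    {c : ℝ → Y} (hk : @Axis Y _ H _ (bact hp.cY) k τ c) (hHP : HP c = ∅) {v : V}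
    (hidx : W.relIndex (MulAction.stabilizer G v) ≠ 0)
    (hfix : ∀ u, T.Adj v u → ∃ s : G, s • v = v ∧ s • u ≠ u) {g : G} (hgv : v ≠ g • v)
    (he : ∀ s : H, ∃ l : ℕ, 0 < l ∧ (s * k * s⁻¹) ^ l ∈ Subgroup.zpowers k) :
    (∃ g : G, RankOne X g) ∨ SplitsLine X := by
  have := hG.proper
  have := hG.isom
  obtain ⟨F, hF, hcov⟩ := prd_cover hG hp k hτ hk hHP hidx he
  have hgv' : v ≠ g⁻¹ • v := by
    intro h
    exact hgv ((smul_eq_iff_eq_inv_smul g).2 h).symm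
  obtain ⟨u, au, hu⟩ := exists_closer hT hgv
  obtain ⟨u', au', hu'⟩ := exists_closer hT hgv'
  obtain ⟨x, hx, hxu⟩ := hfix u au
  obtain ⟨y, hy, hyu⟩ := hfix u' au'
  obtain ⟨hax, hfx⟩ := vert_axis hT hact hgv hx hy au hu hxu au' hu' hyu
  obtain ⟨o, ho⟩ := hp.cB.ne
  obtain ⟨r, hVA⟩ := va_of_cover (S := Pair G (g • v) ((x * g * y * g⁻¹) ^ 1 • g • v))
    (ZK_fg hp.zfg) (ZK_comm hp.zab) hF (fun s hs => by
      obtain ⟨h1, h2⟩ := mem_pair.1 hs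
      rw [pow_one] at h2
      exact hcov s (MulAction.mem_stabilizer_iff.2 (hfx s h1 h2).1))
  exact main_pair hT hact hG hGC o hax 1 hVA

/-- the elementary case, when `W` has finite index in `G` -/
lemma prd_elem_top (hG : Geo X G) (hGC : GC X) (hp : Prd H Z W Y B pr) (k : H) {τ : ℝ}
    (hτ : 0 < τ) {c : ℝ → Y} (hk : @Axis Y _ H _ (bact hp.cY) k τ c) (hHP : HP c = ∅)
    (hidx : W.relIndex ⊤ ≠ 0)
    (he : ∀ s : H, ∃ l : ℕ, 0 < l ∧ (s * k * s⁻¹) ^ l ∈ Subgroup.zpowers k) :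
    (∃ g : G, RankOne X g) ∨ SplitsLine X := by
  have := hG.proper
  have := hG.isom
  obtain ⟨F, hF, hcov⟩ := prd_cover hG hp k hτ hk hHP hidx he
  obtain ⟨o, ho⟩ := hp.cB.ne
  have hmem : (k : G) ∈ ZK (k : G) Z (fun z hz => hp.comm k k.2 z hz) :=
    ⟨1, 1, Z.one_mem, by simp⟩
  have hpow : ∀ x : G, ∃ l : ℕ, 0 < l ∧ x ^ l ∈ ZK (k : G) Z (fun z hz => hp.comm k k.2 z hz) := by
    intro x
    have h1 : ∀ n : ℕ, ∃ f ∈ F, f⁻¹ * x ^ n ∈ ZK (k : G) Z (fun z hz => hp.comm k k.2 z hz) :=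
      fun n => hcov (x ^ n) (Subgroup.mem_top _)
    choose f hf hf' using h1
    have hninj : ¬ Function.Injective f := by
      intro hinj
      have : (univ : Set ℕ).Finite :=
        Set.Finite.of_injOn (f := f) (fun n _ => hf n) (hinj.injOn) hF
      exact Set.infinite_univ this
    rw [Function.Injective] at hninj
    push Not at hninj
    have key : ∀ m n : ℕ, m < n → f m = f n → ∃ l : ℕ, 0 < l ∧
        x ^ l ∈ ZK (k : G) Z (fun z hz => hp.comm k k.2 z hz) := by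
      intro m n hmn he
      refine ⟨n - m, by omega, ?_⟩
      have h2 := hf' n
      rw [← he] at h2
      have h3 := Subgroup.mul_mem _ (Subgroup.inv_mem _ (hf' m)) h2
      have e1 : ((f m)⁻¹ * x ^ m)⁻¹ * ((f m)⁻¹ * x ^ n) = x ^ (n - m) := by
        have e2 : x ^ n = x ^ m * x ^ (n - m) := by rw [← pow_add]; congr 1; omega
        rw [e2]; group
      rwa [e1] at h3
    obtain ⟨m, n, h2, hne⟩ := hninj
    rcases lt_or_gt_of_ne hne with h | h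
    · exact key m n h h2
    · exact key n m h h2.symm
  refine split_of_commensurated hG hGC o (ZK (k : G) Z (fun z hz => hp.comm k k.2 z hz))
    (ZK_fg hp.zfg) (ZK_comm hp.zab) (fun g a _ => ?_) hmem ?_
  · obtain ⟨l, hl, hl'⟩ := hpow (g * a * g⁻¹)
    refine ⟨l, hl, ?_⟩
    rwa [conj_pow] at hl'
  · intro hfo
    let _ := bact hp.cY
    have hGY := geo_sub hG hp.cY
    have := hGY.isom
    obtain ⟨n, hn, h⟩ := isOfFinOrder_iff_pow_eq_one.1 hfo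
    have := axis_pow_ne hτ hk (i := (n : ℤ)) (by exact_mod_cast hn.ne')
    apply this
    apply Subtype.ext
    rw [zpow_natCast, Subgroup.coe_pow, h, Subgroup.coe_one]

include hT hact in
/-- the main case -/
lemma prd_dyn (hG : Geo X G) (hGC : GC X) (hp : Prd H Z W Y B pr) (k : H) {τ : ℝ} (hτ : 0 < τ)
    {c : ℝ → Y} (hk : @Axis Y _ H _ (bact hp.cY) k τ c) (hHP : HP c = ∅) {v : V}
    (hHV : W ≤ MulAction.stabilizer G v)
    (hidx : W.relIndex (MulAction.stabilizer G v) ≠ 0)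
    (hfix : ∀ u, T.Adj v u → ∃ s : G, s • v = v ∧ s • u ≠ u)
    {s₁ : H} (hs₁ : ∀ l : ℕ, 0 < l → (s₁ * k * s₁⁻¹) ^ l ∉ Subgroup.zpowers k) {g : G}
    (hg : ¬ Bd Y g) : (∃ g : G, RankOne X g) ∨ SplitsLine X := by
  have := hG.proper
  have := hG.isom
  letI := bact hp.cY
  have hGY := geo_sub hG hp.cY
  have := hGY.isom
  have := hGY.proper
  have hH : H ≤ MulAction.stabilizer G v := fun h hh => hHV ((hp.mem h).2 ⟨h, hh, 1, Z.one_mem,
    by simp⟩)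
  have hVB : ∀ x ∈ MulAction.stabilizer G v, Bd Y x := by
    intro x hx
    exact bd_of_comm hG hp.cY k hτ hk hHP x hs₁ (P := PG H Z W hp.comm x)
      (fun s => hp.pow_mem hH hidx hx _) (hp.comm_mem x)
  have hgv : v ≠ g • v := by
    intro h
    exact hg (hVB g (MulAction.mem_stabilizer_iff.2 h.symm))
  have hgv' : v ≠ g⁻¹ • v := by
    intro h
    exact hgv ((smul_eq_iff_eq_inv_smul g).2 h).symm
  have hex : ∀ g : G, ¬ Bd Y g → ∃ s : H, ∀ l : ℕ, 0 < l →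
      (s * k * s⁻¹) ^ l ∉ PG H Z W hp.comm g := by
    intro g hg
    by_contra hcon
    push Not at hcon
    exact hg (bd_of_comm hG hp.cY k hτ hk hHP g hs₁ (P := PG H Z W hp.comm g) hcon (hp.comm_mem g))
  obtain ⟨u, au, hu⟩ := exists_closer hT hgv
  obtain ⟨u', au', hu'⟩ := exists_closer hT hgv'
  obtain ⟨x, hx, hxu⟩ := hfix u au
  obtain ⟨y, hy, hyu⟩ := hfix u' au'
  have hxg : ¬ Bd Y (x * g) := by
    intro h
    have h1 := Bd.mul hp.cY (hVB x⁻¹ ((MulAction.stabilizer G v).inv_mem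
      (MulAction.mem_stabilizer_iff.2 hx))) h
    rw [inv_mul_cancel_left] at h1
    exact hg h1
  obtain ⟨s, hs⟩ := hex g hg
  obtain ⟨s', hs'⟩ := hex _ hxg
  obtain ⟨R, D, hP⟩ := pass_of_axis hGY.cn hτ hk hHP
  obtain ⟨b₀, hb⟩ := dyn3 hGY (axis_conj hk s') (hP.smul s') (axis_conj hk s) (hP.smul s)
    (A₁ := PG H Z W hp.comm g) (A₂ := PG H Z W hp.comm (x * g)) (hp.qc hG g) (hp.qc hG (x * g))
    hs' hs
  obtain ⟨j, hj, hju⟩ := exists_pow_smul_ne (((s' * k * s'⁻¹ : H)) : G) hxu b₀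
  obtain ⟨a₀, ha⟩ := hb j hj
  obtain ⟨n, hn, hnu⟩ := exists_pow_smul_ne (((s * k * s⁻¹ : H)) : G) hju a₀
  have hfin := ha n hn
  set d : H := (s * k * s⁻¹) ^ n * (s' * k * s'⁻¹) ^ j with hd
  set t : G := (d : G) * x with ht
  have htu : t • u ≠ u := by
    rw [ht, hd, Subgroup.coe_mul, Subgroup.coe_pow, Subgroup.coe_pow, mul_smul, mul_smul]
    exact hnu
  have htv : t • v = v := by
    rw [ht, mul_smul, hx]
    exact MulAction.mem_stabilizer_iff.1 (hH d.2)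
  obtain ⟨hax, hfx⟩ := vert_axis hT hact hgv htv hy au hu htu au' hu' hyu
  obtain ⟨o, ho⟩ := hp.cB.ne
  obtain ⟨R, hR, hRs⟩ := exists_reps hidx
  choose! rr hrr hrr' using hRs
  have hmemV : ∀ s ∈ Pair G (g • v) ((t * g * y * g⁻¹) ^ 1 • g • v),
      s ∈ MulAction.stabilizer G v ∧ g⁻¹ * s * g ∈ MulAction.stabilizer G v ∧
        (t * g)⁻¹ * s * (t * g) ∈ MulAction.stabilizer G v := by
    intro s hs
    obtain ⟨h1, h2⟩ := mem_pair.1 hs
    rw [pow_one] at h2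
    obtain ⟨h3, h4⟩ := hfx s h1 h2
    refine ⟨MulAction.mem_stabilizer_iff.2 h3, MulAction.mem_stabilizer_iff.2 ?_,
      MulAction.mem_stabilizer_iff.2 ?_⟩
    · rw [mul_smul, mul_smul, h1, inv_smul_smul]
    · rw [mul_smul, mul_smul, mul_smul t g v, h4, ← mul_smul t g v, inv_smul_smul]
  have hquot : ∀ s ∈ MulAction.stabilizer G v, ∀ s' ∈ MulAction.stabilizer G v, rr s = rr s' →
      s⁻¹ * s' ∈ W := by
    intro s hs s' hs' e
    have h1 := hrr' s hs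
    have h2 := hrr' s' hs'
    rw [← e] at h2
    have h3 := W.mul_mem (W.inv_mem h1) h2
    have e1 : ((rr s)⁻¹ * s)⁻¹ * ((rr s)⁻¹ * s') = s⁻¹ * s' := by group
    rwa [e1] at h3
  have hty : ∀ s ∈ Pair G (g • v) ((t * g * y * g⁻¹) ^ 1 • g • v),
      (rr s, rr (g⁻¹ * s * g), rr ((t * g)⁻¹ * s * (t * g))) ∈ R ×ˢ (R ×ˢ R) := by
    intro s hs
    obtain ⟨h1, h2, h3⟩ := hmemV s hs
    exact ⟨hrr _ h1, hrr _ h2, hrr _ h3⟩
  have hcl : ∀ s₂ ∈ Pair G (g • v) ((t * g * y * g⁻¹) ^ 1 • g • v),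
      ∀ s₃ ∈ Pair G (g • v) ((t * g * y * g⁻¹) ^ 1 • g • v),
      (rr s₂, rr (g⁻¹ * s₂ * g), rr ((t * g)⁻¹ * s₂ * (t * g))) =
        (rr s₃, rr (g⁻¹ * s₃ * g), rr ((t * g)⁻¹ * s₃ * (t * g))) →
      ∃ f ∈ (fun h : H => (h : G)) '' {s : H | s ∈ PG H Z W hp.comm g ∧
        d⁻¹ * s * d ∈ PG H Z W hp.comm (x * g)}, f⁻¹ * (s₂⁻¹ * s₃) ∈ Z := by
    intro s₂ h₂ s₃ h₃ e
    obtain ⟨a1, a2, a3⟩ := hmemV s₂ h₂
    obtain ⟨b1, b2, b3⟩ := hmemV s₃ h₃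
    rw [Prod.mk.injEq, Prod.mk.injEq] at e
    obtain ⟨e1, e2, e3⟩ := e
    have c1 := hquot _ a1 _ b1 e1
    have c2 := hquot _ a2 _ b2 e2
    have c3 := hquot _ a3 _ b3 e3
    obtain ⟨h, hh, z, hz, e4⟩ := (hp.mem _).1 c1
    refine ⟨h, ⟨⟨h, hh⟩, ⟨⟨z, hz, ?_⟩, ⟨z, hz, ?_⟩⟩, rfl⟩, ?_⟩
    · show g⁻¹ * (h * z) * g ∈ W
      rw [← e4]
      have e5 : g⁻¹ * (s₂⁻¹ * s₃) * g = (g⁻¹ * s₂ * g)⁻¹ * (g⁻¹ * s₃ * g) := by group
      rw [e5]; exact c2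
    · have e6 : (x * g)⁻¹ * (((d⁻¹ * ⟨h, hh⟩ * d : H) : G) * z) * (x * g) =
          ((t * g)⁻¹ * s₂ * (t * g))⁻¹ * ((t * g)⁻¹ * s₃ * (t * g)) := by
        have e7 : (d : G) * z = z * d := hp.comm d d.2 z hz
        have e8 : ((d⁻¹ * ⟨h, hh⟩ * d : H) : G) * z = (d : G)⁻¹ * (s₂⁻¹ * s₃) * d := by
          rw [e4, Subgroup.coe_mul, Subgroup.coe_mul, Subgroup.coe_inv, mul_assoc, e7]
          group
        rw [e8, ht]
        group
      rw [e6]; exact c3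
    · rw [e4, inv_mul_cancel_left]; exact hz
  obtain ⟨F', hF', hcov⟩ := cover_of_types (S := Pair G (g • v) ((t * g * y * g⁻¹) ^ 1 • g • v))
    (Z := Z) (fun s => (rr s, rr (g⁻¹ * s * g), rr ((t * g)⁻¹ * s * (t * g))))
    (hR.prod (hR.prod hR)) hty (hfin.image _) hcl
  obtain ⟨r, hVA⟩ := va_of_cover hp.zfg hp.zab hF' hcov
  exact main_pair hT hact hG hGC o hax 1 hVA

include hT hact in
/-- **Main theorem for product vertex groups** -/
theorem main_prd (hG : Geo X G) (hGC : GC X) (hp : Prd H Z W Y B pr) (k : H) {τ : ℝ} (hτ : 0 < τ)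
    {c : ℝ → Y} (hk : @Axis Y _ H _ (bact hp.cY) k τ c) (hHP : HP c = ∅) {v : V}
    (hHV : W ≤ MulAction.stabilizer G v)
    (hidx : W.relIndex (MulAction.stabilizer G v) ≠ 0)
    (hfix : ∀ u, T.Adj v u → ∃ s : G, s • v = v ∧ s • u ≠ u) :
    (∃ g : G, RankOne X g) ∨ SplitsLine X ∨
      ∃ Y₀ : Set X, Y₀ ⊆ Y ∧ CC H Y₀ ∧ (∃ x y : Y₀, x ≠ y) ∧
      ∃ (Z : Type) (_ : MetricSpace Z) (_ : Nontrivial Z) (e : X ≃ Z × Y₀),
      ∀ x x' : X, dist x x' ^ 2 = dist (e x).1 (e x').1 ^ 2 + dist (e x).2 (e x').2 ^ 2 := by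
  have := hG.isom
  by_cases he : ∀ s : H, ∃ l : ℕ, 0 < l ∧ (s * k * s⁻¹) ^ l ∈ Subgroup.zpowers k
  · have h1 : (∃ g : G, RankOne X g) ∨ SplitsLine X := by
      by_cases hmov : ∃ g : G, v ≠ g • v
      · obtain ⟨g, hgv⟩ := hmov
        exact prd_elem hT hact hG hGC hp k hτ hk hHP hidx hfix hgv he
      · push Not at hmov
        have e : MulAction.stabilizer G v = ⊤ :=
          eq_top_iff.2 fun g _ => MulAction.mem_stabilizer_iff.2 (hmov g).symm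
        rw [e] at hidx
        exact prd_elem_top hG hGC hp k hτ hk hHP hidx he
    rcases h1 with h | h
    · exact Or.inl h
    · exact Or.inr (Or.inl h)
  push Not at he
  obtain ⟨s₁, hs₁⟩ := he
  by_cases hall : ∀ g : G, Bd Y g
  · obtain ⟨Y₀, hsub, h₀, h1 | h1⟩ := split_of_bd hG hGC hp.cY hall
    · left
      refine ⟨k, τ, fun t => (c t : X), hτ, ⟨?_, ?_⟩, ?_⟩
      · exact isometry_subtype_coe.comp hk.1
      · intro t
        exact congrArg Subtype.val (hk.2 t)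
      · rw [eq_empty_iff_forall_notMem]
        rintro K ⟨e1, e2⟩
        have : (fun z => (⟨K z, hsub (h1 _)⟩ : Y)) ∈ HP c :=
          ⟨e1, fun t => Subtype.ext (e2 t)⟩
        rw [hHP] at this
        exact this
    · right; right
      obtain ⟨x, y, hxy⟩ := (nontrivial_of_axis hp.cY h₀ hsub k hτ hk).exists_pair_ne
      exact ⟨Y₀, hsub, h₀, ⟨x, y, hxy⟩, h1⟩
  push Not at hall
  obtain ⟨g', hg'⟩ := hall
  rcases prd_dyn hT hact hG hGC hp k hτ hk hHP hHV hidx hfix hs₁ hg' with h | h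
  · exact Or.inl h
  · exact Or.inr (Or.inl h)

/-! ### products -/

lemma num_prod {p₁ p₂ q₁ q₂ a b d l : ℝ} (hp₁ : 0 ≤ p₁) (hp₂ : 0 ≤ p₂) (hq₁ : 0 ≤ q₁)
    (hq₂ : 0 ≤ q₂) (ha : 0 ≤ a) (hb : 0 ≤ b) (hl0 : 0 ≤ l) (hl1 : l ≤ 1)
    (h1 : p₁ ^ 2 + p₂ ^ 2 = (l * d) ^ 2) (h2 : q₁ ^ 2 + q₂ ^ 2 = (d - l * d) ^ 2)
    (h3 : a ≤ p₁ + q₁) (h4 : b ≤ p₂ + q₂) (h5 : a ^ 2 + b ^ 2 = d ^ 2) :
    p₁ = l * a ∧ q₁ = a - l * a := by
  have h6 : a ^ 2 ≤ (p₁ + q₁) ^ 2 := pow_le_pow_left₀ ha h3 2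
  have h7 : b ^ 2 ≤ (p₂ + q₂) ^ 2 := pow_le_pow_left₀ hb h4 2
  have h8 : l * (1 - l) * d ^ 2 ≤ p₁ * q₁ + p₂ * q₂ := by nlinarith
  have hl2 : 0 ≤ l * (1 - l) := mul_nonneg hl0 (by linarith)
  have h9 : ((1 - l) * p₁ - l * q₁) ^ 2 + ((1 - l) * p₂ - l * q₂) ^ 2 ≤ 0 := by
    have e : ((1 - l) * p₁ - l * q₁) ^ 2 + ((1 - l) * p₂ - l * q₂) ^ 2 =
        (1 - l) ^ 2 * (p₁ ^ 2 + p₂ ^ 2) + l ^ 2 * (q₁ ^ 2 + q₂ ^ 2) -
          2 * (l * (1 - l)) * (p₁ * q₁ + p₂ * q₂) := by ring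
    rw [e, h1, h2]
    nlinarith [mul_le_mul_of_nonneg_left h8 hl2]
  have e1 : (1 - l) * p₁ = l * q₁ := by
    have := sq_nonneg ((1 - l) * p₂ - l * q₂)
    have h : ((1 - l) * p₁ - l * q₁) ^ 2 = 0 := le_antisymm (by linarith) (sq_nonneg _)
    have := pow_eq_zero_iff (two_ne_zero) |>.1 h
    linarith
  have e2 : (1 - l) * p₂ = l * q₂ := by
    have := sq_nonneg ((1 - l) * p₁ - l * q₁)
    have h : ((1 - l) * p₂ - l * q₂) ^ 2 = 0 := le_antisymm (by linarith) (sq_nonneg _)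
    have := pow_eq_zero_iff (two_ne_zero) |>.1 h
    linarith
  have f1 : l * a ≤ p₁ := by nlinarith
  have f2 : l * b ≤ p₂ := by nlinarith
  have f3 : (1 - l) * a ≤ q₁ := by nlinarith
  have f4 : (1 - l) * b ≤ q₂ := by nlinarith
  have g1 : (l * a) ^ 2 ≤ p₁ ^ 2 := pow_le_pow_left₀ (mul_nonneg hl0 ha) f1 2
  have g2 : (l * b) ^ 2 ≤ p₂ ^ 2 := pow_le_pow_left₀ (mul_nonneg hl0 hb) f2 2
  have hl3 : 0 ≤ 1 - l := by linarith
  have g3 : ((1 - l) * a) ^ 2 ≤ q₁ ^ 2 := pow_le_pow_left₀ (mul_nonneg hl3 ha) f3 2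
  have g4 : ((1 - l) * b) ^ 2 ≤ q₂ ^ 2 := pow_le_pow_left₀ (mul_nonneg hl3 hb) f4 2
  have k1 : p₁ ^ 2 = (l * a) ^ 2 := by
    have : (l * a) ^ 2 + (l * b) ^ 2 = (l * d) ^ 2 := by rw [mul_pow, mul_pow, mul_pow, ← h5]; ring
    linarith
  have k2 : q₁ ^ 2 = ((1 - l) * a) ^ 2 := by
    have : ((1 - l) * a) ^ 2 + ((1 - l) * b) ^ 2 = (d - l * d) ^ 2 := by
      have : (d - l * d) ^ 2 = (1 - l) ^ 2 * d ^ 2 := by ring
      rw [this, ← h5]; ring
    linarith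
  refine ⟨(sq_eq_sq₀ hp₁ (mul_nonneg hl0 ha)).1 k1, ?_⟩
  have := (sq_eq_sq₀ hq₁ (mul_nonneg hl3 ha)).1 k2
  rw [this]; ring

/-- segments in a convex subset of a product -/
lemma prod_lift {B Y F : Type} [MetricSpace B] [MetricSpace Y] [MetricSpace F] [ProperSpace B]
    [ProperSpace Y] (hB : CN B) (hY : CN Y) (e : B → Y × F)
    (he : ∀ x x' : B, dist x x' ^ 2 = dist (e x).1 (e x').1 ^ 2 + dist (e x).2 (e x').2 ^ 2)
    (x y : B) (w : Y) (hw : dist (e x).1 w + dist w (e y).1 = dist (e x).1 (e y).1) :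
    ∃ m : B, dist x m + dist m y = dist x y ∧ (e m).1 = w := by
  have h0 := dist_nonneg (x := (e x).1) (y := w)
  have h1 := dist_nonneg (x := w) (y := (e y).1)
  rcases eq_or_lt_of_le (dist_nonneg (x := (e x).1) (y := (e y).1)) with ha | ha
  · refine ⟨x, by simp, ?_⟩
    exact dist_eq_zero.1 (by linarith)
  · set a := dist (e x).1 (e y).1 with hadef
    set d := dist x y with hd
    set l := dist (e x).1 w / a with hl
    have hl0 : 0 ≤ l := div_nonneg h0 ha.le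
    have hl1 : l ≤ 1 := by rw [hl, div_le_one ha]; linarith
    have hla : l * a = dist (e x).1 w := by rw [hl, div_mul_cancel₀ _ ha.ne']
    have hd0 : 0 ≤ d := dist_nonneg
    obtain ⟨m, hm1, hm2⟩ := ex_on hB (o := x) (p := y) (t := l * d) (mul_nonneg hl0 hd0)
      (by rw [← hd]; nlinarith)
    rw [← hd] at hm2
    have h2 := he x m
    have h3 := he m y
    have h4 := he x y
    rw [hm1] at h2
    rw [hm2] at h3
    rw [← hd, ← hadef] at h4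
    obtain ⟨k1, k2⟩ := num_prod dist_nonneg dist_nonneg dist_nonneg dist_nonneg ha.le
      dist_nonneg hl0 hl1 h2.symm h3.symm (dist_triangle (e x).1 (e m).1 (e y).1)
      (dist_triangle (e x).2 (e m).2 (e y).2) h4.symm
    refine ⟨m, by rw [hm1, hm2]; ring, ?_⟩
    refine on_uniq hY (o := (e x).1) (p := (e y).1) (t := l * a) ⟨k1, ?_⟩ ⟨hla.symm, ?_⟩
    · rw [k2]
    · rw [← hadef, hla]; linarith

end Pool.Agent.T6.H46.RC
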